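import Pool.Agent.H387R3.ZF.Defs

/-!
# The linear form with the kernel of order 2 (degree drop at least 2)
-/

open MeasureTheory Filter Topology Complex Polynomial Pool.Agent.H337R2

namespace Pool.Agent.ZF

noncomputable section

namespace B2aux

lemma one_le_S (y : ℝ) : 1 ≤ Real.sqrt (1 + y ^ 2) := by
  rw [Real.one_le_sqrt]
  nlinarith [sq_nonneg y]

lemma norm_zl_add_ge (y : ℝ) {k : ℕ} (hk : 1 ≤ k) : Real.sqrt (1 + y ^ 2) / 2 ≤ ‖zl y + k‖ := by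
  rw [zl_add, norm_lf]
  apply Real.le_sqrt_of_sq_le
  rw [div_pow, Real.sq_sqrt (by positivity)]
  have h1 : (1 : ℝ) ≤ k := by exact_mod_cast hk
  nlinarith [sq_nonneg y]

lemma norm_zl_le (y : ℝ) : ‖zl y‖ ≤ Real.sqrt (1 + y ^ 2) := by
  unfold zl
  rw [norm_lf]
  apply Real.sqrt_le_sqrt
  nlinarith [sq_nonneg y]

lemma aeval_le (P : ℚ[X]) : ∃ C : ℝ, 0 < C ∧ ∀ y : ℝ, ‖aeval (zl y) P‖ ≤ C * Real.sqrt (1 + y ^ 2) ^ P.natDegree := by
  refine ⟨(∑ i ∈ Finset.range (P.natDegree + 1), ‖((P.coeff i : ℚ) : ℂ)‖) + 1, by positivity, fun y => ?_⟩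
  have hS := one_le_S y
  rw [aeval_eq_sum_range]
  calc _ ≤ ∑ i ∈ Finset.range (P.natDegree + 1), ‖P.coeff i • zl y ^ i‖ := norm_sum_le _ _
    _ ≤ ∑ i ∈ Finset.range (P.natDegree + 1), ‖((P.coeff i : ℚ) : ℂ)‖ * Real.sqrt (1 + y ^ 2) ^ P.natDegree := by
        apply Finset.sum_le_sum
        intro i hi
        rw [Finset.mem_range] at hi
        rw [Algebra.smul_def, norm_mul, norm_pow]
        have e1 : (algebraMap ℚ ℂ) (P.coeff i) = ((P.coeff i : ℚ) : ℂ) := rfl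
        rw [e1]
        apply mul_le_mul_of_nonneg_left _ (norm_nonneg _)
        calc _ ≤ Real.sqrt (1 + y ^ 2) ^ i := pow_le_pow_left₀ (norm_nonneg _) (norm_zl_le y) i
          _ ≤ _ := pow_le_pow_right₀ hS (by omega)
    _ = (∑ i ∈ Finset.range (P.natDegree + 1), ‖((P.coeff i : ℚ) : ℂ)‖) * Real.sqrt (1 + y ^ 2) ^ P.natDegree := by
        rw [Finset.sum_mul]
    _ ≤ _ := by
        apply mul_le_mul_of_nonneg_right _ (by positivity)
        linarith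

lemma le_aeval_QQ (s : Finset ℕ) (μ : ℕ → ℕ) (hs : ∀ k ∈ s, 1 ≤ k) (y : ℝ) :
    (Real.sqrt (1 + y ^ 2) / 2) ^ (QQ s μ).natDegree ≤ ‖aeval (zl y) (QQ s μ)‖ := by
  rw [QQ_natDegree]
  unfold QQ
  rw [map_prod, norm_prod, ← Finset.prod_pow_eq_pow_sum]
  apply Finset.prod_le_prod
  · intro k _
    positivity
  · intro k hk
    rw [map_pow, map_add, aeval_X, aeval_C, norm_pow]
    have e1 : (algebraMap ℚ ℂ) (k : ℚ) = (k : ℂ) := by simp
    rw [e1]
    exact pow_le_pow_left₀ (by positivity) (norm_zl_add_ge y (hs k hk)) _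

lemma real_aux {S C : ℝ} (hS : 1 ≤ S) (hC : 0 < C) {d D : ℕ} (h : d + 2 ≤ D) :
    C * S ^ d / (S / 2) ^ D ≤ C * 2 ^ D * (S ^ 2)⁻¹ := by
  have hS0 : 0 < S := by linarith
  have h5 : S ^ (d + 2) ≤ S ^ D := pow_le_pow_right₀ hS h
  rw [div_pow, div_div_eq_mul_div, div_le_iff₀ (by positivity)]
  have h6 : (S ^ 2)⁻¹ * S ^ (d + 2) = S ^ d := by
    rw [pow_add]
    field_simp
  calc _ = C * 2 ^ D * ((S ^ 2)⁻¹ * S ^ (d + 2)) := by
        rw [h6]; ring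
    _ ≤ C * 2 ^ D * ((S ^ 2)⁻¹ * S ^ D) := by
        gcongr
    _ = _ := by ring

lemma Rc_le2 (s : Finset ℕ) (μ : ℕ → ℕ) (P : ℚ[X]) (hdeg : P.natDegree + 2 ≤ (QQ s μ).natDegree)
    (hd : P.degree < (QQ s μ).degree) (hs : ∀ k ∈ s, 1 ≤ k) :
    ∃ C : ℝ, 0 < C ∧ ∀ y, ‖Rc s μ P y‖ ≤ C * (1 + y ^ 2)⁻¹ := by
  obtain ⟨C, hC, h⟩ := aeval_le P
  refine ⟨C * 2 ^ (QQ s μ).natDegree, by positivity, fun y => ?_⟩
  have hS := one_le_S y
  have hS0 : 0 < Real.sqrt (1 + y ^ 2) := by linarith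
  have h1 := h y
  have h2 := le_aeval_QQ s μ hs y
  rw [Rc_eq s μ P hd y, norm_div]
  have h3 : 0 < (Real.sqrt (1 + y ^ 2) / 2) ^ (QQ s μ).natDegree := by positivity
  have h4 : Real.sqrt (1 + y ^ 2) ^ 2 = 1 + y ^ 2 := Real.sq_sqrt (by positivity)
  calc _ ≤ (C * Real.sqrt (1 + y ^ 2) ^ P.natDegree) / (Real.sqrt (1 + y ^ 2) / 2) ^ (QQ s μ).natDegree := by
        gcongr
    _ ≤ C * 2 ^ (QQ s μ).natDegree * (Real.sqrt (1 + y ^ 2) ^ 2)⁻¹ := real_aux hS hC hdeg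
    _ = _ := by rw [h4]

lemma term_int_norm2 (s : Finset ℕ) (μ : ℕ → ℕ) (P : ℚ[X]) (hdeg : P.natDegree + 2 ≤ (QQ s μ).natDegree)
    (hd : P.degree < (QQ s μ).degree) (hs : ∀ k ∈ s, 1 ≤ k) :
    ∃ C : ℝ, 0 < C ∧ ∀ (m : ℤ) (y : ℝ), ‖Rc s μ P y * li (hm m) y ^ 2‖ ≤
      (C * (1 / (|(m : ℝ)| + 1) ^ 2)) * (1 + y ^ 2)⁻¹ := by
  obtain ⟨C, hC, h⟩ := Rc_le2 s μ P hdeg hd hs
  refine ⟨C * 4 ^ 2, by positivity, fun m y => ?_⟩
  rw [norm_mul]
  have h1 := li_hm_le (le_refl 2) m y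
  have h3 := h y
  calc _ ≤ (C * (1 + y ^ 2)⁻¹) * (4 ^ 2 * (1 / (|(m : ℝ)| + 1) ^ 2)) := by
        gcongr
    _ = _ := by ring

lemma term_integrable2 (s : Finset ℕ) (μ : ℕ → ℕ) (P : ℚ[X]) (hdeg : P.natDegree + 2 ≤ (QQ s μ).natDegree)
    (hd : P.degree < (QQ s μ).degree) (hs : ∀ k ∈ s, 1 ≤ k) (m : ℤ) :
    Integrable (fun y : ℝ => Rc s μ P y * li (hm m) y ^ 2) := by
  obtain ⟨C, _, hC⟩ := term_int_norm2 s μ P hdeg hd hs
  refine Integrable.mono' (integrable_inv_one_add_sq.const_mul (C * (1 / (|(m : ℝ)| + 1) ^ 2))) ?_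
    (Filter.Eventually.of_forall (hC m))
  exact ((Rc_continuous s μ P).mul ((li_continuous (hm_ne m)).pow 2)).aestronglyMeasurable

theorem hasSum_int2 (s : Finset ℕ) (μ : ℕ → ℕ) (P : ℚ[X]) (hdeg : P.natDegree + 2 ≤ (QQ s μ).natDegree)
    (hd : P.degree < (QQ s μ).degree) (hs : ∀ k ∈ s, 1 ≤ k) :
    HasSum (fun m : ℤ => ∫ y : ℝ, Rc s μ P y * li (hm m) y ^ 2) (∫ y : ℝ, Rc s μ P y * KK 2 y) := by
  obtain ⟨C, _, hC⟩ := term_int_norm2 s μ P hdeg hd hs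
  have h := hasSum_integral_of_summable_integral_norm (μ := volume)
    (F := fun (m : ℤ) (y : ℝ) => Rc s μ P y * li (hm m) y ^ 2)
    (fun m => term_integrable2 s μ P hdeg hd hs m) (by
      apply Summable.of_nonneg_of_le (fun m => integral_nonneg fun y => norm_nonneg _)
        (f := fun m : ℤ => (C * (1 / (|(m : ℝ)| + 1) ^ 2)) * ∫ y : ℝ, (1 + y ^ 2)⁻¹)
      · intro m
        rw [← integral_const_mul]
        exact integral_mono (term_integrable2 s μ P hdeg hd hs m).norm (integrable_inv_one_add_sq.const_mul _) (hC m)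
      · exact (summable_abs_sq.mul_left C).mul_right _)
  have e : (∫ y : ℝ, Rc s μ P y * KK 2 y) = ∫ y : ℝ, ∑' m : ℤ, Rc s μ P y * li (hm m) y ^ 2 := by
    refine integral_congr_ae (Filter.Eventually.of_forall fun y => ?_)
    simp only [KK]
    rw [tsum_mul_left]
  rw [e]
  exact h

/-- integral against one term of the kernel, right of the line -/
lemma int_nat (s : Finset ℕ) (μ : ℕ → ℕ) (P : ℚ[X]) (hdeg : P.degree < (QQ s μ).degree)
    (hs : ∀ k ∈ s, 1 ≤ k) {b : ℕ} (hb : 1 ≤ b) (t : ℕ) :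
    ∫ y : ℝ, Rc s μ P y * li (hm t) y ^ b =
      -(2 * Real.pi) * ((PowerSeries.coeff (b - 1) (RS s μ P (t : ℚ)) : ℚ) : ℂ) := by
  obtain ⟨β, rfl⟩ : ∃ β, b = β + 1 := ⟨b - 1, by omega⟩
  have hne : ∀ m ∈ s, (t : ℚ) + (m : ℚ) ≠ 0 := by
    intro m hm0
    have h1 : (1 : ℚ) ≤ m := by exact_mod_cast hs m hm0
    positivity
  have hV : hm (t : ℤ) < 0 := by
    unfold hm
    have : (0 : ℝ) ≤ ((t : ℤ) : ℝ) := by positivity
    linarith
  rw [Nat.add_sub_cancel, coeff_RS s μ P hdeg _ hne β]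
  have h1 : ∀ y : ℝ, Rc s μ P y * li (hm t) y ^ (β + 1) = ∑ k ∈ s, ∑ j ∈ Finset.range (μ k),
      ((pfc s μ P k j : ℚ) : ℂ) * (li ((k : ℝ) - 1 / 2) y ^ (μ k - j) * li (hm t) y ^ (β + 1)) := by
    intro y
    unfold Rc
    rw [Finset.sum_mul]
    apply Finset.sum_congr rfl
    intro k _
    rw [Finset.sum_mul]
    apply Finset.sum_congr rfl
    intro j _
    ring
  simp_rw [h1]
  rw [integral_finsetSum]
  · push_cast
    rw [Finset.mul_sum]
    apply Finset.sum_congr rfl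
    intro k hk
    have hk1 : (0 : ℝ) < (k : ℝ) - 1 / 2 := by
      have : (1 : ℝ) ≤ k := by exact_mod_cast hs k hk
      linarith
    rw [integral_finsetSum, Finset.mul_sum]
    · apply Finset.sum_congr rfl
      intro j hj
      rw [Finset.mem_range] at hj
      rw [integral_const_mul]
      obtain ⟨i, hi⟩ : ∃ i, μ k - j = i + 1 := ⟨μ k - j - 1, by omega⟩
      rw [hi, J_neg hk1 hV (i + β) i β rfl]
      have e1 : ((((k : ℝ) - 1 / 2 : ℝ)) : ℂ) - ((hm (t : ℤ) : ℝ) : ℂ) = (t : ℂ) + k := by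
        unfold hm; push_cast; ring
      rw [e1, Nat.add_sub_cancel]
      have e2 : i + 1 + β = i + β + 1 := by ring
      rw [e2]
      ring
    · intro j hj
      rw [Finset.mem_range] at hj
      exact (li_prod_integrable hk1.ne' hV.ne (by omega)).const_mul _
  · intro k hk
    have hk1 : (0 : ℝ) < (k : ℝ) - 1 / 2 := by
      have : (1 : ℝ) ≤ k := by exact_mod_cast hs k hk
      linarith
    apply integrable_finsetSum
    intro j hj
    rw [Finset.mem_range] at hj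
    exact (li_prod_integrable hk1.ne' hV.ne (by omega)).const_mul _

/-- integral against one term of the kernel, left of the line -/
lemma int_neg (s : Finset ℕ) (μ : ℕ → ℕ) (P : ℚ[X]) (hs : ∀ k ∈ s, 1 ≤ k) {b : ℕ} (hb : 1 ≤ b) (m : ℤ) (hm0 : m < 0) :
    ∫ y : ℝ, Rc s μ P y * li (hm m) y ^ b = 0 := by
  obtain ⟨β, rfl⟩ : ∃ β, b = β + 1 := ⟨b - 1, by omega⟩
  have hV : 0 < hm m := by
    unfold hm
    have h' : (m : ℝ) ≤ -1 := by exact_mod_cast (by omega : m ≤ -1)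
    linarith
  have h1 : ∀ y : ℝ, Rc s μ P y * li (hm m) y ^ (β + 1) = ∑ k ∈ s, ∑ j ∈ Finset.range (μ k),
      ((pfc s μ P k j : ℚ) : ℂ) * (li ((k : ℝ) - 1 / 2) y ^ (μ k - j) * li (hm m) y ^ (β + 1)) := by
    intro y
    unfold Rc
    rw [Finset.sum_mul]
    apply Finset.sum_congr rfl
    intro k _
    rw [Finset.sum_mul]
    apply Finset.sum_congr rfl
    intro j _
    ring
  simp_rw [h1]
  rw [integral_finsetSum]
  · apply Finset.sum_eq_zero
    intro k hk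
    have hk1 : (0 : ℝ) < (k : ℝ) - 1 / 2 := by
      have : (1 : ℝ) ≤ k := by exact_mod_cast hs k hk
      linarith
    rw [integral_finsetSum]
    · apply Finset.sum_eq_zero
      intro j hj
      rw [Finset.mem_range] at hj
      rw [integral_const_mul]
      obtain ⟨i, hi⟩ : ∃ i, μ k - j = i + 1 := ⟨μ k - j - 1, by omega⟩
      rw [hi, J_pos hk1 hV (i + β) i β rfl, mul_zero]
    · intro j hj
      rw [Finset.mem_range] at hj
      exact (li_prod_integrable hk1.ne' hV.ne' (by omega)).const_mul _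
  · intro k hk
    have hk1 : (0 : ℝ) < (k : ℝ) - 1 / 2 := by
      have : (1 : ℝ) ≤ k := by exact_mod_cast hs k hk
      linarith
    apply integrable_finsetSum
    intro j hj
    rw [Finset.mem_range] at hj
    exact (li_prod_integrable hk1.ne' hV.ne' (by omega)).const_mul _

/-- The sum of the series as an integral. -/
theorem F_integral2 (s : Finset ℕ) (μ : ℕ → ℕ) (P : ℚ[X]) (hdeg : P.natDegree + 2 ≤ (QQ s μ).natDegree)
    (hd : P.degree < (QQ s μ).degree) (hs : ∀ k ∈ s, 1 ≤ k) (F : ℝ)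
    (hF : HasSum (fun t : ℕ => ((PowerSeries.coeff 1 (RS s μ P (t : ℚ)) : ℚ) : ℝ)) F) :
    ∫ y : ℝ, Rc s μ P y * KK 2 y = -(2 * Real.pi) * (F : ℂ) := by
  have h1 := hasSum_int2 s μ P hdeg hd hs
  have h2 : HasSum (fun t : ℕ => ((PowerSeries.coeff 1 (RS s μ P (t : ℚ)) : ℚ) : ℂ)) (F : ℂ) := by
    have := (Complex.hasSum_ofReal).2 hF
    refine this.congr_fun ?_
    intro t
    push_cast
    rfl
  have h3 := h2.mul_left (-(2 * (Real.pi : ℂ)))
  have h4 : HasSum (fun m : ℤ => ∫ y : ℝ, Rc s μ P y * li (hm m) y ^ 2) (-(2 * (Real.pi : ℂ)) * (F : ℂ)) := by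
    rw [← Function.Injective.hasSum_iff (g := fun t : ℕ => (t : ℤ)) (fun a b h => by simpa using h)]
    · refine h3.congr_fun ?_
      intro t
      exact int_nat s μ P hd hs (b := 2) (by omega) t
    · intro m hm0
      apply int_neg s μ P hs (by omega) m
      by_contra hcon
      apply hm0
      exact ⟨m.toNat, by simp; omega⟩
  exact h1.unique h4

end B2aux

open B2aux

theorem B2_kernel2 (s : Finset ℕ) (μ : ℕ → ℕ) (P : ℚ[X]) (hdeg : P.natDegree + 2 ≤ (QQ s μ).natDegree)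
    (hs : ∀ k ∈ s, 1 ≤ k) (F : ℝ)
    (hF : HasSum (fun t : ℕ => ((PowerSeries.coeff 1 (RS s μ P (t : ℚ)) : ℚ) : ℝ)) F)
    (B : ℝ) (hB : ∀ y : ℝ, ‖Rc s μ P y‖ * Real.exp (-(2 * Real.pi * |y|)) ≤ B * (1 + y ^ 2)⁻¹)
    (C : ℝ) (hC : 0 ≤ C) (hCK : ∀ y : ℝ, ‖KK 2 y‖ ≤ C * Real.exp (-(2 * Real.pi * |y|))) : |F| ≤ C * B := by
  have hd : P.degree < (QQ s μ).degree := Polynomial.degree_lt_degree (by omega)
  have h1 := F_integral2 s μ P hdeg hd hs F hF
  have h2 : ‖∫ y : ℝ, Rc s μ P y * KK 2 y‖ ≤ ∫ y : ℝ, (C * B) * (1 + y ^ 2)⁻¹ := by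
    apply norm_integral_le_of_norm_le (integrable_inv_one_add_sq.const_mul _)
    refine Filter.Eventually.of_forall (fun y => ?_)
    rw [norm_mul]
    calc _ ≤ ‖Rc s μ P y‖ * (C * Real.exp (-(2 * Real.pi * |y|))) := mul_le_mul_of_nonneg_left (hCK y) (norm_nonneg _)
      _ = C * (‖Rc s μ P y‖ * Real.exp (-(2 * Real.pi * |y|))) := by ring
      _ ≤ C * (B * (1 + y ^ 2)⁻¹) := mul_le_mul_of_nonneg_left (hB y) hC
      _ = _ := by ring
  rw [h1, integral_const_mul, integral_univ_inv_one_add_sq, norm_mul, norm_neg, norm_mul, Complex.norm_ofNat,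
    Complex.norm_real, Complex.norm_real, Real.norm_of_nonneg Real.pi_pos.le, Real.norm_eq_abs] at h2
  have hπ := Real.pi_pos
  have h3 : 2 * |F| * Real.pi ≤ (C * B) * Real.pi := by linarith
  have h4 := le_of_mul_le_mul_right h3 hπ
  have := abs_nonneg F
  linarith

end

end Pool.Agent.ZF
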