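import Pool.Agent.H387R3.ZF.Defs

/-! Task B1 (helper317): the linear form (derivative orders 2 and 1). -/

open Polynomial Pool.Agent.H337R2

namespace Pool.Agent.ZF

noncomputable section

lemma B1_natDegree {n : ℕ} (hn : 1 ≤ n) (Q : ℚ[X]) (hQ : Q.natDegree ≤ 8 * n - 2) :
    (PF n * Q).natDegree + 2 ≤ (QQ (sF n) mF).natDegree := by
  have h0 : (QQ (sF n) mF).natDegree = 14 * n := by
    rw [QQ_natDegree, Finset.sum_const, Nat.card_Icc, smul_eq_mul]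
    omega
  have h1 : (PF n).natDegree ≤ 6 * n := by
    unfold PF
    refine (Polynomial.natDegree_C_mul_le _ _).trans ?_
    refine (Polynomial.natDegree_prod_le _ _).trans ?_
    refine (Finset.sum_le_card_nsmul _ _ 3 fun m _ => ?_).trans ?_
    · refine Polynomial.natDegree_pow_le.trans ?_
      rw [Polynomial.natDegree_X_add_C]
    · rw [Nat.card_Icc, smul_eq_mul]
      omega
  have h2 : (PF n * Q).natDegree ≤ (PF n).natDegree + Q.natDegree := Polynomial.natDegree_mul_le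
  omega

lemma B1_dvd {n : ℕ} (Q : ℚ[X]) {m : ℕ} (hm : m ∈ Finset.Icc 1 (2 * n)) :
    (X + C (m : ℚ)) ^ 3 ∣ PF n * Q := by
  unfold PF
  exact ((Finset.dvd_prod_of_mem (fun j : ℕ => (X + C (j : ℚ)) ^ 3) hm).mul_left _).mul_right _

/-- the linear form for poles of order two, in terms of `pa` -/
lemma B1_form {n : ℕ} (hn : 1 ≤ n) (Q : ℚ[X]) (hQ : Q.natDegree ≤ 8 * n - 2) (β : ℕ) (hβ : 1 ≤ β)
    (hβ2 : β ≤ 2) :
    HasSum (fun t : ℕ => ((PowerSeries.coeff β (RS (sF n) mF (PF n * Q) (t : ℚ)) : ℚ) : ℝ))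
      (∑ k ∈ sF n, ((((-1) ^ β * ((β + 1 : ℕ) : ℚ) * pa (sF n) mF (PF n * Q) k 2 : ℚ) : ℝ) *
          (zr (2 + β) - (hs (2 + β) (k - 2 * n - 1) : ℚ)) +
        (((-1) ^ β * pa (sF n) mF (PF n * Q) k 1 : ℚ) : ℝ) *
          (zr (1 + β) - (hs (1 + β) (k - 2 * n - 1) : ℚ)))) := by
  have hd := B1_natDegree hn Q hQ
  have hdeg' : (PF n * Q).degree < (QQ (sF n) mF).degree := by
    rw [Polynomial.degree_eq_natDegree (QQ_monic _ _).ne_zero]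
    exact lt_of_le_of_lt Polynomial.degree_le_natDegree (by exact_mod_cast (by omega))
  have h := linear_form (sF n) mF (PF n * Q) hdeg' β (2 * n) hβ
    (fun k hk => by have := (Finset.mem_Icc.1 hk).1; omega)
    (fun m hm => (pow_dvd_pow _ (by omega)).trans (B1_dvd Q hm))
  convert h using 1
  apply Finset.sum_congr rfl
  intro k _
  rw [Finset.sum_range_succ, Finset.sum_range_succ, Finset.sum_range_zero, zero_add]
  have e2 : pa (sF n) mF (PF n * Q) k 2 = pfc (sF n) mF (PF n * Q) k 0 := by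
    unfold pa; rw [if_pos (by simp)]; rfl
  have e1 : pa (sF n) mF (PF n * Q) k 1 = pfc (sF n) mF (PF n * Q) k 1 := by
    unfold pa; rw [if_pos (by simp)]; rfl
  rw [e2, e1]
  have c1 : Nat.choose (2 - 0 - 1 + β) (2 - 0 - 1) = β + 1 := by
    rw [show 2 - 0 - 1 + β = β + 1 by omega, show 2 - 0 - 1 = 1 from rfl, Nat.choose_one_right]
  have c2 : Nat.choose (2 - 1 - 1 + β) (2 - 1 - 1) = 1 := by
    rw [show 2 - 1 - 1 = 0 from rfl, Nat.choose_zero_right]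
  show _ = ((pfc (sF n) mF (PF n * Q) k 0 * ((-1) ^ β * (Nat.choose (2 - 0 - 1 + β) (2 - 0 - 1) : ℚ)) : ℚ) : ℝ) *
          (zr (2 - 0 + β) - (hs (2 - 0 + β) (k - 2 * n - 1) : ℚ)) +
      ((pfc (sF n) mF (PF n * Q) k 1 * ((-1) ^ β * (Nat.choose (2 - 1 - 1 + β) (2 - 1 - 1) : ℚ)) : ℚ) : ℝ) *
          (zr (2 - 1 + β) - (hs (2 - 1 + β) (k - 2 * n - 1) : ℚ))
  rw [c1, c2, show 2 - 0 + β = 2 + β by omega, show 2 - 1 + β = 1 + β by omega]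
  push_cast
  ring

lemma B1_alg (s : Finset ℕ) (b c H4 H3 H2 : ℕ → ℝ) (z4 z3 z2 β : ℝ) (h0 : ∑ k ∈ s, c k = 0) :
    6 * (z4 - β * z3) * (∑ k ∈ s, b k) - (∑ k ∈ s, (6 * b k * H4 k + 2 * c k * H3 k)) +
      β * ∑ k ∈ s, (6 * b k * H3 k + 3 * c k * H2 k) =
    2 * (∑ k ∈ s, ((-1) ^ 2 * 3 * b k * (z4 - H4 k) + (-1) ^ 2 * c k * (z3 - H3 k))) +
      3 * β * ∑ k ∈ s, ((-1) ^ 1 * 2 * b k * (z3 - H3 k) + (-1) ^ 1 * c k * (z2 - H2 k)) := by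
  have s1 : ∀ z : ℝ, ∑ k ∈ s, c k * z = 0 := by
    intro z
    rw [← Finset.sum_mul, h0, zero_mul]
  have t2 : ∑ k ∈ s, ((-1 : ℝ) ^ 2 * 3 * b k * (z4 - H4 k) + (-1 : ℝ) ^ 2 * c k * (z3 - H3 k)) =
      3 * z4 * (∑ k ∈ s, b k) - ∑ k ∈ s, (3 * b k * H4 k + c k * H3 k) + ∑ k ∈ s, c k * z3 := by
    rw [Finset.mul_sum, ← Finset.sum_sub_distrib, ← Finset.sum_add_distrib]
    exact Finset.sum_congr rfl fun k _ => by ring
  have t1 : ∑ k ∈ s, ((-1 : ℝ) ^ 1 * 2 * b k * (z3 - H3 k) + (-1 : ℝ) ^ 1 * c k * (z2 - H2 k)) =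
      -2 * z3 * (∑ k ∈ s, b k) + ∑ k ∈ s, (2 * b k * H3 k + c k * H2 k) - ∑ k ∈ s, c k * z2 := by
    rw [Finset.mul_sum, ← Finset.sum_add_distrib, ← Finset.sum_sub_distrib]
    exact Finset.sum_congr rfl fun k _ => by ring
  have u4 : ∑ k ∈ s, (6 * b k * H4 k + 2 * c k * H3 k) = 2 * ∑ k ∈ s, (3 * b k * H4 k + c k * H3 k) := by
    rw [Finset.mul_sum]
    exact Finset.sum_congr rfl fun k _ => by ring
  have u3 : ∑ k ∈ s, (6 * b k * H3 k + 3 * c k * H2 k) = 3 * ∑ k ∈ s, (2 * b k * H3 k + c k * H2 k) := by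
    rw [Finset.mul_sum]
    exact Finset.sum_congr rfl fun k _ => by ring
  rw [t2, t1, s1, s1, u4, u3]
  ring

theorem B1_hasSum {n : ℕ} (hn : 1 ≤ n) (α β : ℚ) (h : zr 4 = (α : ℝ) + β * zr 3) (Q : ℚ[X])
    (hQ : Q.natDegree ≤ 8 * n - 2) :
    ∃ F2 F1 : ℝ,
      HasSum (fun t : ℕ => ((PowerSeries.coeff 2 (RS (sF n) mF (PF n * Q) (t : ℚ)) : ℚ) : ℝ)) F2 ∧
      HasSum (fun t : ℕ => ((PowerSeries.coeff 1 (RS (sF n) mF (PF n * Q) (t : ℚ)) : ℚ) : ℝ)) F1 ∧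
      ((NL n α β Q : ℚ) : ℝ) = 2 * F2 + 3 * β * F1 := by
  refine ⟨_, _, B1_form hn Q hQ 2 (by norm_num) le_rfl, B1_form hn Q hQ 1 le_rfl (by norm_num), ?_⟩
  have hres := residue_sum (sF n) mF (PF n * Q) (B1_natDegree hn Q hQ)
  have hres' : ∑ k ∈ sF n, ((pa (sF n) mF (PF n * Q) k 1 : ℚ) : ℝ) = 0 := by
    have : (((∑ k ∈ sF n, pa (sF n) mF (PF n * Q) k 1 : ℚ)) : ℝ) = 0 := by
      rw [hres]; simp
    push_cast at this
    exact this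
  rw [NL_apply]
  unfold xf rho h4 h3
  have hα : (α : ℝ) = zr 4 - β * zr 3 := by rw [h]; ring
  have key := B1_alg (sF n) (fun k => ((pa (sF n) mF (PF n * Q) k 2 : ℚ) : ℝ))
    (fun k => ((pa (sF n) mF (PF n * Q) k 1 : ℚ) : ℝ)) (fun k => ((hs 4 (k - 2 * n - 1) : ℚ) : ℝ))
    (fun k => ((hs 3 (k - 2 * n - 1) : ℚ) : ℝ)) (fun k => ((hs 2 (k - 2 * n - 1) : ℚ) : ℝ))
    (zr 4) (zr 3) (zr 2) β hres'
  rw [← hα] at key
  push_cast
  exact key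

end

end Pool.Agent.ZF
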