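import Pool.Agent.H387R3.ZF.Defs

/-!
# `B3`: archimedean bound of the linear form by the values on the line, from `B1` and `B2`
-/

open Polynomial Pool.Agent.H337R2

namespace Pool.Agent.ZF

noncomputable section

lemma B3_PF_natDegree (n : ℕ) : (PF n).natDegree ≤ 6 * n := by
  unfold PF
  refine Polynomial.natDegree_mul_le.trans ?_
  rw [Polynomial.natDegree_C, zero_add]
  refine (Polynomial.natDegree_prod_le _ _).trans ?_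
  calc ∑ j ∈ Finset.Icc 1 (2 * n), ((X + C (j : ℚ)) ^ 3).natDegree ≤ ∑ _j ∈ Finset.Icc 1 (2 * n), 3 := by
        apply Finset.sum_le_sum
        intro j _
        refine Polynomial.natDegree_pow_le.trans ?_
        rw [Polynomial.natDegree_X_add_C]
    _ = 6 * n := by
        rw [Finset.sum_const, Nat.card_Icc, smul_eq_mul]
        omega

lemma B3_QQ_natDegree (n : ℕ) : (QQ (sF n) mF).natDegree = 14 * n := by
  rw [QQ_natDegree]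
  have : ∀ k ∈ sF n, mF k = 2 := fun k _ => rfl
  rw [Finset.sum_congr rfl this, Finset.sum_const, Nat.card_Icc, smul_eq_mul]
  omega

lemma B3_deg {n : ℕ} (hn : 1 ≤ n) (Q : ℚ[X]) (hQ : Q.natDegree ≤ 8 * n - 2) :
    (PF n * Q).natDegree + 2 ≤ (QQ (sF n) mF).natDegree := by
  have h1 : (PF n * Q).natDegree ≤ 6 * n + (8 * n - 2) :=
    Polynomial.natDegree_mul_le.trans (add_le_add (B3_PF_natDegree n) hQ)
  rw [B3_QQ_natDegree]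
  omega

lemma B3_deg' {n : ℕ} (hn : 1 ≤ n) (Q : ℚ[X]) (hQ : Q.natDegree ≤ 8 * n - 2) :
    (PF n * Q).degree < (QQ (sF n) mF).degree := by
  rw [Polynomial.degree_eq_natDegree (QQ_monic _ _).ne_zero]
  refine lt_of_le_of_lt Polynomial.degree_le_natDegree ?_
  have := B3_deg hn Q hQ
  exact_mod_cast (by omega : (PF n * Q).natDegree < (QQ (sF n) mF).natDegree)

/-- `B3_NL_le` from the statements `B1_hasSum` and `B2_kernel2` -/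
theorem B3_NL_le_of
    (B1 : ∀ {n : ℕ} (_ : 1 ≤ n) (α β : ℚ) (_ : zr 4 = (α : ℝ) + β * zr 3) (Q : ℚ[X])
      (_ : Q.natDegree ≤ 8 * n - 2),
      ∃ F2 F1 : ℝ,
        HasSum (fun t : ℕ => ((PowerSeries.coeff 2 (RS (sF n) mF (PF n * Q) (t : ℚ)) : ℚ) : ℝ)) F2 ∧
        HasSum (fun t : ℕ => ((PowerSeries.coeff 1 (RS (sF n) mF (PF n * Q) (t : ℚ)) : ℚ) : ℝ)) F1 ∧
        ((NL n α β Q : ℚ) : ℝ) = 2 * F2 + 3 * β * F1)
    (B2 : ∀ (s : Finset ℕ) (μ : ℕ → ℕ) (P : ℚ[X]) (_ : P.natDegree + 2 ≤ (QQ s μ).natDegree)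
      (_ : ∀ k ∈ s, 1 ≤ k) (F : ℝ)
      (_ : HasSum (fun t : ℕ => ((PowerSeries.coeff 1 (RS s μ P (t : ℚ)) : ℚ) : ℝ)) F)
      (B : ℝ) (_ : ∀ y : ℝ, ‖Rc s μ P y‖ * Real.exp (-(2 * Real.pi * |y|)) ≤ B * (1 + y ^ 2)⁻¹)
      (C : ℝ) (_ : 0 ≤ C) (_ : ∀ y : ℝ, ‖KK 2 y‖ ≤ C * Real.exp (-(2 * Real.pi * |y|))), |F| ≤ C * B)
    (β : ℚ) : ∃ C : ℝ, 0 < C ∧ ∀ n : ℕ, 1 ≤ n → ∀ α : ℚ, zr 4 = (α : ℝ) + β * zr 3 →
    ∀ Q : ℚ[X], Q.natDegree ≤ 8 * n - 2 → ∀ B : ℝ,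
    (∀ y : ℝ, ‖Rn n y‖ * ‖aeval (zl y) Q‖ * Real.exp (-(2 * Real.pi * |y|)) ≤ B * (1 + y ^ 2)⁻¹) →
    |((NL n α β Q : ℚ) : ℝ)| ≤ C * B := by
  obtain ⟨C3, hC3, hK3⟩ := KK_exp (b := 3) (by norm_num)
  obtain ⟨C2, hC2, hK2⟩ := KK_exp (b := 2) (by norm_num)
  refine ⟨2 * C3 + 3 * |(β : ℝ)| * C2, by positivity, fun n hn α h Q hQ B hB => ?_⟩
  obtain ⟨F2, F1, h2, h1, hNL⟩ := B1 hn α β h Q hQ
  have hdeg := B3_deg' hn Q hQ
  have hs : ∀ k ∈ sF n, 1 ≤ k := by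
    intro k hk
    rw [Finset.mem_Icc] at hk
    omega
  have hB' : ∀ y : ℝ, ‖Rc (sF n) mF (PF n * Q) y‖ * Real.exp (-(2 * Real.pi * |y|)) ≤ B * (1 + y ^ 2)⁻¹ := by
    intro y
    refine le_trans (le_of_eq ?_) (hB y)
    rw [Rc_eq _ _ _ hdeg y, map_mul]
    unfold Rn
    rw [norm_div, norm_div, norm_mul]
    ring
  have e2 : |F2| ≤ C3 * B :=
    F_le_integral (sF n) mF (PF n * Q) hdeg hs (b := 3) le_rfl F2 h2 B hB' C3 hC3.le hK3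
  have e1 : |F1| ≤ C2 * B :=
    B2 (sF n) mF (PF n * Q) (B3_deg hn Q hQ) hs F1 h1 B hB' C2 hC2.le hK2
  rw [hNL]
  calc |2 * F2 + 3 * (β : ℝ) * F1| ≤ |2 * F2| + |3 * (β : ℝ) * F1| := abs_add_le _ _
    _ = 2 * |F2| + 3 * |(β : ℝ)| * |F1| := by
        rw [abs_mul, abs_mul, abs_mul]
        norm_num
    _ ≤ 2 * (C3 * B) + 3 * |(β : ℝ)| * (C2 * B) := by
        have := mul_le_mul_of_nonneg_left e1 (by positivity : 0 ≤ 3 * |(β : ℝ)|)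
        linarith
    _ = _ := by ring

end

end Pool.Agent.ZF
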