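import Pool.Agent.H387R3.ZF.B1
import Pool.Agent.H387R3.ZF.B2
import Pool.Agent.H387R3.ZF.B3pre

/-!
# `B3`: archimedean bound of the linear form by the values on the line
-/

open Polynomial Pool.Agent.H337R2

namespace Pool.Agent.ZF

noncomputable section

theorem B3_NL_le (β : ℚ) : ∃ C : ℝ, 0 < C ∧ ∀ n : ℕ, 1 ≤ n → ∀ α : ℚ, zr 4 = (α : ℝ) + β * zr 3 →
    ∀ Q : ℚ[X], Q.natDegree ≤ 8 * n - 2 → ∀ B : ℝ,
    (∀ y : ℝ, ‖Rn n y‖ * ‖aeval (zl y) Q‖ * Real.exp (-(2 * Real.pi * |y|)) ≤ B * (1 + y ^ 2)⁻¹) →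
    |((NL n α β Q : ℚ) : ℝ)| ≤ C * B :=
  B3_NL_le_of (fun hn α β h Q hQ => B1_hasSum hn α β h Q hQ)
    (fun s μ P hdeg hs F hF B hB C hC hCK => B2_kernel2 s μ P hdeg hs F hF B hB C hC hCK) β

end

end Pool.Agent.ZF
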