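import Pool.Agent.H387R3.ZF.Defs

/-!
Task C2: p-adic size of the linear form for medium and large primes.
-/

open Polynomial Pool.Agent.H337R2

namespace Pool.Agent.ZF

noncomputable section

/-- statement of `C1_pa` -/
def C1_paSt : Prop := ∀ {n p : ℕ} [Fact p.Prime] (_ : 1 ≤ n) (_ : 10 * n < p ^ 2) (E : ℚ[X]) {k : ℕ}
    (_ : k ∈ sF n) (A : ℚ) (_ : 0 ≤ A) (_ : PB p (p : ℚ) A (TS (-(k : ℚ)) E)) (i : ℕ),
    padicNorm p (pa (sF n) mF (PF n * E) k i) ≤ (p : ℚ) ^ (-eF n p k - i : ℤ) * A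

/-- statement of `C1_pa_int` -/
def C1_pa_intSt : Prop := ∀ {n p : ℕ} [Fact p.Prime] (_ : 1 ≤ n) (E : ℚ[X]) {k : ℕ}
    (_ : k ∈ sF n) (A : ℚ) (_ : 0 ≤ A) (_ : PB p 1 A (TS (-(k : ℚ)) E)) (i : ℕ)
    (_ : ∀ k' ∈ sF n, k' ≠ k → ¬ (p : ℤ) ∣ (k' : ℤ) - k),
    padicNorm p (pa (sF n) mF (PF n * E) k i) ≤ padicNorm p (cF n) * A

lemma C2_int {p : ℕ} [Fact p.Prime] {q : ℕ} {u : ℚ} (hu : QI q u) : padicNorm p ((q : ℚ) * u) ≤ 1 := by
  obtain ⟨z, hz⟩ := hu.2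
  rw [hz]
  exact padicNorm.of_int z

lemma C2_mul1 {p : ℕ} [Fact p.Prime] {v x W : ℚ} (hv : padicNorm p v ≤ 1)
    (hx : padicNorm p x ≤ W) : padicNorm p (v * x) ≤ W := by
  rw [padicNorm.mul]
  calc _ ≤ 1 * W := mul_le_mul hv hx (padicNorm.nonneg _) zero_le_one
    _ = W := one_mul W

lemma C2_term {p : ℕ} [Fact p.Prime] {x1 x2 a1 a2 b1 b2 W : ℚ}
    (h1 : padicNorm p x1 ≤ 1) (h2 : padicNorm p x2 ≤ 1)
    (h3 : padicNorm p a1 * padicNorm p b1 ≤ W) (h4 : padicNorm p a2 * padicNorm p b2 ≤ W) :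
    padicNorm p (x1 * a1 * b1 + x2 * a2 * b2) ≤ W := by
  refine padicNorm.nonarchimedean.trans (max_le ?_ ?_)
  · rw [mul_assoc]
    refine C2_mul1 h1 ?_
    rw [padicNorm.mul]
    exact h3
  · rw [mul_assoc]
    refine C2_mul1 h2 ?_
    rw [padicNorm.mul]
    exact h4

theorem C2_xf' (hC1 : C1_paSt) (hC1i : C1_pa_intSt)
    {n p : ℕ} [Fact p.Prime] (hn : 1 ≤ n) (hp2 : 10 * n < p ^ 2) (q : ℕ) (α β : ℚ) (hα : QI q α)
    (hβ : QI q β) (E : ℚ[X]) (W : ℚ) (hW : 0 ≤ W) (A : ℕ → ℚ) (hA : ∀ k, 0 ≤ A k)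
    (hE : ∀ k ∈ sF n, PB p (p : ℚ) (A k) (TS (-(k : ℚ)) E))
    (hE1 : ∀ k ∈ sF n, PB p 1 1 (TS (-(k : ℚ)) E))
    (h : ∀ k ∈ sF n, (p : ℚ) ^ (2 - eF n p k) * A k ≤ W ∨
      (padicNorm p (cF n) ≤ W ∧ k < 2 * n + 1 + p ∧ ∀ k' ∈ sF n, k' ≠ k → ¬ (p : ℤ) ∣ (k' : ℤ) - k)) :
    padicNorm p ((q : ℚ) * xf n α β (PF n * E)) ≤ W := by
  have hpp : 0 < p := (Fact.out : p.Prime).pos
  have hp0 : (p : ℚ) ≠ 0 := by exact_mod_cast hpp.ne'
  have hp1 : (1 : ℚ) ≤ p := by exact_mod_cast hpp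
  have hpz : ∀ z : ℤ, (0 : ℚ) ≤ (p : ℚ) ^ z := fun z => zpow_nonneg (by positivity) z
  have key : ∀ i j : ℕ, j ≤ i + 2 → ∀ k ∈ sF n,
      padicNorm p (pa (sF n) mF (PF n * E) k i) ≤ W ∧
      padicNorm p (pa (sF n) mF (PF n * E) k i) * padicNorm p (hs j (k - 2 * n - 1)) ≤ W := by
    intro i j hij k hk
    have hkI := Finset.mem_Icc.1 hk
    rcases h k hk with h3 | ⟨hc, hlt, h4⟩
    · have hpa := hC1 hn hp2 E hk (A k) (hA k) (hE k hk) i
      constructor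
      · refine hpa.trans (le_trans ?_ h3)
        apply mul_le_mul_of_nonneg_right _ (hA k)
        apply zpow_le_zpow_right₀ hp1
        have : (0 : ℤ) ≤ i := by positivity
        linarith
      · have h4 := hs_norm_med (p := p) j (k - 2 * n - 1) (by omega)
        refine (mul_le_mul hpa h4 (padicNorm.nonneg _)
          (mul_nonneg (hpz _) (hA k))).trans (le_trans ?_ h3)
        rw [← zpow_natCast (p : ℚ) j, mul_right_comm, ← zpow_add₀ hp0]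
        apply mul_le_mul_of_nonneg_right _ (hA k)
        apply zpow_le_zpow_right₀ hp1
        have : (j : ℤ) ≤ i + 2 := by exact_mod_cast hij
        linarith
    · have hpa : padicNorm p (pa (sF n) mF (PF n * E) k i) ≤ W := by
        refine (hC1i hn E hk 1 zero_le_one (hE1 k hk) i h4).trans ?_
        rw [mul_one]
        exact hc
      refine ⟨hpa, ?_⟩
      have h5 := hs_norm_small (p := p) j (k - 2 * n - 1) (by omega)
      calc _ ≤ W * 1 := mul_le_mul hpa h5 (padicNorm.nonneg _) hW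
        _ = W := mul_one W
  have hnat : ∀ m : ℕ, padicNorm p (m : ℚ) ≤ 1 := fun m => padicNorm.of_nat m
  have h6 : padicNorm p (6 : ℚ) ≤ 1 := by exact_mod_cast hnat 6
  have h2 : padicNorm p (2 : ℚ) ≤ 1 := by exact_mod_cast hnat 2
  have h3 : padicNorm p (3 : ℚ) ≤ 1 := by exact_mod_cast hnat 3
  have e : (q : ℚ) * xf n α β (PF n * E) = (6 * ((q : ℚ) * α)) * rho n (PF n * E) -
      ((q : ℚ) * h4 n (PF n * E) - ((q : ℚ) * β) * Pool.Agent.ZF.h3 n (PF n * E)) := by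
    unfold xf
    ring
  rw [e]
  refine padicNorm.sub.trans (max_le ?_ (padicNorm.sub.trans (max_le ?_ ?_)))
  · refine C2_mul1 (C2_mul1 h6 (C2_int hα)) ?_
    unfold rho
    apply padicNorm.sum_le' _ hW
    intro k hk
    exact (key 2 0 (by omega) k hk).1
  · refine C2_mul1 (hnat q) ?_
    unfold h4
    apply padicNorm.sum_le' _ hW
    intro k hk
    exact C2_term h6 h2 (key 2 4 (by omega) k hk).2 (key 1 3 (by omega) k hk).2
  · refine C2_mul1 (C2_int hβ) ?_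
    unfold Pool.Agent.ZF.h3
    apply padicNorm.sum_le' _ hW
    intro k hk
    exact C2_term h6 h3 (key 2 3 (by omega) k hk).2 (key 1 2 (by omega) k hk).2

end

end Pool.Agent.ZF
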