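import Pool.Agent.H387R3.ZF.C1
import Pool.Agent.H387R3.ZF.C2pre

/-!
Task C2: p-adic size of the linear form for medium and large primes.
-/

open Polynomial Pool.Agent.H337R2

namespace Pool.Agent.ZF

noncomputable section

theorem C2_xf {n p : ℕ} [Fact p.Prime] (hn : 1 ≤ n) (hp2 : 10 * n < p ^ 2) (q : ℕ) (α β : ℚ) (hα : QI q α)
    (hβ : QI q β) (E : ℚ[X]) (W : ℚ) (hW : 0 ≤ W) (A : ℕ → ℚ) (hA : ∀ k, 0 ≤ A k)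
    (hE : ∀ k ∈ sF n, PB p (p : ℚ) (A k) (TS (-(k : ℚ)) E))
    (hE1 : ∀ k ∈ sF n, PB p 1 1 (TS (-(k : ℚ)) E))
    (h : ∀ k ∈ sF n, (p : ℚ) ^ (2 - eF n p k) * A k ≤ W ∨
      (padicNorm p (cF n) ≤ W ∧ k < 2 * n + 1 + p ∧ ∀ k' ∈ sF n, k' ≠ k → ¬ (p : ℤ) ∣ (k' : ℤ) - k)) :
    padicNorm p ((q : ℚ) * xf n α β (PF n * E)) ≤ W :=
  C2_xf' (fun hn hp2 E _ hk A hA hE i => C1_pa hn hp2 E hk A hA hE i)
    (fun hn E _ hk A hA hE i hno => C1_pa_int hn E hk A hA hE i hno)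
    hn hp2 q α β hα hβ E W hW A hA hE hE1 h

end

end Pool.Agent.ZF
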