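import Pool.Agent.H387R3.ZF.Defs

/-!
# The cells: `(1/40, 10]` is cut at all fractions `d/k` with `d ∈ {1,2,3,4,7,8,10}` and at `9/2, 11/2, 19/3`
-/

namespace Pool.Agent.ZF

def cellsP0 : List Cell := [
⟨1, 40, 10, 399, true, -318, [10, 3, 2]⟩,
⟨10, 399, 8, 319, true, -318, [3, 2, 10]⟩,
⟨8, 319, 7, 279, true, -318, [3, 10, 2]⟩,
⟨7, 279, 5, 199, true, -316, [10, 3, 2]⟩,
⟨5, 199, 4, 159, true, -316, [3, 2, 10]⟩,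
⟨4, 159, 7, 278, true, -316, [3, 10, 2]⟩,
⟨7, 278, 10, 397, true, -314, [10, 3, 2]⟩,
⟨10, 397, 3, 119, true, -314, [3, 2, 10]⟩,
⟨3, 119, 8, 317, true, -314, [2, 10, 3]⟩,
⟨8, 317, 5, 198, true, -314, [10, 2, 3]⟩,
⟨5, 198, 7, 277, true, -314, [2, 3, 10]⟩,
⟨7, 277, 2, 79, true, -312, [2, 10, 3]⟩,
⟨2, 79, 7, 276, true, -315, [3, 10, 2]⟩,
⟨7, 276, 5, 197, true, -313, [10, 3, 2]⟩,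
⟨5, 197, 8, 315, true, -313, [3, 2, 10]⟩,
⟨8, 315, 3, 118, true, -313, [3, 10, 2]⟩,
⟨3, 118, 10, 393, true, -313, [10, 2, 3]⟩,
⟨10, 393, 7, 275, true, -313, [2, 3, 10]⟩,
⟨7, 275, 4, 157, true, -311, [2, 10, 3]⟩,
⟨4, 157, 5, 196, true, -311, [10, 2, 3]⟩,
⟨5, 196, 7, 274, true, -311, [2, 3, 10]⟩,
⟨7, 274, 8, 313, true, -309, [2, 10, 3]⟩,
⟨8, 313, 10, 391, true, -309, [10, 2, 3]⟩,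
⟨10, 391, 1, 39, true, -309, [2, 3, 10]⟩,
⟨1, 39, 10, 389, true, -310, [10, 3, 2]⟩,
⟨10, 389, 8, 311, true, -310, [3, 2, 10]⟩,
⟨8, 311, 7, 272, true, -310, [3, 10, 2]⟩,
⟨7, 272, 5, 194, true, -308, [10, 3, 2]⟩,
⟨5, 194, 4, 155, true, -308, [3, 2, 10]⟩,
⟨4, 155, 7, 271, true, -308, [3, 10, 2]⟩,
⟨7, 271, 10, 387, true, -306, [10, 3, 2]⟩,
⟨10, 387, 3, 116, true, -306, [3, 2, 10]⟩,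
⟨3, 116, 8, 309, true, -306, [2, 10, 3]⟩,
⟨8, 309, 5, 193, true, -306, [10, 2, 3]⟩,
⟨5, 193, 7, 270, true, -306, [2, 3, 10]⟩,
⟨7, 270, 2, 77, true, -304, [2, 10, 3]⟩,
⟨2, 77, 7, 269, true, -307, [3, 10, 2]⟩,
⟨7, 269, 5, 192, true, -305, [10, 3, 2]⟩,
⟨5, 192, 8, 307, true, -305, [3, 2, 10]⟩,
⟨8, 307, 3, 115, true, -305, [3, 10, 2]⟩,
⟨3, 115, 10, 383, true, -305, [10, 2, 3]⟩,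
⟨10, 383, 7, 268, true, -305, [2, 3, 10]⟩,
⟨7, 268, 4, 153, true, -303, [2, 10, 3]⟩,
⟨4, 153, 5, 191, true, -303, [10, 2, 3]⟩,
⟨5, 191, 7, 267, true, -303, [2, 3, 10]⟩,
⟨7, 267, 8, 305, true, -301, [2, 10, 3]⟩,
⟨8, 305, 10, 381, true, -301, [10, 2, 3]⟩,
⟨10, 381, 1, 38, true, -301, [2, 3, 10]⟩,
⟨1, 38, 10, 379, true, -302, [10, 3, 2]⟩,
⟨10, 379, 8, 303, true, -302, [3, 2, 10]⟩,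
⟨8, 303, 7, 265, true, -302, [3, 10, 2]⟩,
⟨7, 265, 5, 189, true, -300, [10, 3, 2]⟩,
⟨5, 189, 4, 151, true, -300, [3, 2, 10]⟩,
⟨4, 151, 7, 264, true, -300, [3, 10, 2]⟩,
⟨7, 264, 10, 377, true, -298, [10, 3, 2]⟩,
⟨10, 377, 3, 113, true, -298, [3, 2, 10]⟩,
⟨3, 113, 8, 301, true, -298, [2, 10, 3]⟩,
⟨8, 301, 5, 188, true, -298, [10, 2, 3]⟩,
⟨5, 188, 7, 263, true, -298, [2, 3, 10]⟩,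
⟨7, 263, 2, 75, true, -296, [2, 10, 3]⟩,
⟨2, 75, 7, 262, true, -299, [3, 10, 2]⟩,
⟨7, 262, 5, 187, true, -297, [10, 3, 2]⟩,
⟨5, 187, 8, 299, true, -297, [3, 2, 10]⟩,
⟨8, 299, 3, 112, true, -297, [3, 10, 2]⟩,
⟨3, 112, 10, 373, true, -297, [10, 2, 3]⟩,
⟨10, 373, 7, 261, true, -297, [2, 3, 10]⟩,
⟨7, 261, 4, 149, true, -295, [2, 10, 3]⟩,
⟨4, 149, 5, 186, true, -295, [10, 2, 3]⟩,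
⟨5, 186, 7, 260, true, -295, [2, 3, 10]⟩,
⟨7, 260, 8, 297, true, -293, [2, 10, 3]⟩,
⟨8, 297, 10, 371, true, -293, [10, 2, 3]⟩,
⟨10, 371, 1, 37, true, -293, [2, 3, 10]⟩,
⟨1, 37, 10, 369, true, -294, [10, 3, 2]⟩,
⟨10, 369, 8, 295, true, -294, [3, 2, 10]⟩,
⟨8, 295, 7, 258, true, -294, [3, 10, 2]⟩,
⟨7, 258, 5, 184, true, -292, [10, 3, 2]⟩,
⟨5, 184, 4, 147, true, -292, [3, 2, 10]⟩,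
⟨4, 147, 7, 257, true, -292, [3, 10, 2]⟩,
⟨7, 257, 10, 367, true, -290, [10, 3, 2]⟩,
⟨10, 367, 3, 110, true, -290, [3, 2, 10]⟩,
⟨3, 110, 8, 293, true, -290, [2, 10, 3]⟩,
⟨8, 293, 5, 183, true, -290, [10, 2, 3]⟩,
⟨5, 183, 7, 256, true, -290, [2, 3, 10]⟩,
⟨7, 256, 2, 73, true, -288, [2, 10, 3]⟩,
⟨2, 73, 7, 255, true, -291, [3, 10, 2]⟩,
⟨7, 255, 5, 182, true, -289, [10, 3, 2]⟩,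
⟨5, 182, 8, 291, true, -289, [3, 2, 10]⟩,
⟨8, 291, 3, 109, true, -289, [3, 10, 2]⟩,
⟨3, 109, 10, 363, true, -289, [10, 2, 3]⟩,
⟨10, 363, 7, 254, true, -289, [2, 3, 10]⟩,
⟨7, 254, 4, 145, true, -287, [2, 10, 3]⟩,
⟨4, 145, 5, 181, true, -287, [10, 2, 3]⟩,
⟨5, 181, 7, 253, true, -287, [2, 3, 10]⟩,
⟨7, 253, 8, 289, true, -285, [2, 10, 3]⟩,
⟨8, 289, 10, 361, true, -285, [10, 2, 3]⟩,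
⟨10, 361, 1, 36, true, -285, [2, 3, 10]⟩,
⟨1, 36, 10, 359, true, -286, [10, 3, 2]⟩,
⟨10, 359, 8, 287, true, -286, [3, 2, 10]⟩,
⟨8, 287, 7, 251, true, -286, [3, 10, 2]⟩,
⟨7, 251, 5, 179, true, -284, [10, 3, 2]⟩]

def cellsP1 : List Cell := [
⟨5, 179, 4, 143, true, -284, [3, 2, 10]⟩,
⟨4, 143, 7, 250, true, -284, [3, 10, 2]⟩,
⟨7, 250, 10, 357, true, -282, [10, 3, 2]⟩,
⟨10, 357, 3, 107, true, -282, [3, 2, 10]⟩,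
⟨3, 107, 8, 285, true, -282, [2, 10, 3]⟩,
⟨8, 285, 5, 178, true, -282, [10, 2, 3]⟩,
⟨5, 178, 7, 249, true, -282, [2, 3, 10]⟩,
⟨7, 249, 2, 71, true, -280, [2, 10, 3]⟩,
⟨2, 71, 7, 248, true, -283, [3, 10, 2]⟩,
⟨7, 248, 5, 177, true, -281, [10, 3, 2]⟩,
⟨5, 177, 8, 283, true, -281, [3, 2, 10]⟩,
⟨8, 283, 3, 106, true, -281, [3, 10, 2]⟩,
⟨3, 106, 10, 353, true, -281, [10, 2, 3]⟩,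
⟨10, 353, 7, 247, true, -281, [2, 3, 10]⟩,
⟨7, 247, 4, 141, true, -279, [2, 10, 3]⟩,
⟨4, 141, 5, 176, true, -279, [10, 2, 3]⟩,
⟨5, 176, 7, 246, true, -279, [2, 3, 10]⟩,
⟨7, 246, 8, 281, true, -277, [2, 10, 3]⟩,
⟨8, 281, 10, 351, true, -277, [10, 2, 3]⟩,
⟨10, 351, 1, 35, true, -277, [2, 3, 10]⟩,
⟨1, 35, 10, 349, true, -278, [10, 3, 2]⟩,
⟨10, 349, 8, 279, true, -278, [3, 2, 10]⟩,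
⟨8, 279, 7, 244, true, -278, [3, 10, 2]⟩,
⟨7, 244, 5, 174, true, -276, [10, 3, 2]⟩,
⟨5, 174, 4, 139, true, -276, [3, 2, 10]⟩,
⟨4, 139, 7, 243, true, -276, [3, 10, 2]⟩,
⟨7, 243, 10, 347, true, -274, [10, 3, 2]⟩,
⟨10, 347, 3, 104, true, -274, [3, 2, 10]⟩,
⟨3, 104, 8, 277, true, -274, [2, 10, 3]⟩,
⟨8, 277, 5, 173, true, -274, [10, 2, 3]⟩,
⟨5, 173, 7, 242, true, -274, [2, 3, 10]⟩,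
⟨7, 242, 2, 69, true, -272, [2, 10, 3]⟩,
⟨2, 69, 7, 241, true, -275, [3, 10, 2]⟩,
⟨7, 241, 5, 172, true, -273, [10, 3, 2]⟩,
⟨5, 172, 8, 275, true, -273, [3, 2, 10]⟩,
⟨8, 275, 3, 103, true, -273, [3, 10, 2]⟩,
⟨3, 103, 10, 343, true, -273, [10, 2, 3]⟩,
⟨10, 343, 7, 240, true, -273, [2, 3, 10]⟩,
⟨7, 240, 4, 137, true, -271, [2, 10, 3]⟩,
⟨4, 137, 5, 171, true, -271, [10, 2, 3]⟩,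
⟨5, 171, 7, 239, true, -271, [2, 3, 10]⟩,
⟨7, 239, 8, 273, true, -269, [2, 10, 3]⟩,
⟨8, 273, 10, 341, true, -269, [10, 2, 3]⟩,
⟨10, 341, 1, 34, true, -269, [2, 3, 10]⟩,
⟨1, 34, 10, 339, true, -270, [10, 3, 2]⟩,
⟨10, 339, 8, 271, true, -270, [3, 2, 10]⟩,
⟨8, 271, 7, 237, true, -270, [3, 10, 2]⟩,
⟨7, 237, 5, 169, true, -268, [10, 3, 2]⟩,
⟨5, 169, 4, 135, true, -268, [3, 2, 10]⟩,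
⟨4, 135, 7, 236, true, -268, [3, 10, 2]⟩,
⟨7, 236, 10, 337, true, -266, [10, 3, 2]⟩,
⟨10, 337, 3, 101, true, -266, [3, 2, 10]⟩,
⟨3, 101, 8, 269, true, -266, [2, 10, 3]⟩,
⟨8, 269, 5, 168, true, -266, [10, 2, 3]⟩,
⟨5, 168, 7, 235, true, -266, [2, 3, 10]⟩,
⟨7, 235, 2, 67, true, -264, [2, 10, 3]⟩,
⟨2, 67, 7, 234, true, -267, [3, 10, 2]⟩,
⟨7, 234, 5, 167, true, -265, [10, 3, 2]⟩,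
⟨5, 167, 8, 267, true, -265, [3, 2, 10]⟩,
⟨8, 267, 3, 100, true, -265, [3, 10, 2]⟩,
⟨3, 100, 10, 333, true, -265, [10, 2, 3]⟩,
⟨10, 333, 7, 233, true, -265, [2, 3, 10]⟩,
⟨7, 233, 4, 133, true, -263, [2, 10, 3]⟩,
⟨4, 133, 5, 166, true, -263, [10, 2, 3]⟩,
⟨5, 166, 7, 232, true, -263, [2, 3, 10]⟩,
⟨7, 232, 8, 265, true, -261, [2, 10, 3]⟩,
⟨8, 265, 10, 331, true, -261, [10, 2, 3]⟩,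
⟨10, 331, 1, 33, true, -261, [2, 3, 10]⟩,
⟨1, 33, 10, 329, true, -262, [10, 3, 2]⟩,
⟨10, 329, 8, 263, true, -262, [3, 2, 10]⟩,
⟨8, 263, 7, 230, true, -262, [3, 10, 2]⟩,
⟨7, 230, 5, 164, true, -260, [10, 3, 2]⟩,
⟨5, 164, 4, 131, true, -260, [3, 2, 10]⟩,
⟨4, 131, 7, 229, true, -260, [3, 10, 2]⟩,
⟨7, 229, 10, 327, true, -258, [10, 3, 2]⟩,
⟨10, 327, 3, 98, true, -258, [3, 2, 10]⟩,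
⟨3, 98, 8, 261, true, -258, [2, 10, 3]⟩,
⟨8, 261, 5, 163, true, -258, [10, 2, 3]⟩,
⟨5, 163, 7, 228, true, -258, [2, 3, 10]⟩,
⟨7, 228, 2, 65, true, -256, [2, 10, 3]⟩,
⟨2, 65, 7, 227, true, -259, [3, 10, 2]⟩,
⟨7, 227, 5, 162, true, -257, [10, 3, 2]⟩,
⟨5, 162, 8, 259, true, -257, [3, 2, 10]⟩,
⟨8, 259, 3, 97, true, -257, [3, 10, 2]⟩,
⟨3, 97, 10, 323, true, -257, [10, 2, 3]⟩,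
⟨10, 323, 7, 226, true, -257, [2, 3, 10]⟩,
⟨7, 226, 4, 129, true, -255, [2, 10, 3]⟩,
⟨4, 129, 5, 161, true, -255, [10, 2, 3]⟩,
⟨5, 161, 7, 225, true, -255, [2, 3, 10]⟩,
⟨7, 225, 8, 257, true, -253, [2, 10, 3]⟩,
⟨8, 257, 10, 321, true, -253, [10, 2, 3]⟩,
⟨10, 321, 1, 32, true, -253, [2, 3, 10]⟩,
⟨1, 32, 10, 319, true, -254, [10, 3, 2]⟩,
⟨10, 319, 8, 255, true, -254, [3, 2, 10]⟩,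
⟨8, 255, 7, 223, true, -254, [3, 10, 2]⟩,
⟨7, 223, 5, 159, true, -252, [10, 3, 2]⟩,
⟨5, 159, 4, 127, true, -252, [3, 2, 10]⟩,
⟨4, 127, 7, 222, true, -252, [3, 10, 2]⟩,
⟨7, 222, 10, 317, true, -250, [10, 3, 2]⟩,
⟨10, 317, 3, 95, true, -250, [3, 2, 10]⟩]

def cellsP2 : List Cell := [
⟨3, 95, 8, 253, true, -250, [2, 10, 3]⟩,
⟨8, 253, 5, 158, true, -250, [10, 2, 3]⟩,
⟨5, 158, 7, 221, true, -250, [2, 3, 10]⟩,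
⟨7, 221, 2, 63, true, -248, [2, 10, 3]⟩,
⟨2, 63, 7, 220, true, -251, [3, 10, 2]⟩,
⟨7, 220, 5, 157, true, -249, [10, 3, 2]⟩,
⟨5, 157, 8, 251, true, -249, [3, 2, 10]⟩,
⟨8, 251, 3, 94, true, -249, [3, 10, 2]⟩,
⟨3, 94, 10, 313, true, -249, [10, 2, 3]⟩,
⟨10, 313, 7, 219, true, -249, [2, 3, 10]⟩,
⟨7, 219, 4, 125, true, -247, [2, 10, 3]⟩,
⟨4, 125, 5, 156, true, -247, [10, 2, 3]⟩,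
⟨5, 156, 7, 218, true, -247, [2, 3, 10]⟩,
⟨7, 218, 8, 249, true, -245, [2, 10, 3]⟩,
⟨8, 249, 10, 311, true, -245, [10, 2, 3]⟩,
⟨10, 311, 1, 31, true, -245, [2, 3, 10]⟩,
⟨1, 31, 10, 309, true, -246, [10, 3, 2]⟩,
⟨10, 309, 8, 247, true, -246, [3, 2, 10]⟩,
⟨8, 247, 7, 216, true, -246, [3, 10, 2]⟩,
⟨7, 216, 5, 154, true, -244, [10, 3, 2]⟩,
⟨5, 154, 4, 123, true, -244, [3, 2, 10]⟩,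
⟨4, 123, 7, 215, true, -244, [3, 10, 2]⟩,
⟨7, 215, 10, 307, true, -242, [10, 3, 2]⟩,
⟨10, 307, 3, 92, true, -242, [3, 2, 10]⟩,
⟨3, 92, 8, 245, true, -242, [2, 10, 3]⟩,
⟨8, 245, 5, 153, true, -242, [10, 2, 3]⟩,
⟨5, 153, 7, 214, true, -242, [2, 3, 10]⟩,
⟨7, 214, 2, 61, true, -240, [2, 10, 3]⟩,
⟨2, 61, 7, 213, true, -243, [3, 10, 2]⟩,
⟨7, 213, 5, 152, true, -241, [10, 3, 2]⟩,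
⟨5, 152, 8, 243, true, -241, [3, 2, 10]⟩,
⟨8, 243, 3, 91, true, -241, [3, 10, 2]⟩,
⟨3, 91, 10, 303, true, -241, [10, 2, 3]⟩,
⟨10, 303, 7, 212, true, -241, [2, 3, 10]⟩,
⟨7, 212, 4, 121, true, -239, [2, 10, 3]⟩,
⟨4, 121, 5, 151, true, -239, [10, 2, 3]⟩,
⟨5, 151, 7, 211, true, -239, [2, 3, 10]⟩,
⟨7, 211, 8, 241, true, -237, [2, 10, 3]⟩,
⟨8, 241, 10, 301, true, -237, [10, 2, 3]⟩,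
⟨10, 301, 1, 30, true, -237, [2, 3, 10]⟩,
⟨1, 30, 10, 299, true, -238, [10, 3, 2]⟩,
⟨10, 299, 8, 239, true, -238, [3, 2, 10]⟩,
⟨8, 239, 7, 209, true, -238, [3, 10, 2]⟩,
⟨7, 209, 5, 149, true, -236, [10, 3, 2]⟩,
⟨5, 149, 4, 119, true, -236, [3, 2, 10]⟩,
⟨4, 119, 7, 208, true, -236, [3, 10, 2]⟩,
⟨7, 208, 10, 297, true, -234, [10, 3, 2]⟩,
⟨10, 297, 3, 89, true, -234, [3, 2, 10]⟩,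
⟨3, 89, 8, 237, true, -234, [2, 10, 3]⟩,
⟨8, 237, 5, 148, true, -234, [10, 2, 3]⟩,
⟨5, 148, 7, 207, true, -234, [2, 3, 10]⟩,
⟨7, 207, 2, 59, true, -232, [2, 10, 3]⟩,
⟨2, 59, 7, 206, true, -235, [3, 10, 2]⟩,
⟨7, 206, 5, 147, true, -233, [10, 3, 2]⟩,
⟨5, 147, 8, 235, true, -233, [3, 2, 10]⟩,
⟨8, 235, 3, 88, true, -233, [3, 10, 2]⟩,
⟨3, 88, 10, 293, true, -233, [10, 2, 3]⟩,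
⟨10, 293, 7, 205, true, -233, [2, 3, 10]⟩,
⟨7, 205, 4, 117, true, -231, [2, 10, 3]⟩,
⟨4, 117, 5, 146, true, -231, [10, 2, 3]⟩,
⟨5, 146, 7, 204, true, -231, [2, 3, 10]⟩,
⟨7, 204, 8, 233, true, -229, [2, 10, 3]⟩,
⟨8, 233, 10, 291, true, -229, [10, 2, 3]⟩,
⟨10, 291, 1, 29, true, -229, [2, 3, 10]⟩,
⟨1, 29, 10, 289, true, -230, [10, 3, 2]⟩,
⟨10, 289, 8, 231, true, -230, [3, 2, 10]⟩,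
⟨8, 231, 7, 202, true, -230, [3, 10, 2]⟩,
⟨7, 202, 5, 144, true, -228, [10, 3, 2]⟩,
⟨5, 144, 4, 115, true, -228, [3, 2, 10]⟩,
⟨4, 115, 7, 201, true, -228, [3, 10, 2]⟩,
⟨7, 201, 10, 287, true, -226, [10, 3, 2]⟩,
⟨10, 287, 3, 86, true, -226, [3, 2, 10]⟩,
⟨3, 86, 8, 229, true, -226, [2, 10, 3]⟩,
⟨8, 229, 5, 143, true, -226, [10, 2, 3]⟩,
⟨5, 143, 7, 200, true, -226, [2, 3, 10]⟩,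
⟨7, 200, 2, 57, true, -224, [2, 10, 3]⟩,
⟨2, 57, 7, 199, true, -227, [3, 10, 2]⟩,
⟨7, 199, 5, 142, true, -225, [10, 3, 2]⟩,
⟨5, 142, 8, 227, true, -225, [3, 2, 10]⟩,
⟨8, 227, 3, 85, true, -225, [3, 10, 2]⟩,
⟨3, 85, 10, 283, true, -225, [10, 2, 3]⟩,
⟨10, 283, 7, 198, true, -225, [2, 3, 10]⟩,
⟨7, 198, 4, 113, true, -223, [2, 10, 3]⟩,
⟨4, 113, 5, 141, true, -223, [10, 2, 3]⟩,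
⟨5, 141, 7, 197, true, -223, [2, 3, 10]⟩,
⟨7, 197, 8, 225, true, -221, [2, 10, 3]⟩,
⟨8, 225, 10, 281, true, -221, [10, 2, 3]⟩,
⟨10, 281, 1, 28, true, -221, [2, 3, 10]⟩,
⟨1, 28, 10, 279, true, -222, [10, 3, 2]⟩,
⟨10, 279, 8, 223, true, -222, [3, 2, 10]⟩,
⟨8, 223, 7, 195, true, -222, [3, 10, 2]⟩,
⟨7, 195, 5, 139, true, -220, [10, 3, 2]⟩,
⟨5, 139, 4, 111, true, -220, [3, 2, 10]⟩,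
⟨4, 111, 7, 194, true, -220, [3, 10, 2]⟩,
⟨7, 194, 10, 277, true, -218, [10, 3, 2]⟩,
⟨10, 277, 3, 83, true, -218, [3, 2, 10]⟩,
⟨3, 83, 8, 221, true, -218, [2, 10, 3]⟩,
⟨8, 221, 5, 138, true, -218, [10, 2, 3]⟩,
⟨5, 138, 7, 193, true, -218, [2, 3, 10]⟩,
⟨7, 193, 2, 55, true, -216, [2, 10, 3]⟩]

def cellsP3 : List Cell := [
⟨2, 55, 7, 192, true, -219, [3, 10, 2]⟩,
⟨7, 192, 5, 137, true, -217, [10, 3, 2]⟩,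
⟨5, 137, 8, 219, true, -217, [3, 2, 10]⟩,
⟨8, 219, 3, 82, true, -217, [3, 10, 2]⟩,
⟨3, 82, 10, 273, true, -217, [10, 2, 3]⟩,
⟨10, 273, 7, 191, true, -217, [2, 3, 10]⟩,
⟨7, 191, 4, 109, true, -215, [2, 10, 3]⟩,
⟨4, 109, 5, 136, true, -215, [10, 2, 3]⟩,
⟨5, 136, 7, 190, true, -215, [2, 3, 10]⟩,
⟨7, 190, 8, 217, true, -213, [2, 10, 3]⟩,
⟨8, 217, 10, 271, true, -213, [10, 2, 3]⟩,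
⟨10, 271, 1, 27, true, -213, [2, 3, 10]⟩,
⟨1, 27, 10, 269, true, -214, [10, 3, 2]⟩,
⟨10, 269, 8, 215, true, -214, [3, 2, 10]⟩,
⟨8, 215, 7, 188, true, -214, [3, 10, 2]⟩,
⟨7, 188, 5, 134, true, -212, [10, 3, 2]⟩,
⟨5, 134, 4, 107, true, -212, [3, 2, 10]⟩,
⟨4, 107, 7, 187, true, -212, [3, 10, 2]⟩,
⟨7, 187, 10, 267, true, -210, [10, 3, 2]⟩,
⟨10, 267, 3, 80, true, -210, [3, 2, 10]⟩,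
⟨3, 80, 8, 213, true, -210, [2, 10, 3]⟩,
⟨8, 213, 5, 133, true, -210, [10, 2, 3]⟩,
⟨5, 133, 7, 186, true, -210, [2, 3, 10]⟩,
⟨7, 186, 2, 53, true, -208, [2, 10, 3]⟩,
⟨2, 53, 7, 185, true, -211, [3, 10, 2]⟩,
⟨7, 185, 5, 132, true, -209, [10, 3, 2]⟩,
⟨5, 132, 8, 211, true, -209, [3, 2, 10]⟩,
⟨8, 211, 3, 79, true, -209, [3, 10, 2]⟩,
⟨3, 79, 10, 263, true, -209, [10, 2, 3]⟩,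
⟨10, 263, 7, 184, true, -209, [2, 3, 10]⟩,
⟨7, 184, 4, 105, true, -207, [2, 10, 3]⟩,
⟨4, 105, 5, 131, true, -207, [10, 2, 3]⟩,
⟨5, 131, 7, 183, true, -207, [2, 3, 10]⟩,
⟨7, 183, 8, 209, true, -205, [2, 10, 3]⟩,
⟨8, 209, 10, 261, true, -205, [10, 2, 3]⟩,
⟨10, 261, 1, 26, true, -205, [2, 3, 10]⟩,
⟨1, 26, 10, 259, true, -206, [10, 3, 2]⟩,
⟨10, 259, 8, 207, true, -206, [3, 2, 10]⟩,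
⟨8, 207, 7, 181, true, -206, [3, 10, 2]⟩,
⟨7, 181, 5, 129, true, -204, [10, 3, 2]⟩,
⟨5, 129, 4, 103, true, -204, [3, 2, 10]⟩,
⟨4, 103, 7, 180, true, -204, [3, 10, 2]⟩,
⟨7, 180, 10, 257, true, -202, [10, 3, 2]⟩,
⟨10, 257, 3, 77, true, -202, [3, 2, 10]⟩,
⟨3, 77, 8, 205, true, -202, [2, 10, 3]⟩,
⟨8, 205, 5, 128, true, -202, [10, 2, 3]⟩,
⟨5, 128, 7, 179, true, -202, [2, 3, 10]⟩,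
⟨7, 179, 2, 51, true, -200, [2, 10, 3]⟩,
⟨2, 51, 7, 178, true, -203, [3, 10, 2]⟩,
⟨7, 178, 5, 127, true, -201, [10, 3, 2]⟩,
⟨5, 127, 8, 203, true, -201, [3, 2, 10]⟩,
⟨8, 203, 3, 76, true, -201, [3, 10, 2]⟩,
⟨3, 76, 10, 253, true, -201, [10, 2, 3]⟩,
⟨10, 253, 7, 177, true, -201, [2, 3, 10]⟩,
⟨7, 177, 4, 101, true, -199, [2, 10, 3]⟩,
⟨4, 101, 5, 126, true, -199, [10, 2, 3]⟩,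
⟨5, 126, 7, 176, true, -199, [2, 3, 10]⟩,
⟨7, 176, 8, 201, true, -197, [2, 10, 3]⟩,
⟨8, 201, 10, 251, true, -197, [10, 2, 3]⟩,
⟨10, 251, 1, 25, true, -197, [2, 3, 10]⟩,
⟨1, 25, 10, 249, true, -198, [10, 3, 2]⟩,
⟨10, 249, 8, 199, true, -198, [3, 2, 10]⟩,
⟨8, 199, 7, 174, true, -198, [3, 10, 2]⟩,
⟨7, 174, 5, 124, true, -196, [10, 3, 2]⟩,
⟨5, 124, 4, 99, true, -196, [3, 2, 10]⟩,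
⟨4, 99, 7, 173, true, -196, [3, 10, 2]⟩,
⟨7, 173, 10, 247, true, -194, [10, 3, 2]⟩,
⟨10, 247, 3, 74, true, -194, [3, 2, 10]⟩,
⟨3, 74, 8, 197, true, -194, [2, 10, 3]⟩,
⟨8, 197, 5, 123, true, -194, [10, 2, 3]⟩,
⟨5, 123, 7, 172, true, -194, [2, 3, 10]⟩,
⟨7, 172, 2, 49, true, -192, [2, 10, 3]⟩,
⟨2, 49, 7, 171, true, -195, [3, 10, 2]⟩,
⟨7, 171, 5, 122, true, -193, [10, 3, 2]⟩,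
⟨5, 122, 8, 195, true, -193, [3, 2, 10]⟩,
⟨8, 195, 3, 73, true, -193, [3, 10, 2]⟩,
⟨3, 73, 10, 243, true, -193, [10, 2, 3]⟩,
⟨10, 243, 7, 170, true, -193, [2, 3, 10]⟩,
⟨7, 170, 4, 97, true, -191, [2, 10, 3]⟩,
⟨4, 97, 5, 121, true, -191, [10, 2, 3]⟩,
⟨5, 121, 7, 169, true, -191, [2, 3, 10]⟩,
⟨7, 169, 8, 193, true, -189, [2, 10, 3]⟩,
⟨8, 193, 10, 241, true, -189, [10, 2, 3]⟩,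
⟨10, 241, 1, 24, true, -189, [2, 3, 10]⟩,
⟨1, 24, 10, 239, true, -190, [10, 3, 2]⟩,
⟨10, 239, 8, 191, true, -190, [3, 2, 10]⟩,
⟨8, 191, 7, 167, true, -190, [3, 10, 2]⟩,
⟨7, 167, 5, 119, true, -188, [10, 3, 2]⟩,
⟨5, 119, 4, 95, true, -188, [3, 2, 10]⟩,
⟨4, 95, 7, 166, true, -188, [3, 10, 2]⟩,
⟨7, 166, 10, 237, true, -186, [10, 3, 2]⟩,
⟨10, 237, 3, 71, true, -186, [3, 2, 10]⟩,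
⟨3, 71, 8, 189, true, -186, [2, 10, 3]⟩,
⟨8, 189, 5, 118, true, -186, [10, 2, 3]⟩,
⟨5, 118, 7, 165, true, -186, [2, 3, 10]⟩,
⟨7, 165, 2, 47, true, -184, [2, 10, 3]⟩,
⟨2, 47, 7, 164, true, -187, [3, 10, 2]⟩,
⟨7, 164, 5, 117, true, -185, [10, 3, 2]⟩,
⟨5, 117, 8, 187, true, -185, [3, 2, 10]⟩,
⟨8, 187, 3, 70, true, -185, [3, 10, 2]⟩]

def cellsP4 : List Cell := [
⟨3, 70, 10, 233, true, -185, [10, 2, 3]⟩,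
⟨10, 233, 7, 163, true, -185, [2, 3, 10]⟩,
⟨7, 163, 4, 93, true, -183, [2, 10, 3]⟩,
⟨4, 93, 5, 116, true, -183, [10, 2, 3]⟩,
⟨5, 116, 7, 162, true, -183, [2, 3, 10]⟩,
⟨7, 162, 8, 185, true, -181, [2, 10, 3]⟩,
⟨8, 185, 10, 231, true, -181, [10, 2, 3]⟩,
⟨10, 231, 1, 23, true, -181, [2, 3, 10]⟩,
⟨1, 23, 10, 229, true, -182, [10, 3, 2]⟩,
⟨10, 229, 8, 183, true, -182, [3, 2, 10]⟩,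
⟨8, 183, 7, 160, true, -182, [3, 10, 2]⟩,
⟨7, 160, 5, 114, true, -180, [10, 3, 2]⟩,
⟨5, 114, 4, 91, true, -180, [3, 2, 10]⟩,
⟨4, 91, 7, 159, true, -180, [3, 10, 2]⟩,
⟨7, 159, 10, 227, true, -178, [10, 3, 2]⟩,
⟨10, 227, 3, 68, true, -178, [3, 2, 10]⟩,
⟨3, 68, 8, 181, true, -178, [2, 10, 3]⟩,
⟨8, 181, 5, 113, true, -178, [10, 2, 3]⟩,
⟨5, 113, 7, 158, true, -178, [2, 3, 10]⟩,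
⟨7, 158, 2, 45, true, -176, [2, 10, 3]⟩,
⟨2, 45, 7, 157, true, -179, [3, 10, 2]⟩,
⟨7, 157, 5, 112, true, -177, [10, 3, 2]⟩,
⟨5, 112, 8, 179, true, -177, [3, 2, 10]⟩,
⟨8, 179, 3, 67, true, -177, [3, 10, 2]⟩,
⟨3, 67, 10, 223, true, -177, [10, 2, 3]⟩,
⟨10, 223, 7, 156, true, -177, [2, 3, 10]⟩,
⟨7, 156, 4, 89, true, -175, [2, 10, 3]⟩,
⟨4, 89, 5, 111, true, -175, [10, 2, 3]⟩,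
⟨5, 111, 7, 155, true, -175, [2, 3, 10]⟩,
⟨7, 155, 8, 177, true, -173, [2, 10, 3]⟩,
⟨8, 177, 10, 221, true, -173, [10, 2, 3]⟩,
⟨10, 221, 1, 22, true, -173, [2, 3, 10]⟩,
⟨1, 22, 10, 219, true, -174, [10, 3, 2]⟩,
⟨10, 219, 8, 175, true, -174, [3, 2, 10]⟩,
⟨8, 175, 7, 153, true, -174, [3, 10, 2]⟩,
⟨7, 153, 5, 109, true, -172, [10, 3, 2]⟩,
⟨5, 109, 4, 87, true, -172, [3, 2, 10]⟩,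
⟨4, 87, 7, 152, true, -172, [3, 10, 2]⟩,
⟨7, 152, 10, 217, true, -170, [10, 3, 2]⟩,
⟨10, 217, 3, 65, true, -170, [3, 2, 10]⟩,
⟨3, 65, 8, 173, true, -170, [2, 10, 3]⟩,
⟨8, 173, 5, 108, true, -170, [10, 2, 3]⟩,
⟨5, 108, 7, 151, true, -170, [2, 3, 10]⟩,
⟨7, 151, 2, 43, true, -168, [2, 10, 3]⟩,
⟨2, 43, 7, 150, true, -171, [3, 10, 2]⟩,
⟨7, 150, 5, 107, true, -169, [10, 3, 2]⟩,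
⟨5, 107, 8, 171, true, -169, [3, 2, 10]⟩,
⟨8, 171, 3, 64, true, -169, [3, 10, 2]⟩,
⟨3, 64, 10, 213, true, -169, [10, 2, 3]⟩,
⟨10, 213, 7, 149, true, -169, [2, 3, 10]⟩,
⟨7, 149, 4, 85, true, -167, [2, 10, 3]⟩,
⟨4, 85, 5, 106, true, -167, [10, 2, 3]⟩,
⟨5, 106, 7, 148, true, -167, [2, 3, 10]⟩,
⟨7, 148, 8, 169, true, -165, [2, 10, 3]⟩,
⟨8, 169, 10, 211, true, -165, [10, 2, 3]⟩,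
⟨10, 211, 1, 21, true, -165, [2, 3, 10]⟩,
⟨1, 21, 10, 209, true, -166, [10, 3, 2]⟩,
⟨10, 209, 8, 167, true, -166, [3, 2, 10]⟩,
⟨8, 167, 7, 146, true, -166, [3, 10, 2]⟩,
⟨7, 146, 5, 104, true, -164, [10, 3, 2]⟩,
⟨5, 104, 4, 83, true, -164, [3, 2, 10]⟩,
⟨4, 83, 7, 145, true, -164, [3, 10, 2]⟩,
⟨7, 145, 10, 207, true, -162, [10, 3, 2]⟩,
⟨10, 207, 3, 62, true, -162, [3, 2, 10]⟩,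
⟨3, 62, 8, 165, true, -162, [2, 10, 3]⟩,
⟨8, 165, 5, 103, true, -162, [10, 2, 3]⟩,
⟨5, 103, 7, 144, true, -162, [2, 3, 10]⟩,
⟨7, 144, 2, 41, true, -160, [2, 10, 3]⟩,
⟨2, 41, 7, 143, true, -163, [3, 10, 2]⟩,
⟨7, 143, 5, 102, true, -161, [10, 3, 2]⟩,
⟨5, 102, 8, 163, true, -161, [3, 2, 10]⟩,
⟨8, 163, 3, 61, true, -161, [3, 10, 2]⟩,
⟨3, 61, 10, 203, true, -161, [10, 2, 3]⟩,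
⟨10, 203, 7, 142, true, -161, [2, 3, 10]⟩,
⟨7, 142, 4, 81, true, -159, [2, 10, 3]⟩,
⟨4, 81, 5, 101, true, -159, [10, 2, 3]⟩,
⟨5, 101, 7, 141, true, -159, [2, 3, 10]⟩,
⟨7, 141, 8, 161, true, -157, [2, 10, 3]⟩,
⟨8, 161, 10, 201, true, -157, [10, 2, 3]⟩,
⟨10, 201, 1, 20, true, -157, [2, 3, 10]⟩,
⟨1, 20, 10, 199, true, -158, [10, 3, 2]⟩,
⟨10, 199, 8, 159, true, -158, [3, 2, 10]⟩,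
⟨8, 159, 7, 139, true, -158, [3, 10, 2]⟩,
⟨7, 139, 5, 99, true, -156, [10, 3, 2]⟩,
⟨5, 99, 4, 79, true, -156, [3, 2, 10]⟩,
⟨4, 79, 7, 138, true, -156, [3, 10, 2]⟩,
⟨7, 138, 10, 197, true, -154, [10, 3, 2]⟩,
⟨10, 197, 3, 59, true, -154, [3, 2, 10]⟩,
⟨3, 59, 8, 157, true, -154, [2, 10, 3]⟩,
⟨8, 157, 5, 98, true, -154, [10, 2, 3]⟩,
⟨5, 98, 7, 137, true, -154, [2, 3, 10]⟩,
⟨7, 137, 2, 39, true, -152, [2, 10, 3]⟩,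
⟨2, 39, 7, 136, true, -155, [3, 10, 2]⟩,
⟨7, 136, 5, 97, true, -153, [10, 3, 2]⟩,
⟨5, 97, 8, 155, true, -153, [3, 2, 10]⟩,
⟨8, 155, 3, 58, true, -153, [3, 10, 2]⟩,
⟨3, 58, 10, 193, true, -153, [10, 2, 3]⟩,
⟨10, 193, 7, 135, true, -153, [2, 3, 10]⟩,
⟨7, 135, 4, 77, true, -151, [2, 10, 3]⟩,
⟨4, 77, 5, 96, true, -151, [10, 2, 3]⟩]

def cellsP5 : List Cell := [
⟨5, 96, 7, 134, true, -151, [2, 3, 10]⟩,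
⟨7, 134, 8, 153, true, -149, [2, 10, 3]⟩,
⟨8, 153, 10, 191, true, -149, [10, 2, 3]⟩,
⟨10, 191, 1, 19, true, -149, [2, 3, 10]⟩,
⟨1, 19, 10, 189, true, -150, [10, 3, 2]⟩,
⟨10, 189, 8, 151, true, -150, [3, 2, 10]⟩,
⟨8, 151, 7, 132, true, -150, [3, 10, 2]⟩,
⟨7, 132, 5, 94, true, -148, [10, 3, 2]⟩,
⟨5, 94, 4, 75, true, -148, [3, 2, 10]⟩,
⟨4, 75, 7, 131, true, -148, [3, 10, 2]⟩,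
⟨7, 131, 10, 187, true, -146, [10, 3, 2]⟩,
⟨10, 187, 3, 56, true, -146, [3, 2, 10]⟩,
⟨3, 56, 8, 149, true, -146, [2, 10, 3]⟩,
⟨8, 149, 5, 93, true, -146, [10, 2, 3]⟩,
⟨5, 93, 7, 130, true, -146, [2, 3, 10]⟩,
⟨7, 130, 2, 37, true, -144, [2, 10, 3]⟩,
⟨2, 37, 7, 129, true, -147, [3, 10, 2]⟩,
⟨7, 129, 5, 92, true, -145, [10, 3, 2]⟩,
⟨5, 92, 8, 147, true, -145, [3, 2, 10]⟩,
⟨8, 147, 3, 55, true, -145, [3, 10, 2]⟩,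
⟨3, 55, 10, 183, true, -145, [10, 2, 3]⟩,
⟨10, 183, 7, 128, true, -145, [2, 3, 10]⟩,
⟨7, 128, 4, 73, true, -143, [2, 10, 3]⟩,
⟨4, 73, 5, 91, true, -143, [10, 2, 3]⟩,
⟨5, 91, 7, 127, true, -143, [2, 3, 10]⟩,
⟨7, 127, 8, 145, true, -141, [2, 10, 3]⟩,
⟨8, 145, 10, 181, true, -141, [10, 2, 3]⟩,
⟨10, 181, 1, 18, true, -141, [2, 3, 10]⟩,
⟨1, 18, 10, 179, true, -142, [10, 3, 2]⟩,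
⟨10, 179, 8, 143, true, -142, [3, 2, 10]⟩,
⟨8, 143, 7, 125, true, -142, [3, 10, 2]⟩,
⟨7, 125, 5, 89, true, -140, [10, 3, 2]⟩,
⟨5, 89, 4, 71, true, -140, [3, 2, 10]⟩,
⟨4, 71, 7, 124, true, -140, [3, 10, 2]⟩,
⟨7, 124, 10, 177, true, -138, [10, 3, 2]⟩,
⟨10, 177, 3, 53, true, -138, [3, 2, 10]⟩,
⟨3, 53, 8, 141, true, -138, [2, 10, 3]⟩,
⟨8, 141, 5, 88, true, -138, [10, 2, 3]⟩,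
⟨5, 88, 7, 123, true, -138, [2, 3, 10]⟩,
⟨7, 123, 2, 35, true, -136, [2, 10, 3]⟩,
⟨2, 35, 7, 122, true, -139, [3, 10, 2]⟩,
⟨7, 122, 5, 87, true, -137, [10, 3, 2]⟩,
⟨5, 87, 8, 139, true, -137, [3, 2, 10]⟩,
⟨8, 139, 3, 52, true, -137, [3, 10, 2]⟩,
⟨3, 52, 10, 173, true, -137, [10, 2, 3]⟩,
⟨10, 173, 7, 121, true, -137, [2, 3, 10]⟩,
⟨7, 121, 4, 69, true, -135, [2, 10, 3]⟩,
⟨4, 69, 5, 86, true, -135, [10, 2, 3]⟩,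
⟨5, 86, 7, 120, true, -135, [2, 3, 10]⟩,
⟨7, 120, 8, 137, true, -133, [2, 10, 3]⟩,
⟨8, 137, 10, 171, true, -133, [10, 2, 3]⟩,
⟨10, 171, 1, 17, true, -133, [2, 3, 10]⟩,
⟨1, 17, 10, 169, true, -134, [10, 3, 2]⟩,
⟨10, 169, 8, 135, true, -134, [3, 2, 10]⟩,
⟨8, 135, 7, 118, true, -134, [3, 10, 2]⟩,
⟨7, 118, 5, 84, true, -132, [10, 3, 2]⟩,
⟨5, 84, 4, 67, true, -132, [3, 2, 10]⟩,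
⟨4, 67, 7, 117, true, -132, [3, 10, 2]⟩,
⟨7, 117, 10, 167, true, -130, [10, 3, 2]⟩,
⟨10, 167, 3, 50, true, -130, [3, 2, 10]⟩,
⟨3, 50, 8, 133, true, -130, [2, 10, 3]⟩,
⟨8, 133, 5, 83, true, -130, [10, 2, 3]⟩,
⟨5, 83, 7, 116, true, -130, [2, 3, 10]⟩,
⟨7, 116, 2, 33, true, -128, [2, 10, 3]⟩,
⟨2, 33, 7, 115, true, -131, [3, 10, 2]⟩,
⟨7, 115, 5, 82, true, -129, [10, 3, 2]⟩,
⟨5, 82, 8, 131, true, -129, [3, 2, 10]⟩,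
⟨8, 131, 3, 49, true, -129, [3, 10, 2]⟩,
⟨3, 49, 10, 163, true, -129, [10, 2, 3]⟩,
⟨10, 163, 7, 114, true, -129, [2, 3, 10]⟩,
⟨7, 114, 4, 65, true, -127, [2, 10, 3]⟩,
⟨4, 65, 5, 81, true, -127, [10, 2, 3]⟩,
⟨5, 81, 7, 113, true, -127, [2, 3, 10]⟩,
⟨7, 113, 8, 129, true, -125, [2, 10, 3]⟩,
⟨8, 129, 10, 161, true, -125, [10, 2, 3]⟩,
⟨10, 161, 1, 16, true, -125, [2, 3, 10]⟩,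
⟨1, 16, 10, 159, true, -126, [10, 3, 2]⟩,
⟨10, 159, 8, 127, true, -126, [3, 2, 10]⟩,
⟨8, 127, 7, 111, true, -126, [3, 10, 2]⟩,
⟨7, 111, 5, 79, true, -124, [10, 3, 2]⟩,
⟨5, 79, 4, 63, true, -124, [3, 2, 10]⟩,
⟨4, 63, 7, 110, true, -124, [3, 10, 2]⟩,
⟨7, 110, 10, 157, true, -122, [10, 3, 2]⟩,
⟨10, 157, 3, 47, true, -122, [3, 2, 10]⟩,
⟨3, 47, 8, 125, true, -122, [2, 10, 3]⟩,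
⟨8, 125, 5, 78, true, -122, [10, 2, 3]⟩,
⟨5, 78, 7, 109, true, -122, [2, 3, 10]⟩,
⟨7, 109, 2, 31, true, -120, [2, 10, 3]⟩,
⟨2, 31, 7, 108, true, -123, [3, 10, 2]⟩,
⟨7, 108, 5, 77, true, -121, [10, 3, 2]⟩,
⟨5, 77, 8, 123, true, -121, [3, 2, 10]⟩,
⟨8, 123, 3, 46, true, -121, [3, 10, 2]⟩,
⟨3, 46, 10, 153, true, -121, [10, 2, 3]⟩,
⟨10, 153, 7, 107, true, -121, [2, 3, 10]⟩,
⟨7, 107, 4, 61, true, -119, [2, 10, 3]⟩,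
⟨4, 61, 5, 76, true, -119, [10, 2, 3]⟩,
⟨5, 76, 7, 106, true, -119, [2, 3, 10]⟩,
⟨7, 106, 8, 121, true, -117, [2, 10, 3]⟩,
⟨8, 121, 10, 151, true, -117, [10, 2, 3]⟩,
⟨10, 151, 1, 15, true, -117, [2, 3, 10]⟩]

def cellsP6 : List Cell := [
⟨1, 15, 10, 149, true, -118, [10, 3, 2]⟩,
⟨10, 149, 8, 119, true, -118, [3, 2, 10]⟩,
⟨8, 119, 7, 104, true, -118, [3, 10, 2]⟩,
⟨7, 104, 5, 74, true, -116, [10, 3, 2]⟩,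
⟨5, 74, 4, 59, true, -116, [3, 2, 10]⟩,
⟨4, 59, 7, 103, true, -116, [3, 10, 2]⟩,
⟨7, 103, 10, 147, true, -114, [10, 3, 2]⟩,
⟨10, 147, 3, 44, true, -114, [3, 2, 10]⟩,
⟨3, 44, 8, 117, true, -114, [2, 10, 3]⟩,
⟨8, 117, 5, 73, true, -114, [10, 2, 3]⟩,
⟨5, 73, 7, 102, true, -114, [2, 3, 10]⟩,
⟨7, 102, 2, 29, true, -112, [2, 10, 3]⟩,
⟨2, 29, 7, 101, true, -115, [3, 10, 2]⟩,
⟨7, 101, 5, 72, true, -113, [10, 3, 2]⟩,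
⟨5, 72, 8, 115, true, -113, [3, 2, 10]⟩,
⟨8, 115, 3, 43, true, -113, [3, 10, 2]⟩,
⟨3, 43, 10, 143, true, -113, [10, 2, 3]⟩,
⟨10, 143, 7, 100, true, -113, [2, 3, 10]⟩,
⟨7, 100, 4, 57, true, -111, [2, 10, 3]⟩,
⟨4, 57, 5, 71, true, -111, [10, 2, 3]⟩,
⟨5, 71, 7, 99, true, -111, [2, 3, 10]⟩,
⟨7, 99, 8, 113, true, -109, [2, 10, 3]⟩,
⟨8, 113, 10, 141, true, -109, [10, 2, 3]⟩,
⟨10, 141, 1, 14, true, -109, [2, 3, 10]⟩,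
⟨1, 14, 10, 139, true, -110, [10, 3, 2]⟩,
⟨10, 139, 8, 111, true, -110, [3, 2, 10]⟩,
⟨8, 111, 7, 97, true, -110, [3, 10, 2]⟩,
⟨7, 97, 5, 69, true, -108, [10, 3, 2]⟩,
⟨5, 69, 4, 55, true, -108, [3, 2, 10]⟩,
⟨4, 55, 7, 96, true, -108, [3, 10, 2]⟩,
⟨7, 96, 10, 137, true, -106, [10, 3, 2]⟩,
⟨10, 137, 3, 41, true, -106, [3, 2, 10]⟩,
⟨3, 41, 8, 109, true, -106, [2, 10, 3]⟩,
⟨8, 109, 5, 68, true, -106, [10, 2, 3]⟩,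
⟨5, 68, 7, 95, true, -106, [2, 3, 10]⟩,
⟨7, 95, 2, 27, true, -104, [2, 10, 3]⟩,
⟨2, 27, 7, 94, true, -107, [3, 10, 2]⟩,
⟨7, 94, 5, 67, true, -105, [10, 3, 2]⟩,
⟨5, 67, 8, 107, true, -105, [3, 2, 10]⟩,
⟨8, 107, 3, 40, true, -105, [3, 10, 2]⟩,
⟨3, 40, 10, 133, true, -105, [10, 2, 3]⟩,
⟨10, 133, 7, 93, true, -105, [2, 3, 10]⟩,
⟨7, 93, 4, 53, true, -103, [2, 10, 3]⟩,
⟨4, 53, 5, 66, true, -103, [10, 2, 3]⟩,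
⟨5, 66, 7, 92, true, -103, [2, 3, 10]⟩,
⟨7, 92, 8, 105, true, -101, [2, 10, 3]⟩,
⟨8, 105, 10, 131, true, -101, [10, 2, 3]⟩,
⟨10, 131, 1, 13, true, -101, [2, 3, 10]⟩,
⟨1, 13, 10, 129, true, -102, [10, 3, 2]⟩,
⟨10, 129, 8, 103, true, -102, [3, 2, 10]⟩,
⟨8, 103, 7, 90, true, -102, [3, 10, 2]⟩,
⟨7, 90, 5, 64, true, -100, [10, 3, 2]⟩,
⟨5, 64, 4, 51, true, -100, [3, 2, 10]⟩,
⟨4, 51, 7, 89, true, -100, [3, 10, 2]⟩,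
⟨7, 89, 10, 127, true, -98, [10, 3, 2]⟩,
⟨10, 127, 3, 38, true, -98, [3, 2, 10]⟩,
⟨3, 38, 8, 101, true, -98, [2, 10, 3]⟩,
⟨8, 101, 5, 63, true, -98, [10, 2, 3]⟩,
⟨5, 63, 7, 88, true, -98, [2, 3, 10]⟩,
⟨7, 88, 2, 25, true, -96, [2, 10, 3]⟩,
⟨2, 25, 7, 87, true, -99, [3, 10, 2]⟩,
⟨7, 87, 5, 62, true, -97, [10, 3, 2]⟩,
⟨5, 62, 8, 99, true, -97, [3, 2, 10]⟩,
⟨8, 99, 3, 37, true, -97, [3, 10, 2]⟩,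
⟨3, 37, 10, 123, true, -97, [10, 2, 3]⟩,
⟨10, 123, 7, 86, true, -97, [2, 3, 10]⟩,
⟨7, 86, 4, 49, true, -95, [2, 10, 3]⟩,
⟨4, 49, 5, 61, true, -95, [10, 2, 3]⟩,
⟨5, 61, 7, 85, true, -95, [2, 3, 10]⟩,
⟨7, 85, 8, 97, true, -93, [2, 10, 3]⟩,
⟨8, 97, 10, 121, true, -93, [10, 2, 3]⟩,
⟨10, 121, 1, 12, true, -93, [2, 3, 10]⟩,
⟨1, 12, 10, 119, true, -94, [10, 3, 2]⟩,
⟨10, 119, 8, 95, true, -94, [3, 2, 10]⟩,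
⟨8, 95, 7, 83, true, -94, [3, 10, 2]⟩,
⟨7, 83, 5, 59, true, -92, [10, 3, 2]⟩,
⟨5, 59, 4, 47, true, -92, [3, 2, 10]⟩,
⟨4, 47, 7, 82, true, -92, [3, 10, 2]⟩,
⟨7, 82, 10, 117, true, -90, [10, 3, 2]⟩,
⟨10, 117, 3, 35, true, -90, [3, 2, 10]⟩,
⟨3, 35, 8, 93, true, -90, [2, 10, 3]⟩,
⟨8, 93, 5, 58, true, -90, [10, 2, 3]⟩,
⟨5, 58, 7, 81, true, -90, [2, 3, 10]⟩,
⟨7, 81, 2, 23, true, -88, [2, 10, 3]⟩,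
⟨2, 23, 7, 80, true, -91, [3, 10, 2]⟩,
⟨7, 80, 5, 57, true, -89, [10, 3, 2]⟩,
⟨5, 57, 8, 91, true, -89, [3, 2, 10]⟩,
⟨8, 91, 3, 34, true, -89, [3, 10, 2]⟩,
⟨3, 34, 10, 113, true, -89, [10, 2, 3]⟩,
⟨10, 113, 7, 79, true, -89, [2, 3, 10]⟩,
⟨7, 79, 4, 45, true, -87, [2, 10, 3]⟩,
⟨4, 45, 5, 56, true, -87, [10, 2, 3]⟩,
⟨5, 56, 7, 78, true, -87, [2, 3, 10]⟩,
⟨7, 78, 8, 89, true, -85, [2, 10, 3]⟩,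
⟨8, 89, 10, 111, true, -85, [10, 2, 3]⟩,
⟨10, 111, 1, 11, true, -85, [2, 3, 10]⟩,
⟨1, 11, 10, 109, true, -86, [10, 3, 2]⟩,
⟨10, 109, 8, 87, true, -86, [3, 2, 10]⟩,
⟨8, 87, 7, 76, true, -86, [3, 10, 2]⟩,
⟨7, 76, 5, 54, true, -84, [10, 3, 2]⟩]

def cellsP7 : List Cell := [
⟨5, 54, 4, 43, true, -84, [3, 2, 10]⟩,
⟨4, 43, 7, 75, true, -84, [3, 10, 2]⟩,
⟨7, 75, 10, 107, true, -82, [10, 3, 2]⟩,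
⟨10, 107, 3, 32, true, -82, [3, 2, 10]⟩,
⟨3, 32, 8, 85, true, -82, [2, 10, 3]⟩,
⟨8, 85, 5, 53, true, -82, [10, 2, 3]⟩,
⟨5, 53, 7, 74, true, -82, [2, 3, 10]⟩,
⟨7, 74, 2, 21, true, -80, [2, 10, 3]⟩,
⟨2, 21, 7, 73, true, -83, [3, 10, 2]⟩,
⟨7, 73, 5, 52, true, -81, [10, 3, 2]⟩,
⟨5, 52, 8, 83, true, -81, [3, 2, 10]⟩,
⟨8, 83, 3, 31, true, -81, [3, 10, 2]⟩,
⟨3, 31, 10, 103, true, -81, [10, 2, 3]⟩,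
⟨10, 103, 7, 72, true, -81, [2, 3, 10]⟩,
⟨7, 72, 4, 41, true, -79, [2, 10, 3]⟩,
⟨4, 41, 5, 51, true, -79, [10, 2, 3]⟩,
⟨5, 51, 7, 71, true, -79, [2, 3, 10]⟩,
⟨7, 71, 8, 81, true, -77, [2, 10, 3]⟩,
⟨8, 81, 10, 101, true, -77, [10, 2, 3]⟩,
⟨10, 101, 1, 10, true, -77, [2, 3, 10]⟩,
⟨1, 10, 10, 99, true, -78, [10, 3, 2]⟩,
⟨10, 99, 8, 79, true, -78, [3, 2, 10]⟩,
⟨8, 79, 7, 69, true, -78, [3, 10, 2]⟩,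
⟨7, 69, 5, 49, true, -76, [10, 3, 2]⟩,
⟨5, 49, 4, 39, true, -76, [3, 2, 10]⟩,
⟨4, 39, 7, 68, true, -76, [3, 10, 2]⟩,
⟨7, 68, 10, 97, true, -74, [10, 3, 2]⟩,
⟨10, 97, 3, 29, true, -74, [3, 2, 10]⟩,
⟨3, 29, 8, 77, true, -74, [2, 10, 3]⟩,
⟨8, 77, 5, 48, true, -74, [10, 2, 3]⟩,
⟨5, 48, 7, 67, true, -74, [2, 3, 10]⟩,
⟨7, 67, 2, 19, true, -72, [2, 10, 3]⟩,
⟨2, 19, 7, 66, true, -75, [3, 10, 2]⟩,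
⟨7, 66, 5, 47, true, -73, [10, 3, 2]⟩,
⟨5, 47, 8, 75, true, -73, [3, 2, 10]⟩,
⟨8, 75, 3, 28, true, -73, [3, 10, 2]⟩,
⟨3, 28, 10, 93, true, -73, [10, 2, 3]⟩,
⟨10, 93, 7, 65, true, -73, [2, 3, 10]⟩,
⟨7, 65, 4, 37, true, -71, [2, 10, 3]⟩,
⟨4, 37, 5, 46, true, -71, [10, 2, 3]⟩,
⟨5, 46, 7, 64, true, -71, [2, 3, 10]⟩,
⟨7, 64, 8, 73, true, -69, [2, 10, 3]⟩,
⟨8, 73, 10, 91, true, -69, [10, 2, 3]⟩,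
⟨10, 91, 1, 9, true, -69, [2, 3, 10]⟩,
⟨1, 9, 10, 89, true, -70, [10, 3, 2]⟩,
⟨10, 89, 8, 71, true, -70, [3, 2, 10]⟩,
⟨8, 71, 7, 62, true, -70, [3, 10, 2]⟩,
⟨7, 62, 5, 44, true, -68, [10, 3, 2]⟩,
⟨5, 44, 4, 35, true, -68, [3, 2, 10]⟩,
⟨4, 35, 7, 61, true, -68, [3, 10, 2]⟩,
⟨7, 61, 10, 87, true, -66, [10, 3, 2]⟩,
⟨10, 87, 3, 26, true, -66, [3, 2, 10]⟩,
⟨3, 26, 8, 69, true, -66, [2, 10, 3]⟩,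
⟨8, 69, 5, 43, true, -66, [10, 2, 3]⟩,
⟨5, 43, 7, 60, true, -66, [2, 3, 10]⟩,
⟨7, 60, 2, 17, true, -64, [2, 10, 3]⟩,
⟨2, 17, 7, 59, true, -67, [3, 10, 2]⟩,
⟨7, 59, 5, 42, true, -65, [10, 3, 2]⟩,
⟨5, 42, 8, 67, true, -65, [3, 2, 10]⟩,
⟨8, 67, 3, 25, true, -65, [3, 10, 2]⟩,
⟨3, 25, 10, 83, true, -65, [10, 2, 3]⟩,
⟨10, 83, 7, 58, true, -65, [2, 3, 10]⟩,
⟨7, 58, 4, 33, true, -63, [2, 10, 3]⟩,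
⟨4, 33, 5, 41, true, -63, [10, 2, 3]⟩,
⟨5, 41, 7, 57, true, -63, [2, 3, 10]⟩,
⟨7, 57, 8, 65, true, -61, [2, 10, 3]⟩,
⟨8, 65, 10, 81, true, -61, [10, 2, 3]⟩,
⟨10, 81, 1, 8, true, -61, [2, 3, 10]⟩,
⟨1, 8, 10, 79, true, -62, [10, 3, 2]⟩,
⟨10, 79, 8, 63, true, -62, [3, 2, 10]⟩,
⟨8, 63, 7, 55, true, -62, [3, 10, 2]⟩,
⟨7, 55, 5, 39, true, -60, [10, 3, 2]⟩,
⟨5, 39, 4, 31, true, -60, [3, 2, 10]⟩,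
⟨4, 31, 7, 54, true, -60, [3, 10, 2]⟩,
⟨7, 54, 10, 77, true, -58, [10, 3, 2]⟩,
⟨10, 77, 3, 23, true, -58, [3, 2, 10]⟩,
⟨3, 23, 8, 61, true, -58, [2, 10, 3]⟩,
⟨8, 61, 5, 38, true, -58, [10, 2, 3]⟩,
⟨5, 38, 7, 53, true, -58, [2, 3, 10]⟩,
⟨7, 53, 2, 15, true, -56, [2, 10, 3]⟩,
⟨2, 15, 7, 52, true, -59, [3, 10, 2]⟩,
⟨7, 52, 5, 37, true, -57, [10, 3, 2]⟩,
⟨5, 37, 8, 59, true, -57, [3, 2, 10]⟩,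
⟨8, 59, 3, 22, true, -57, [3, 10, 2]⟩,
⟨3, 22, 10, 73, true, -57, [10, 2, 3]⟩,
⟨10, 73, 7, 51, true, -57, [2, 3, 10]⟩,
⟨7, 51, 4, 29, true, -55, [2, 10, 3]⟩,
⟨4, 29, 5, 36, true, -55, [10, 2, 3]⟩,
⟨5, 36, 7, 50, true, -55, [2, 3, 10]⟩,
⟨7, 50, 8, 57, true, -53, [2, 10, 3]⟩,
⟨8, 57, 10, 71, true, -53, [10, 2, 3]⟩,
⟨10, 71, 1, 7, true, -53, [2, 3, 10]⟩,
⟨1, 7, 10, 69, true, -54, [10, 3, 2]⟩,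
⟨10, 69, 8, 55, true, -54, [3, 2, 10]⟩,
⟨8, 55, 7, 48, true, -54, [3, 10, 2]⟩,
⟨7, 48, 5, 34, true, -52, [10, 3, 2]⟩,
⟨5, 34, 4, 27, true, -52, [3, 2, 10]⟩,
⟨4, 27, 7, 47, true, -52, [3, 10, 2]⟩,
⟨7, 47, 10, 67, true, -50, [10, 3, 2]⟩,
⟨10, 67, 3, 20, true, -50, [3, 2, 10]⟩]

def cellsP8 : List Cell := [
⟨3, 20, 8, 53, true, -50, [2, 10, 3]⟩,
⟨8, 53, 5, 33, true, -50, [10, 2, 3]⟩,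
⟨5, 33, 7, 46, true, -50, [2, 3, 10]⟩,
⟨7, 46, 2, 13, true, -48, [2, 10, 3]⟩,
⟨2, 13, 7, 45, true, -51, [3, 10, 2]⟩,
⟨7, 45, 5, 32, true, -49, [10, 3, 2]⟩,
⟨5, 32, 8, 51, true, -49, [3, 2, 10]⟩,
⟨8, 51, 3, 19, true, -49, [3, 10, 2]⟩,
⟨3, 19, 10, 63, true, -49, [10, 2, 3]⟩,
⟨10, 63, 7, 44, true, -49, [2, 3, 10]⟩,
⟨7, 44, 4, 25, true, -47, [2, 10, 3]⟩,
⟨4, 25, 5, 31, true, -47, [10, 2, 3]⟩,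
⟨5, 31, 7, 43, true, -47, [2, 3, 10]⟩,
⟨7, 43, 8, 49, true, -45, [2, 10, 3]⟩,
⟨8, 49, 10, 61, true, -45, [10, 2, 3]⟩,
⟨10, 61, 1, 6, true, -45, [2, 3, 10]⟩,
⟨1, 6, 10, 59, true, -46, [10, 3, 2]⟩,
⟨10, 59, 8, 47, true, -46, [3, 2, 10]⟩,
⟨8, 47, 7, 41, true, -46, [3, 10, 2]⟩,
⟨7, 41, 5, 29, true, -44, [10, 3, 2]⟩,
⟨5, 29, 4, 23, true, -44, [3, 2, 10]⟩,
⟨4, 23, 7, 40, true, -44, [3, 10, 2]⟩,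
⟨7, 40, 10, 57, true, -42, [10, 3, 2]⟩,
⟨10, 57, 3, 17, true, -42, [3, 2, 10]⟩,
⟨3, 17, 8, 45, true, -42, [2, 10, 3]⟩,
⟨8, 45, 5, 28, true, -42, [10, 2, 3]⟩,
⟨5, 28, 7, 39, true, -42, [2, 3, 10]⟩,
⟨7, 39, 2, 11, true, -40, [2, 10, 3]⟩,
⟨2, 11, 7, 38, true, -43, [3, 10, 2]⟩,
⟨7, 38, 5, 27, true, -41, [10, 3, 2]⟩,
⟨5, 27, 8, 43, true, -41, [3, 2, 10]⟩,
⟨8, 43, 3, 16, true, -41, [3, 10, 2]⟩,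
⟨3, 16, 10, 53, true, -41, [10, 2, 3]⟩,
⟨10, 53, 7, 37, true, -41, [2, 3, 10]⟩,
⟨7, 37, 4, 21, true, -39, [2, 10, 3]⟩,
⟨4, 21, 5, 26, true, -39, [10, 2, 3]⟩,
⟨5, 26, 7, 36, true, -39, [2, 3, 10]⟩,
⟨7, 36, 8, 41, true, -37, [2, 10, 3]⟩,
⟨8, 41, 10, 51, true, -37, [10, 2, 3]⟩,
⟨10, 51, 1, 5, true, -37, [2, 3, 10]⟩,
⟨1, 5, 10, 49, true, -38, [10, 3, 2]⟩,
⟨10, 49, 8, 39, true, -38, [3, 2, 10]⟩,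
⟨8, 39, 7, 34, true, -38, [3, 10, 2]⟩,
⟨7, 34, 5, 24, true, -36, [10, 3, 2]⟩,
⟨5, 24, 4, 19, true, -36, [3, 2, 10]⟩,
⟨4, 19, 7, 33, true, -36, [3, 10, 2]⟩,
⟨7, 33, 10, 47, true, -34, [10, 3, 2]⟩,
⟨10, 47, 3, 14, true, -34, [3, 2, 10]⟩,
⟨3, 14, 8, 37, true, -34, [2, 10, 3]⟩,
⟨8, 37, 5, 23, true, -34, [10, 2, 3]⟩,
⟨5, 23, 7, 32, true, -34, [2, 3, 10]⟩,
⟨7, 32, 2, 9, true, -32, [2, 10, 3]⟩,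
⟨2, 9, 7, 31, true, -35, [3, 10, 2]⟩,
⟨7, 31, 5, 22, true, -33, [10, 3, 2]⟩,
⟨5, 22, 8, 35, true, -33, [3, 2, 10]⟩,
⟨8, 35, 3, 13, true, -33, [3, 10, 2]⟩,
⟨3, 13, 10, 43, true, -33, [10, 2, 3]⟩,
⟨10, 43, 7, 30, true, -33, [2, 3, 10]⟩,
⟨7, 30, 4, 17, true, -31, [2, 10, 3]⟩,
⟨4, 17, 5, 21, true, -31, [10, 2, 3]⟩,
⟨5, 21, 7, 29, true, -31, [2, 3, 10]⟩,
⟨7, 29, 8, 33, true, -29, [2, 10, 3]⟩,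
⟨8, 33, 10, 41, true, -29, [10, 2, 3]⟩,
⟨10, 41, 1, 4, true, -29, [2, 3, 10]⟩,
⟨1, 4, 10, 39, true, -30, [10, 3, 2]⟩,
⟨10, 39, 8, 31, true, -30, [3, 2, 10]⟩,
⟨8, 31, 7, 27, true, -30, [3, 10, 2]⟩,
⟨7, 27, 5, 19, true, -28, [10, 3, 2]⟩,
⟨5, 19, 4, 15, true, -28, [3, 2, 10]⟩,
⟨4, 15, 7, 26, true, -28, [3, 10, 2]⟩,
⟨7, 26, 10, 37, true, -26, [10, 3, 2]⟩,
⟨10, 37, 3, 11, true, -26, [3, 2, 10]⟩,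
⟨3, 11, 8, 29, true, -26, [2, 10, 3]⟩,
⟨8, 29, 5, 18, true, -26, [10, 2, 3]⟩,
⟨5, 18, 7, 25, true, -26, [2, 3, 10]⟩,
⟨7, 25, 2, 7, true, -24, [2, 10, 3]⟩,
⟨2, 7, 7, 24, true, -27, [3, 10, 2]⟩,
⟨7, 24, 5, 17, true, -25, [10, 3, 2]⟩,
⟨5, 17, 8, 27, true, -25, [3, 2, 10]⟩,
⟨8, 27, 3, 10, true, -25, [3, 10, 2]⟩,
⟨3, 10, 10, 33, true, -25, [10, 2, 3]⟩,
⟨10, 33, 7, 23, true, -25, [2, 3, 10]⟩,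
⟨7, 23, 4, 13, true, -23, [2, 10, 3]⟩,
⟨4, 13, 5, 16, true, -23, [10, 2, 3]⟩,
⟨5, 16, 7, 22, true, -23, [2, 3, 10]⟩,
⟨7, 22, 8, 25, true, -21, [2, 10, 3]⟩,
⟨8, 25, 10, 31, true, -21, [10, 2, 3]⟩,
⟨10, 31, 1, 3, true, -21, [2, 3, 10]⟩,
⟨1, 3, 10, 29, true, -22, [10, 3, 2]⟩,
⟨10, 29, 8, 23, true, -22, [3, 2, 10]⟩,
⟨8, 23, 7, 20, true, -22, [3, 10, 2]⟩,
⟨7, 20, 5, 14, true, -20, [10, 3, 2]⟩,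
⟨5, 14, 4, 11, true, -20, [3, 2, 10]⟩,
⟨4, 11, 7, 19, true, -20, [3, 10, 2]⟩,
⟨7, 19, 10, 27, true, -18, [10, 3, 2]⟩,
⟨10, 27, 3, 8, true, -18, [3, 2, 10]⟩,
⟨3, 8, 8, 21, true, -18, [2, 10, 3]⟩,
⟨8, 21, 5, 13, true, -18, [10, 2, 3]⟩,
⟨5, 13, 7, 18, true, -18, [2, 3, 10]⟩,
⟨7, 18, 2, 5, true, -16, [2, 10, 3]⟩]

def cellsP9 : List Cell := [
⟨2, 5, 7, 17, true, -19, [3, 10, 2]⟩,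
⟨7, 17, 5, 12, true, -17, [10, 3, 2]⟩,
⟨5, 12, 8, 19, true, -17, [3, 2, 10]⟩,
⟨8, 19, 3, 7, true, -17, [3, 10, 2]⟩,
⟨3, 7, 10, 23, true, -17, [10, 2, 3]⟩,
⟨10, 23, 7, 16, true, -17, [2, 3, 10]⟩,
⟨7, 16, 4, 9, true, -15, [2, 10, 3]⟩,
⟨4, 9, 5, 11, true, -15, [10, 2, 3]⟩,
⟨5, 11, 7, 15, true, -15, [2, 3, 10]⟩,
⟨7, 15, 8, 17, true, -13, [2, 10, 3]⟩,
⟨8, 17, 10, 21, true, -13, [10, 2, 3]⟩,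
⟨10, 21, 1, 2, true, -13, [2, 3, 10]⟩,
⟨1, 2, 10, 19, true, -14, [10, 3, 2]⟩,
⟨10, 19, 8, 15, true, -14, [3, 2, 10]⟩,
⟨8, 15, 7, 13, true, -14, [3, 10, 2]⟩,
⟨7, 13, 5, 9, true, -12, [10, 3, 2]⟩,
⟨5, 9, 4, 7, true, -12, [3, 2, 10]⟩,
⟨4, 7, 7, 12, true, -12, [3, 10, 2]⟩,
⟨7, 12, 10, 17, true, -10, [10, 3, 2]⟩,
⟨10, 17, 3, 5, true, -10, [3, 2, 10]⟩,
⟨3, 5, 8, 13, true, -10, [2, 10, 3]⟩,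
⟨8, 13, 5, 8, true, -10, [10, 2, 3]⟩,
⟨5, 8, 7, 11, true, -10, [2, 3, 10]⟩,
⟨7, 11, 2, 3, true, -8, [2, 10, 3]⟩,
⟨2, 3, 7, 10, true, -11, [3, 10, 2]⟩,
⟨7, 10, 5, 7, true, -9, [10, 3, 2]⟩,
⟨5, 7, 8, 11, true, -9, [3, 2, 10]⟩,
⟨8, 11, 3, 4, true, -9, [3, 10, 2]⟩,
⟨3, 4, 10, 13, true, -9, [10, 2, 3]⟩,
⟨10, 13, 7, 9, true, -9, [2, 3, 10]⟩,
⟨7, 9, 4, 5, true, -7, [2, 10, 3]⟩,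
⟨4, 5, 5, 6, true, -7, [10, 2, 3]⟩,
⟨5, 6, 7, 8, true, -7, [2, 3, 10]⟩,
⟨7, 8, 8, 9, true, -5, [2, 10, 3]⟩,
⟨8, 9, 10, 11, true, -5, [10, 2, 3]⟩,
⟨10, 11, 1, 1, true, -5, [2, 3, 10]⟩,
⟨1, 1, 10, 9, true, -6, [10, 3, 2]⟩,
⟨10, 9, 8, 7, true, -6, [3, 2, 10]⟩,
⟨8, 7, 7, 6, true, -6, [3, 10, 2]⟩,
⟨7, 6, 5, 4, true, -4, [10, 3, 2]⟩,
⟨5, 4, 4, 3, true, -4, [3, 2, 10]⟩,
⟨4, 3, 7, 5, true, -4, [3, 10, 2]⟩,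
⟨7, 5, 10, 7, true, -2, [10, 3, 2]⟩,
⟨10, 7, 3, 2, true, -2, [3, 2, 10]⟩,
⟨3, 2, 8, 5, true, -2, [2, 10, 3]⟩,
⟨8, 5, 5, 3, true, -2, [10, 2, 3]⟩,
⟨5, 3, 7, 4, true, -2, [2, 3, 10]⟩,
⟨7, 4, 2, 1, true, 0, [2, 10, 3]⟩,
⟨2, 1, 7, 3, true, -3, [3, 10, 2]⟩,
⟨7, 3, 5, 2, true, -1, [10, 3, 2]⟩,
⟨5, 2, 8, 3, true, -1, [3, 2, 10]⟩,
⟨8, 3, 3, 1, true, -1, [3, 10, 2]⟩,
⟨3, 1, 10, 3, true, -1, [10, 2, 3]⟩,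
⟨10, 3, 7, 2, true, -1, [2, 3, 10]⟩,
⟨7, 2, 4, 1, true, 1, [2, 10, 3]⟩,
⟨4, 1, 9, 2, true, 1, [10, 2, 3]⟩,
⟨9, 2, 5, 1, true, 2, [10, 2, 3]⟩,
⟨5, 1, 11, 2, true, 2, [2, 3, 10]⟩,
⟨11, 2, 19, 3, false, 0, [2, 3, 10]⟩,
⟨19, 3, 7, 1, false, -2, [2, 3, 10]⟩,
⟨7, 1, 8, 1, false, 0, [2, 10, 3]⟩,
⟨8, 1, 10, 1, false, 0, [10, 2, 3]⟩]

/-- the list of all cells -/
def cells : List Cell := cellsP0 ++ cellsP1 ++ cellsP2 ++ cellsP3 ++ cellsP4 ++ cellsP5 ++ cellsP6 ++ cellsP7 ++ cellsP8 ++ cellsP9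

end Pool.Agent.ZF
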