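import Pool.Agent.H387R3.ZF.D3pre
import Pool.Agent.H387R3.ZF.C2

/-! D3_det, D3_large (helper908, with C2 of helper510). -/

open Polynomial Pool.Agent.H337R2

namespace Pool.Agent.ZF

noncomputable section

theorem D3_C2 : D3St_C2 := by
  intro n p _ hn hp2 q α β hα hβ E W hW A hA hE hE1 h
  exact C2_xf hn hp2 q α β hα hβ E W hW A hA hE hE1 h

theorem D3_det {n p : ℕ} [Fact p.Prime] (hn : 1 ≤ n) (hp2 : 10 * n < p ^ 2) (q : ℕ) (α β : ℚ)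
    (hα : QI q α) (hβ : QI q β) (m : ℕ) (μ : ℤ) (S : Finset ℕ) (hS : S ⊆ Finset.range p)
    (h : ∀ k ∈ sF n, k % p ∈ S ∨
      (padicNorm p (cF n) ≤ (p : ℚ) ^ μ ∧ k < 2 * n + 1 + p ∧ ∀ k' ∈ sF n, k' ≠ k → ¬ (p : ℤ) ∣ (k' : ℤ) - k)) :
    padicNorm p ((q : ℚ) ^ m * DET n α β m) ≤ (p : ℚ) ^ ((m : ℤ) * μ + ∑ κ ∈ S, TT (2 - eF n p κ - μ)) :=
  D3_det_of D3_C2 hn hp2 q α β hα hβ m μ S h

theorem D3_large {n p : ℕ} [Fact p.Prime] (hn : 1 ≤ n) (hp2 : 10 * n < p ^ 2) (hp : 8 * n ≤ p) (q : ℕ) (α β : ℚ)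
    (hα : QI q α) (hβ : QI q β) (m : ℕ) :
    padicNorm p ((q : ℚ) ^ m * DET n α β m) ≤ 1 :=
  D3_large_of D3_C2 hn hp2 hp q α β hα hβ m

end

end Pool.Agent.ZF
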