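import Pool.Agent.H337R2.LZ.Defs
import Pool.Agent.H336R2.HD.Defs
import Pool.Agent.H337R2.Cx3

/-!
# `1, ζ(3), ζ(4)` are linearly independent over `ℚ`: definitions

`R(t) = ((7n)!)² / ((2n)!)³ · ∏_{j=1}^{2n} (t+j)³ / ∏_{3n<k≤10n} (t+k)²`.
With the partial fractions `b_k / (t+k)² + c_k / (t+k)` of `R Q` one has, with the SAME `ρ = ∑ b_k`,
`∑_t (RQ)'(t) = -2 ρ ζ(3) + …` and `∑_t (RQ)''(t)/2 = 3 ρ ζ(4) - …` (here `∑ c_k = 0`). If
`ζ(4) = α + β ζ(3)` then `2 · (second sum) + 3 β · (first sum)` is the RATIONAL number `NL n α β Q`.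
`DET n α β m` is the Hankel determinant of this functional; it is used with `m = 4 n`.
-/

open Polynomial Pool.Agent.H337R2

namespace Pool.Agent.ZF

noncomputable section

/-- `⌊(y+1)²/4⌋` for `y > 0`, and `0` otherwise -/
abbrev TT := Pool.Agent.H336R2.HD.TT

/-- `q` is a denominator of `u` -/
abbrev QI := Pool.Agent.LZ.QI

/-- primes in `(lo n, hi n]` (for `hi ≤ 14`) -/
abbrev PR := Pool.Agent.LZ.PR

/-- the poles are at `-k`, `3n < k ≤ 10n` -/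
abbrev sF (n : ℕ) : Finset ℕ := Finset.Icc (3 * n + 1) (10 * n)

/-- multiplicities of the poles -/
abbrev mF : ℕ → ℕ := fun _ => 2

/-- `((7n)!)² / ((2n)!)³` -/
def cF (n : ℕ) : ℚ := (((7 * n).factorial ^ 2 : ℕ) : ℚ) / (((2 * n).factorial ^ 3 : ℕ) : ℚ)

/-- numerator -/
def PF (n : ℕ) : ℚ[X] := C (cF n) * ∏ j ∈ Finset.Icc 1 (2 * n), (X + C (j : ℚ)) ^ 3

/-- `∑ b_k` -/
def rho (n : ℕ) (P : ℚ[X]) : ℚ := ∑ k ∈ sF n, pa (sF n) mF P k 2

/-- the part with the harmonic numbers, from the second derivative -/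
def h4 (n : ℕ) (P : ℚ[X]) : ℚ := ∑ k ∈ sF n,
  (6 * pa (sF n) mF P k 2 * hs 4 (k - 2 * n - 1) + 2 * pa (sF n) mF P k 1 * hs 3 (k - 2 * n - 1))

/-- the part with the harmonic numbers, from the first derivative -/
def h3 (n : ℕ) (P : ℚ[X]) : ℚ := ∑ k ∈ sF n,
  (6 * pa (sF n) mF P k 2 * hs 3 (k - 2 * n - 1) + 3 * pa (sF n) mF P k 1 * hs 2 (k - 2 * n - 1))

/-- the linear form as a function of the numerator -/
def xf (n : ℕ) (α β : ℚ) (P : ℚ[X]) : ℚ := 6 * α * rho n P - h4 n P + β * h3 n P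

lemma pa_add (s : Finset ℕ) (μ : ℕ → ℕ) (P Q : ℚ[X]) (k i : ℕ) :
    pa s μ (P + Q) k i = pa s μ P k i + pa s μ Q k i :=
  Pool.Agent.LZ.pa_add s μ P Q k i

lemma pa_C_mul (s : Finset ℕ) (μ : ℕ → ℕ) (c : ℚ) (P : ℚ[X]) (k i : ℕ) :
    pa s μ (C c * P) k i = c * pa s μ P k i :=
  Pool.Agent.LZ.pa_C_mul s μ c P k i

lemma rho_add (n : ℕ) (P Q : ℚ[X]) : rho n (P + Q) = rho n P + rho n Q := by
  unfold rho
  rw [← Finset.sum_add_distrib]
  exact Finset.sum_congr rfl fun k _ => pa_add _ _ _ _ _ _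

lemma rho_C_mul (n : ℕ) (c : ℚ) (P : ℚ[X]) : rho n (C c * P) = c * rho n P := by
  unfold rho
  rw [Finset.mul_sum]
  exact Finset.sum_congr rfl fun k _ => pa_C_mul _ _ _ _ _ _

lemma h4_add (n : ℕ) (P Q : ℚ[X]) : h4 n (P + Q) = h4 n P + h4 n Q := by
  unfold h4
  rw [← Finset.sum_add_distrib]
  exact Finset.sum_congr rfl fun k _ => by rw [pa_add, pa_add]; ring

lemma h4_C_mul (n : ℕ) (c : ℚ) (P : ℚ[X]) : h4 n (C c * P) = c * h4 n P := by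
  unfold h4
  rw [Finset.mul_sum]
  exact Finset.sum_congr rfl fun k _ => by rw [pa_C_mul, pa_C_mul]; ring

lemma h3_add (n : ℕ) (P Q : ℚ[X]) : h3 n (P + Q) = h3 n P + h3 n Q := by
  unfold h3
  rw [← Finset.sum_add_distrib]
  exact Finset.sum_congr rfl fun k _ => by rw [pa_add, pa_add]; ring

lemma h3_C_mul (n : ℕ) (c : ℚ) (P : ℚ[X]) : h3 n (C c * P) = c * h3 n P := by
  unfold h3
  rw [Finset.mul_sum]
  exact Finset.sum_congr rfl fun k _ => by rw [pa_C_mul, pa_C_mul]; ring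

lemma xf_add (n : ℕ) (α β : ℚ) (P Q : ℚ[X]) : xf n α β (P + Q) = xf n α β P + xf n α β Q := by
  unfold xf
  rw [rho_add, h4_add, h3_add]; ring

lemma xf_C_mul (n : ℕ) (α β : ℚ) (c : ℚ) (P : ℚ[X]) : xf n α β (C c * P) = c * xf n α β P := by
  unfold xf
  rw [rho_C_mul, h4_C_mul, h3_C_mul]; ring

/-- the functional -/
def NL (n : ℕ) (α β : ℚ) : ℚ[X] →ₗ[ℚ] ℚ where
  toFun Q := xf n α β (PF n * Q)
  map_add' P Q := by rw [mul_add, xf_add]
  map_smul' c P := by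
    rw [RingHom.id_apply, Polynomial.smul_eq_C_mul, mul_left_comm, xf_C_mul, smul_eq_mul]

lemma NL_apply (n : ℕ) (α β : ℚ) (Q : ℚ[X]) : NL n α β Q = xf n α β (PF n * Q) := rfl

/-- Hankel determinant -/
def DET (n : ℕ) (α β : ℚ) (m : ℕ) : ℚ :=
  (Matrix.of fun i j : Fin m => NL n α β (X ^ (i.1 + j.1))).det

/-- `R` on the line `Re t = -1/2` -/
def Rn (n : ℕ) (y : ℝ) : ℂ := aeval (zl y) (PF n) / aeval (zl y) (QQ (sF n) mF)

/-- the exponent `e_p(k)`: valuation of the constant, plus zeros, minus poles in the class of `k` -/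
def eF (n p k : ℕ) : ℤ :=
  2 * ((7 * n / p : ℕ) : ℤ) - 3 * ((2 * n / p : ℕ) : ℤ) + 3 * cnt p 1 (2 * n) k - 2 * cnt p (3 * n + 1) (10 * n) k

/-! ### Cells -/

/-- a cell `u0/v0 < p/n ≤ u1/v1`; `full`: all classes are charged; level `mu`; `od`: the thresholds
`2, 3, 10` in increasing order of the residues `a n mod p` -/
structure Cell where
  u0 : ℕ
  v0 : ℕ
  u1 : ℕ
  v1 : ℕ
  full : Bool
  mu : ℤ
  od : List ℕ

/-- `⌊a n / p⌋` in the cell -/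
def Cell.fl (c : Cell) (a : ℕ) : ℕ := a * c.v1 / c.u1

/-- weight of a threshold in `e` -/
def wtE : ℕ → ℤ
  | 2 => 3
  | 3 => 2
  | 10 => -2
  | _ => 0

/-- weight of a threshold in the number of sites in `(2n, 10n]` -/
def wtS : ℕ → ℤ
  | 2 => -1
  | 10 => 1
  | _ => 0

/-- cost of a class with exponent `e` and `s` sites in `(2n, 10n]` -/
def Cell.cost (c : Cell) (e s : ℤ) : ℤ :=
  if c.full then TT (2 - e - c.mu) else if 2 ≤ s then TT (2 - e - c.mu) else 0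

/-- base exponent -/
def Cell.e0 (c : Cell) : ℤ := 2 * (c.fl 7 : ℤ) + 2 * (c.fl 3 : ℤ) - 2 * (c.fl 10 : ℤ)

/-- the cost of the classes: pair `(A, B)` meaning `A n + B p`. `a`: last threshold passed (`0` at the start),
`e, s`: exponent and number of sites on the next interval -/
def Cell.go (c : Cell) : ℕ → ℤ → ℤ → List ℕ → ℤ × ℤ
  | a, e, s, [] => (- (a : ℤ) * c.cost e s, (1 + (c.fl a : ℤ)) * c.cost e s)
  | a, e, s, b :: l =>
    let r := c.go b (e - wtE b) (s - wtS b) l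
    (r.1 + ((b : ℤ) - a) * c.cost e s, r.2 - ((c.fl b : ℤ) - c.fl a) * c.cost e s)

/-- exponent of the cell: `AB.1 n + AB.2 p` -/
def Cell.AB (c : Cell) : ℤ × ℤ :=
  let r := c.go 0 (c.e0 + 3) ((c.fl 10 : ℤ) - c.fl 2) c.od
  (r.1 + 4 * c.mu, r.2)

/-- the factorial part -/
def Cell.sf (c : Cell) : ℤ × ℤ := (8 * (c.fl 4 : ℤ), - ((c.fl 4 : ℤ) * (c.fl 4 + 1)))

/-- validity of a cell -/
def Cell.ok (c : Cell) : Bool :=
  decide (0 < c.u0) && decide (0 < c.v0) && decide (0 < c.u1) && decide (0 < c.v1) &&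
  decide (c.u0 * c.v1 < c.u1 * c.v0) &&
  ([2, 3, 4, 7, 10].all fun a => decide (a * c.v0 ≤ (c.fl a + 1) * c.u0)) &&
  (c.od.isPerm [2, 3, 10]) &&
  ((List.zip c.od (c.od.drop 1)).all fun x =>
    decide (0 ≤ ((x.2 : ℤ) - x.1) * c.v0 - ((c.fl x.2 : ℤ) - c.fl x.1) * c.u0) &&
    decide (0 ≤ ((x.2 : ℤ) - x.1) * c.v1 - ((c.fl x.2 : ℤ) - c.fl x.1) * c.u1)) &&
  (c.full || decide (3 * (c.fl 2 : ℤ) - 2 * (c.fl 7 : ℤ) ≤ c.mu))

/-- limit for a cell -/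
def Cell.lim (c : Cell) : ℚ :=
  ((c.AB.1 + c.sf.1 : ℤ) : ℚ) * ((c.u1 : ℚ) / c.v1 - (c.u0 : ℚ) / c.v0) +
    ((c.AB.2 + c.sf.2 : ℤ) : ℚ) * (((c.u1 : ℚ) / c.v1) ^ 2 - ((c.u0 : ℚ) / c.v0) ^ 2) / 2

/-! ### Local objects for the non-vanishing at `n = p` -/

/-- local power series at the pole `j`, sites `j = 3, …, 9`, triple zeros at the sites `0, 1` -/
def ser (j e : ℕ) : PowerSeries ℚ :=
  ((PowerSeries.X + PowerSeries.C (-(j : ℚ))) * (PowerSeries.X + PowerSeries.C (1 - (j : ℚ)))) ^ 3 *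
  (∏ b ∈ (Finset.Icc 3 9).erase j, iv ((b : ℚ) - j) ^ 2) * (PowerSeries.X + PowerSeries.C (-(j : ℚ))) ^ e

/-- local functional on monomials -/
def Fm (e : ℕ) : ℚ :=
  - ∑ j ∈ Finset.Icc 3 9, (6 * PowerSeries.coeff 0 (ser j e) * hs 4 (j - 2) +
    2 * PowerSeries.coeff 1 (ser j e) * hs 3 (j - 2))

/-- the other classes, with multiplicity `c` -/
def OT (p r c : ℕ) : ℚ[X] := ∏ r' ∈ (Finset.Icc 1 p).erase r, (X + C (r' : ℚ)) ^ c

end

end Pool.Agent.ZF
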