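import Pool.Agent.H387R3.ZF.Defs

/-! E1: floors in a cell (helper92, after helper972). -/

open Polynomial Pool.Agent.H337R2 Filter Topology

namespace Pool.Agent.ZF

/-- floors in a cell -/
theorem E1_fl {c : Cell} (hc : c.ok = true) {n p : ℕ} (hp : 0 < p) (h0 : c.u0 * n < p * c.v0)
    (h1 : p * c.v1 ≤ c.u1 * n) {a : ℕ} (ha : a ∈ [2, 3, 4, 7, 10]) : a * n / p = c.fl a := by
  have _ := hp
  unfold Cell.ok at hc
  simp only [Bool.and_eq_true, decide_eq_true_eq] at hc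
  obtain ⟨⟨⟨⟨⟨⟨⟨⟨k1, k2⟩, k3⟩, k4⟩, k5⟩, k6⟩, k7⟩, k8⟩, k9⟩ := hc
  rw [List.all_eq_true] at k6
  have k10 := k6 a ha
  rw [decide_eq_true_eq] at k10
  apply Nat.div_eq_of_lt_le
  · -- fl a * p ≤ a * n
    have e1 : c.fl a * c.u1 ≤ a * c.v1 := Nat.div_mul_le_self _ _
    have e2 : (c.fl a * p) * c.u1 ≤ (a * n) * c.u1 := by
      calc (c.fl a * p) * c.u1 = (c.fl a * c.u1) * p := by ring
        _ ≤ (a * c.v1) * p := Nat.mul_le_mul_right _ e1
        _ = a * (p * c.v1) := by ring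
        _ ≤ a * (c.u1 * n) := Nat.mul_le_mul_left _ h1
        _ = (a * n) * c.u1 := by ring
    exact Nat.le_of_mul_le_mul_right e2 k3
  · have e2 : (a * n) * c.v0 < ((c.fl a + 1) * p) * c.v0 := by
      calc (a * n) * c.v0 = (a * c.v0) * n := by ring
        _ ≤ ((c.fl a + 1) * c.u0) * n := Nat.mul_le_mul_right _ k10
        _ = (c.fl a + 1) * (c.u0 * n) := by ring
        _ < (c.fl a + 1) * (p * c.v0) := Nat.mul_lt_mul_of_pos_left h0 (Nat.succ_pos _)
        _ = ((c.fl a + 1) * p) * c.v0 := by ring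
    exact Nat.lt_of_mul_lt_mul_right e2

end Pool.Agent.ZF
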