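import Pool.Agent.H387R3.ZF.Defs
import Pool.Agent.H337R2.LZ.F4

set_option autoImplicit false

open Polynomial Pool.Agent.H337R2 Filter Topology

namespace Pool.Agent.ZF

theorem F4x_fl_eq {c : Cell} {n p a : ℕ} (h0 : c.u0 * n < p * c.v0)
    (h1 : p * c.v1 ≤ c.u1 * n) (hv1 : 0 < c.v1)
    (ha : a * c.v0 ≤ (c.fl a + 1) * c.u0) : a * n / p = c.fl a := by
  have hp : 0 < p := by
    rcases Nat.eq_zero_or_pos p with h | h
    · subst h; omega
    · exact h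
  apply Nat.div_eq_of_lt_le
  · -- fl a * p ≤ a n
    have h2 : c.fl a * c.u1 ≤ a * c.v1 := Nat.div_mul_le_self _ _
    have h3 : (c.fl a * p) * c.v1 ≤ (a * n) * c.v1 := by
      calc (c.fl a * p) * c.v1 = c.fl a * (p * c.v1) := by ring
        _ ≤ c.fl a * (c.u1 * n) := Nat.mul_le_mul_left _ h1
        _ = (c.fl a * c.u1) * n := by ring
        _ ≤ (a * c.v1) * n := Nat.mul_le_mul_right _ h2
        _ = (a * n) * c.v1 := by ring
    exact Nat.le_of_mul_le_mul_right h3 hv1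
  · have h3 : (a * n) * c.v0 < ((c.fl a + 1) * p) * c.v0 := by
      calc (a * n) * c.v0 = (a * c.v0) * n := by ring
        _ ≤ ((c.fl a + 1) * c.u0) * n := Nat.mul_le_mul_right _ ha
        _ = (c.fl a + 1) * (c.u0 * n) := by ring
        _ < (c.fl a + 1) * (p * c.v0) := Nat.mul_lt_mul_of_pos_left h0 (Nat.succ_pos _)
        _ = _ := by ring
    exact Nat.lt_of_mul_lt_mul_right h3

/-- the factorial part in a cell -/
theorem F4_sf {c : Cell} (hc : c.ok = true) {n p : ℕ} (hn : 1 ≤ n) (hp : 0 < p) (h0 : c.u0 * n < p * c.v0)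
    (h1 : p * c.v1 ≤ c.u1 * n) :
    ((2 * ∑ i ∈ Finset.range (4 * n), (i / p) : ℕ) : ℤ) = c.sf.1 * n + c.sf.2 * p := by
  unfold Cell.ok at hc
  simp only [Bool.and_eq_true, decide_eq_true_eq, List.all_cons, List.all_nil] at hc
  obtain ⟨⟨⟨⟨⟨⟨⟨⟨hu0, hv0⟩, hu1⟩, hv1⟩, huv⟩, hfl⟩, _⟩, _⟩, _⟩ := hc
  have e4 := F4x_fl_eq (a := 4) h0 h1 hv1 (by omega)
  have s4 := Pool.Agent.LZ.F4x.sum_div p hp (4 * n)
  rw [e4] at s4
  unfold Cell.sf
  rw [Nat.cast_mul]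
  push_cast at s4 ⊢
  linear_combination s4

end Pool.Agent.ZF
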