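import Pool.Agent.H387R3.ZF.Defs
import Pool.Agent.H337R2.LZ.F5

set_option autoImplicit false

open Polynomial Pool.Agent.H337R2 Filter Topology

namespace Pool.Agent.ZF

/-- factorials: the small prime part -/
theorem F5_fact : ∀ᶠ n : ℕ in atTop,
    ∑ p ∈ (Finset.range (n + 1)).filter (fun p : ℕ => p.Prime ∧ 40 * p ≤ n),
      2 * ∑ i ∈ Finset.range (4 * n), Real.log ((padicNorm p ((i.factorial : ℕ) : ℚ) : ℚ) : ℝ) ≤
    - (2 * ∑ i ∈ Finset.range (4 * n), Real.log (i.factorial : ℝ)) +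
      ∑ p ∈ PR (1 / 40) 10 n, ((2 * ∑ i ∈ Finset.range (4 * n), (i / p) : ℕ) : ℝ) * Real.log p := by
  filter_upwards [eventually_ge_atTop 30000] with n hn
  have h1 := Pool.Agent.LZ.F5_part n (4 * n) hn (by omega)
  rw [← Finset.mul_sum]
  have h2 : ∑ p ∈ PR (1 / 40) 10 n,
        ((2 * ∑ i ∈ Finset.range (4 * n), (i / p) : ℕ) : ℝ) * Real.log p =
      2 * ∑ p ∈ Pool.Agent.LZ.PR (1 / 40) 14 n,
        ((∑ i ∈ Finset.range (4 * n), (i / p) : ℕ) : ℝ) * Real.log p := by
    have h3 : ∑ p ∈ Pool.Agent.LZ.PR (1 / 40) 10 n,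
        ((∑ i ∈ Finset.range (4 * n), (i / p) : ℕ) : ℝ) * Real.log p =
        ∑ p ∈ Pool.Agent.LZ.PR (1 / 40) 14 n,
        ((∑ i ∈ Finset.range (4 * n), (i / p) : ℕ) : ℝ) * Real.log p := by
      refine Finset.sum_subset ?_ ?_
      · intro p hp
        unfold Pool.Agent.LZ.PR at hp ⊢
        rw [Finset.mem_filter] at hp ⊢
        obtain ⟨a, b, c, d⟩ := hp
        refine ⟨a, b, c, d.trans ?_⟩
        have : (0 : ℚ) ≤ n := by positivity
        linarith
      · intro p hp hp2
        unfold Pool.Agent.LZ.PR at hp hp2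
        rw [Finset.mem_filter] at hp hp2
        obtain ⟨a, b, c, d⟩ := hp
        have h4 : ¬ ((p : ℚ) ≤ 10 * n) := fun h => hp2 ⟨a, b, c, h⟩
        have h5 : 10 * n < p := by
          rw [not_le] at h4
          exact_mod_cast h4
        have h6 : ∑ i ∈ Finset.range (4 * n), (i / p) = 0 := by
          refine Finset.sum_eq_zero fun i hi => ?_
          rw [Finset.mem_range] at hi
          exact Nat.div_eq_of_lt (by omega)
        rw [h6]
        simp
    rw [← h3, Finset.mul_sum]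
    refine Finset.sum_congr rfl fun p _ => ?_
    push_cast
    ring
  rw [h2]
  linarith

end Pool.Agent.ZF
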