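import Mathlib
import Pool.Agent.H337R2.LZ.F6

/-! Task F6: lower bound for the superfactorials (twin of `LZ/F6.lean`). -/

open Filter Topology

namespace Pool.Agent.ZF

noncomputable section

/-- `16 log 4 - 24 = -1.8193` -/
theorem F6_superfac : ∀ ε : ℝ, 0 < ε → ∀ᶠ n : ℕ in atTop,
    16 * (n : ℝ) ^ 2 * Real.log n - (182 / 100 + ε) * (n : ℝ) ^ 2 ≤
      2 * ∑ i ∈ Finset.range (4 * n), Real.log (i.factorial : ℝ) := by
  intro ε hε
  have hlog : Tendsto (fun x : ℝ => Real.log x / x) atTop (𝓝 0) := by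
    have := Real.isLittleO_log_id_atTop.tendsto_div_nhds_zero
    simpa using this
  have h4 : Tendsto (fun n : ℕ => (4 * (n : ℝ))) atTop atTop :=
    tendsto_natCast_atTop_atTop.const_mul_atTop (by norm_num)
  have hl2 := (hlog.comp h4).eventually (gt_mem_nhds (show (0 : ℝ) < ε / 32 by positivity))
  filter_upwards [hl2, eventually_ge_atTop 1] with n h1 hn
  have hn' : (1 : ℝ) ≤ n := by exact_mod_cast hn
  have hn0 : (0 : ℝ) < n := by linarith
  have h2 := Pool.Agent.LZ.F6_low (K := 4 * n) (by omega)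
  have l4 : Real.log 4 = 2 * Real.log 2 := by
    rw [show (4 : ℝ) = 2 ^ 2 by norm_num, Real.log_pow]; norm_num
  have e4 : Pool.Agent.LZ.F6_G ((4 * n : ℕ) : ℝ) = 8 * (n : ℝ) ^ 2 * Real.log n +
      (16 * Real.log 2 - 12) * (n : ℝ) ^ 2 := by
    unfold Pool.Agent.LZ.F6_G
    push_cast
    rw [Real.log_mul (by norm_num) hn0.ne', l4]
    ring
  rw [e4] at h2
  push_cast at h2
  have h8 : Real.log (4 * n) < ε / 32 * (4 * n) := by
    have h9 : Real.log (4 * (n : ℝ)) / (4 * n) < ε / 32 := h1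
    rwa [div_lt_iff₀ (by positivity)] at h9
  have h10 : (4 * (n : ℝ)) * Real.log (4 * n) ≤ ε / 2 * (n : ℝ) ^ 2 := by
    have := mul_le_mul_of_nonneg_left h8.le (show (0 : ℝ) ≤ 4 * n by positivity)
    refine this.trans (le_of_eq ?_)
    ring
  have h11 : (-(91 / 100) : ℝ) ≤ 16 * Real.log 2 - 12 := by
    have := Real.log_two_gt_d9
    linarith
  have h12 := mul_le_mul_of_nonneg_right h11 (show (0 : ℝ) ≤ (n : ℝ) ^ 2 by positivity)
  nlinarith [h2, h10, h12]

end

end Pool.Agent.ZF
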