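import Pool.Agent.H387R3.ZF.Defs
import Pool.Agent.H336R2.HD.H1

/-! Task H3: the diagonal blocks; `C1_pa` and `H2_pa` enter as hypotheses (adapted from
`H337R2.LZ.H3pre` of helper259). -/

open Polynomial Pool.Agent.H337R2

namespace Pool.Agent.ZF.H3

noncomputable section

variable {p : ℕ} [hp : Fact p.Prime]

/-! ### the exponent `eF` -/

theorem eF_val (k : ℕ) : eF p p k = 0 := by
  have hp0 : 0 < p := hp.out.pos
  have hpz : (p : ℤ) ≠ 0 := by exact_mod_cast hp0.ne'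
  have e0 : (cnt p 1 (2 * p) k : ℤ) = 2 := by
    rw [cnt_eq p 1 (2 * p) k hp0 (by omega),
      show ((2 * p : ℕ) : ℤ) - k = -(k : ℤ) + p * 2 by push_cast; ring,
      show ((1 : ℕ) : ℤ) - 1 - k = -(k : ℤ) by push_cast; ring,
      Int.add_mul_ediv_left _ _ hpz]
    ring
  have e1 : (cnt p (3 * p + 1) (10 * p) k : ℤ) = 7 := by
    rw [cnt_eq p (3 * p + 1) (10 * p) k hp0 (by omega)]
    push_cast
    rw [show (10 : ℤ) * p - k = (3 * (p : ℤ) + 1 - 1 - (k : ℤ)) + p * 7 by ring,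
      Int.add_mul_ediv_left _ _ hpz]
    ring
  unfold eF
  rw [e0, e1, Nat.mul_div_cancel _ hp0, Nat.mul_div_cancel _ hp0]
  norm_num

/-! ### the numerator -/

/-- the polynomial -/
def Qr (p r e : ℕ) : ℚ[X] := (X + C (r : ℚ)) ^ e * OT p r 8

theorem inv0 : (0 : ℚ) ≤ (p : ℚ)⁻¹ := inv_nonneg.2 p_pos'.le

theorem one_le_p : (1 : ℚ) ≤ p := by exact_mod_cast hp.out.one_lt.le

theorem PB_lin1 (a : ℤ) (k : ℕ) : PB p (p : ℚ) 1 (TS (-(k : ℚ)) (X + C (a : ℚ))) := by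
  rw [TS_lin]
  apply PB.linX p_pos'.le zero_le_one
  · have := padicNorm.of_int (p := p) (-(k : ℤ) + a)
    push_cast at this
    exact this
  · rw [one_mul]; exact one_le_p

theorem PB_linp (a : ℤ) (k : ℕ) (h : (p : ℤ) ∣ a - k) :
    PB p (p : ℚ) (p : ℚ)⁻¹ (TS (-(k : ℚ)) (X + C (a : ℚ))) := by
  rw [TS_lin]
  apply PB.linX p_pos'.le inv0
  · have := norm_le_ite (p := p) (a - k)
    rw [if_pos h] at this
    rw [show -(k : ℚ) + a = ((a - k : ℤ) : ℚ) by push_cast; ring]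
    exact this
  · rw [inv_mul_cancel₀ p_pos'.ne']

theorem PB_Xr (r k : ℕ) : PB p (p : ℚ) 1 (TS (-(k : ℚ)) (X + C (r : ℚ))) := by
  have h1 := PB_lin1 (p := p) (r : ℤ) k
  push_cast at h1
  exact h1

theorem PB_Xrp (r k : ℕ) (h : (p : ℤ) ∣ (k : ℤ) - r) :
    PB p (p : ℚ) (p : ℚ)⁻¹ (TS (-(k : ℚ)) (X + C (r : ℚ))) := by
  have h1 := PB_linp (p := p) (r : ℤ) k (by
      rw [show (r : ℤ) - k = -((k : ℤ) - r) by ring, dvd_neg]; exact h)
  push_cast at h1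
  exact h1

/-- all factors with individual bounds -/
theorem PB_EE (c r e k : ℕ) (ar : ℚ) (a : ℕ → ℚ) (hr : 0 ≤ ar) (ha : ∀ r', 0 ≤ a r')
    (br : PB p (p : ℚ) ar (TS (-(k : ℚ)) (X + C (r : ℚ))))
    (b : ∀ r' ∈ (Finset.Icc 1 p).erase r,
      PB p (p : ℚ) (a r') (TS (-(k : ℚ)) (X + C (r' : ℚ)))) :
    PB p (p : ℚ) (ar ^ e * ∏ r' ∈ (Finset.Icc 1 p).erase r, a r' ^ c)
      (TS (-(k : ℚ)) ((X + C (r : ℚ)) ^ e * OT p r c)) := by
  unfold OT
  rw [map_mul, map_pow, map_prod]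
  simp only [map_pow]
  have h1 := PB.prod (p := p) ((Finset.Icc 1 p).erase r) (fun r' => a r' ^ c)
    (fun r' => (TS (-(k : ℚ)) (X + C (r' : ℚ))) ^ c) p_pos'.le
    (fun r' _ => pow_nonneg (ha r') _) (fun r' hr' => PB.pow p_pos'.le (ha r') (b r' hr') c)
  exact PB.mul p_pos'.le (pow_nonneg hr _)
    (Finset.prod_nonneg fun r' _ => pow_nonneg (ha r') _) (PB.pow p_pos'.le hr br e) h1

theorem PB_near (c r e k : ℕ) (h : (p : ℤ) ∣ (k : ℤ) - r) :
    PB p (p : ℚ) ((p : ℚ)⁻¹ ^ e) (TS (-(k : ℚ)) ((X + C (r : ℚ)) ^ e * OT p r c)) := by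
  have := PB_EE (p := p) c r e k (p : ℚ)⁻¹ (fun _ => 1) inv0 (fun _ => zero_le_one)
    (PB_Xrp r k h) (fun r' _ => PB_Xr r' k)
  simpa using this

theorem PB_far (c r e k r'' : ℕ) (hr'' : r'' ∈ Finset.Icc 1 p) (hne : r'' ≠ r)
    (h : (p : ℤ) ∣ (k : ℤ) - r'') :
    PB p (p : ℚ) ((p : ℚ)⁻¹ ^ c) (TS (-(k : ℚ)) ((X + C (r : ℚ)) ^ e * OT p r c)) := by
  classical
  have := PB_EE (p := p) c r e k 1 (fun r' => if r' = r'' then (p : ℚ)⁻¹ else 1)
    zero_le_one (fun r' => by split_ifs; exacts [inv0, zero_le_one]) (PB_Xr r k)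
    (fun r' _ => by
      split_ifs with h'
      · rw [h']; exact PB_Xrp r'' k h
      · exact PB_Xr r' k)
  have h2 : ∏ r' ∈ (Finset.Icc 1 p).erase r, (if r' = r'' then (p : ℚ)⁻¹ else 1) ^ c =
      (p : ℚ)⁻¹ ^ c := by
    rw [Finset.prod_eq_single r'']
    · rw [if_pos rfl]
    · intro b _ hb
      rw [if_neg hb, one_pow]
    · intro h3
      exact absurd (Finset.mem_erase.2 ⟨hne, hr''⟩) h3
  rw [h2] at this
  simpa using this

theorem exists_rep (k : ℕ) : ∃ r'' ∈ Finset.Icc 1 p, (p : ℤ) ∣ (k : ℤ) - r'' := by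
  have hp0 := hp.out.pos
  have hm := Nat.mod_lt k hp0
  have hdm := Nat.div_add_mod k p
  have hdz : (k : ℤ) = p * ((k / p : ℕ) : ℤ) + ((k % p : ℕ) : ℤ) := by exact_mod_cast hdm.symm
  by_cases h : k % p = 0
  · refine ⟨p, Finset.mem_Icc.2 ⟨by omega, le_rfl⟩, ((k / p : ℕ) : ℤ) - 1, ?_⟩
    rw [h, Nat.cast_zero, add_zero] at hdz
    rw [mul_sub, mul_one, ← hdz]
  · refine ⟨k % p, Finset.mem_Icc.2 ⟨by omega, by omega⟩, ((k / p : ℕ) : ℤ), ?_⟩
    linarith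

/-- statement of `C1_pa` for `n = p` -/
def C1st (p : ℕ) : Prop := ∀ (E : ℚ[X]) (k : ℕ), k ∈ sF p → ∀ (A : ℚ), 0 ≤ A →
  PB p (p : ℚ) A (TS (-(k : ℚ)) E) → ∀ i : ℕ,
    padicNorm p (pa (sF p) mF (PF p * E) k i) ≤ (p : ℚ) ^ (-eF p p k - i : ℤ) * A

/-- the coefficients -/
def cf (p r e k i : ℕ) : ℚ := pa (sF p) mF (PF p * Qr p r e) k i

/-- bound of the coefficients in the class of `r` -/
theorem pa_near (hC : C1st p) (r e k i : ℕ) (hk : k ∈ sF p) (h : (p : ℤ) ∣ (k : ℤ) - r) :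
    padicNorm p (cf p r e k i) ≤ (p : ℚ) ^ (-(i : ℤ) - e) := by
  have h1 := hC (Qr p r e) k hk _ (pow_nonneg inv0 e) (PB_near 8 r e k h) i
  refine h1.trans (le_of_eq ?_)
  rw [eF_val k, inv_pow, ← zpow_natCast, ← zpow_neg, ← zpow_add₀ p_pos'.ne']
  congr 1
  ring

/-- bound of the coefficients in the other classes -/
theorem pa_far (hC : C1st p) (r e k i : ℕ) (hk : k ∈ sF p) (h : ¬ (p : ℤ) ∣ (k : ℤ) - r) :
    padicNorm p (cf p r e k i) ≤ (p : ℚ) ^ (-(i : ℤ) - 8) := by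
  obtain ⟨r'', hr'', h''⟩ := exists_rep (p := p) k
  have h1 := hC (Qr p r e) k hk _ (pow_nonneg inv0 8)
    (PB_far 8 r e k r'' hr'' (fun e => h (e ▸ h'')) h'') i
  refine h1.trans (le_of_eq ?_)
  rw [eF_val k, inv_pow, ← zpow_natCast, ← zpow_neg, ← zpow_add₀ p_pos'.ne']
  congr 1
  push_cast
  ring

/-! ### splitting the sum over the poles -/

omit hp in
theorem sum_split {r : ℕ} (hp0 : 0 < p) (hr1 : 1 ≤ r) (hr2 : r ≤ p) : ∃ S ⊆ sF p,
    (∀ k ∈ S, ∀ j ∈ Finset.Icc 3 9, k ≠ r + j * p) ∧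
    ∀ g : ℕ → ℚ, ∑ k ∈ sF p, g k =
      (∑ j ∈ Finset.Icc 3 9, g (r + j * p)) + ∑ k ∈ S, g k := by
  classical
  have hb : ∀ j ∈ Finset.Icc 3 9, 3 * p ≤ j * p ∧ j * p ≤ 9 * p := fun j hj => by
    rw [Finset.mem_Icc] at hj
    exact ⟨Nat.mul_le_mul_right p hj.1, Nat.mul_le_mul_right p hj.2⟩
  have hsub : (Finset.Icc 3 9).image (fun j => r + j * p) ⊆ sF p := by
    intro k hk
    rw [Finset.mem_image] at hk
    rw [Finset.mem_Icc]
    obtain ⟨j, hj, rfl⟩ := hk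
    have := hb j hj
    omega
  refine ⟨sF p \ (Finset.Icc 3 9).image (fun j => r + j * p), Finset.sdiff_subset, ?_, ?_⟩
  · intro k hk j hj
    rw [Finset.mem_sdiff] at hk
    exact fun h => hk.2 (Finset.mem_image.2 ⟨j, hj, h.symm⟩)
  · intro g
    have h1 : ∑ j ∈ Finset.Icc 3 9, g (r + j * p) =
        ∑ k ∈ (Finset.Icc 3 9).image (fun j => r + j * p), g k := by
      rw [Finset.sum_image]
      intro a _ b _ hab
      have : a * p = b * p := by simpa using hab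
      exact Nat.eq_of_mul_eq_mul_right (by omega) this
    rw [h1, add_comm]
    exact (Finset.sum_sdiff hsub).symm

theorem rest_class {r k : ℕ} (hr1 : 1 ≤ r) (hr2 : r ≤ p) (hk : k ∈ sF p)
    (h : ∀ j ∈ Finset.Icc 3 9, k ≠ r + j * p) :
    ¬ (p : ℤ) ∣ (k : ℤ) - r := by
  have hp0 := hp.out.pos
  rw [Finset.mem_Icc] at hk
  obtain ⟨h1, h2⟩ := hk
  rintro ⟨m, hm⟩
  have hm' : (k : ℤ) = r + p * m := by linarith
  have h3 : 2 < m := by
    by_contra hcon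
    push Not at hcon
    have := mul_le_mul_of_nonneg_left hcon (by positivity : (0 : ℤ) ≤ p)
    have h1' : (3 : ℤ) * p + 1 ≤ k := by exact_mod_cast h1
    have h2' : (r : ℤ) ≤ p := by exact_mod_cast hr2
    linarith
  have h4 : m < 10 := by
    by_contra hcon
    push Not at hcon
    have := mul_le_mul_of_nonneg_left hcon (by positivity : (0 : ℤ) ≤ p)
    have h1' : (k : ℤ) ≤ 10 * p := by exact_mod_cast h2
    have h2' : (1 : ℤ) ≤ r := by exact_mod_cast hr1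
    linarith
  have h5 := h m.toNat (by rw [Finset.mem_Icc]; omega)
  apply h5
  have h6 : ((m.toNat : ℕ) : ℤ) = m := Int.toNat_of_nonneg (by omega)
  have : (k : ℤ) = ((r + m.toNat * p : ℕ) : ℤ) := by
    push_cast
    rw [h6, hm']
    ring
  exact_mod_cast this

/-! ### small facts on norms -/

theorem nadd {a b c : ℚ} (ha : padicNorm p a ≤ c) (hb : padicNorm p b ≤ c) :
    padicNorm p (a + b) ≤ c := padicNorm.nonarchimedean.trans (max_le ha hb)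

theorem nsub {a b c : ℚ} (ha : padicNorm p a ≤ c) (hb : padicNorm p b ≤ c) :
    padicNorm p (a - b) ≤ c := padicNorm.sub.trans (max_le ha hb)

theorem nmul {a b x y : ℚ} (ha : padicNorm p a ≤ x) (hb : padicNorm p b ≤ y) :
    padicNorm p (a * b) ≤ x * y := by
  rw [padicNorm.mul]
  exact mul_le_mul ha hb (padicNorm.nonneg _) ((padicNorm.nonneg _).trans ha)

theorem norm_ppow (m : ℕ) : padicNorm p ((p : ℚ) ^ m) = (p : ℚ) ^ (-(m : ℤ)) := by
  rw [padicNorm_pow', padicNorm.padicNorm_p_of_prime, inv_pow, zpow_neg, zpow_natCast]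

theorem norm_pneg (m : ℕ) : padicNorm p ((p : ℚ) ^ (-(m : ℤ))) = (p : ℚ) ^ (m : ℤ) := by
  rw [zpow_neg, zpow_natCast, inv_eq_one_div, padicNorm.div, padicNorm.one, norm_ppow, one_div,
    zpow_neg, inv_inv, zpow_natCast]

/-- statement of `H2_pa` -/
def H2st (p r : ℕ) : Prop :=
  ∃ w : ℚ, padicNorm p w = 1 ∧ ∀ e j i : ℕ, e ≤ 6 → 3 ≤ j → j ≤ 9 → 1 ≤ i → i ≤ 2 →
    padicNorm p (pa (sF p) mF (PF p * ((X + C (r : ℚ)) ^ e * OT p r 8)) (r + j * p) i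
      / (p : ℚ) ^ (i + e) -
      w * PowerSeries.coeff (2 - i) (ser j e)) ≤ (p : ℚ)⁻¹

omit hp in
theorem class_mem {r j : ℕ} (hr1 : 1 ≤ r) (hr2 : r ≤ p) (hj : j ∈ Finset.Icc 3 9) :
    r + j * p ∈ sF p := by
  rw [Finset.mem_Icc] at hj ⊢
  have h1 : 3 * p ≤ j * p := Nat.mul_le_mul_right p hj.1
  have h2 : j * p ≤ 9 * p := Nat.mul_le_mul_right p hj.2
  omega

/-- normalised coefficient is integral -/
theorem cf_norm (hC : C1st p) {r e i j : ℕ} (hr1 : 1 ≤ r) (hr2 : r ≤ p)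
    (hj : j ∈ Finset.Icc 3 9) : padicNorm p (cf p r e (r + j * p) i / (p : ℚ) ^ (i + e)) ≤ 1 := by
  have hka := pa_near (p := p) hC r e (r + j * p) i (class_mem hr1 hr2 hj)
    ⟨j, by push_cast; ring⟩
  rw [padicNorm.div, norm_ppow, div_le_one (zpow_pos p_pos' _)]
  refine hka.trans (le_of_eq ?_)
  congr 1
  push_cast
  ring

/-- norm of the scaling factor -/
theorem norm_scale (e : ℕ) : padicNorm p ((p : ℚ) ^ (2 - (e : ℤ))) = (p : ℚ) ^ ((e : ℤ) - 2) := by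
  rw [zpow_sub₀ p_pos'.ne', padicNorm.div]
  have h1 : padicNorm p ((p : ℚ) ^ (2 : ℤ)) = (p : ℚ) ^ (-2 : ℤ) := by
    have := norm_ppow (p := p) 2
    exact_mod_cast this
  rw [h1, zpow_natCast, norm_ppow, ← zpow_sub₀ p_pos'.ne']
  congr 1
  ring

/-- the contribution of one near pole, with a harmonic number -/
theorem near_term (hC : C1st p) (hp30 : 30 ≤ p) {r e i j : ℕ} (hr1 : 1 ≤ r) (hr2 : r ≤ p)
    (hj : j ∈ Finset.Icc 3 9) (γ : ℚ)
    (hγ : padicNorm p (cf p r e (r + j * p) i / (p : ℚ) ^ (i + e) - γ) ≤ (p : ℚ)⁻¹) :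
    padicNorm p ((p : ℚ) ^ (2 - (e : ℤ)) *
      (cf p r e (r + j * p) i * hs (i + 2) (r + j * p - 2 * p - 1)) -
      γ * hs (i + 2) (j - 2)) ≤ (p : ℚ)⁻¹ := by
  have hj' := Finset.mem_Icc.1 hj
  have e1 : r + j * p - 2 * p - 1 = (j - 2) * p + (r - 1) := by
    have h1 : (j - 2) * p + 2 * p = j * p := by
      rw [← Nat.add_mul]
      congr 1
      omega
    omega
  have hA1 := cf_norm (p := p) hC (e := e) (i := i) hr1 hr2 hj
  rw [e1]
  set a := cf p r e (r + j * p) i with ha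
  set A := a / (p : ℚ) ^ (i + e) with hA
  have haA : (p : ℚ) ^ (2 - (e : ℤ)) * a = A * (p : ℚ) ^ (i + 2) := by
    rw [hA, zpow_sub₀ p_pos'.ne', zpow_natCast, pow_add]
    have h1 : (p : ℚ) ^ i ≠ 0 := pow_ne_zero _ p_pos'.ne'
    have h2 : (p : ℚ) ^ e ≠ 0 := pow_ne_zero _ p_pos'.ne'
    have h3 : ((p : ℚ) ^ (2 : ℤ)) = (p : ℚ) ^ 2 := by norm_cast
    rw [h3, pow_add]
    field_simp
  have hb := Pool.Agent.H336R2.HD.H1_hs (p := p) (r - 1) (j - 2) (i + 2) (by omega) (by omega)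
    (by omega)
  have hH := hs_norm_small (p := p) (i + 2) (j - 2) (by omega)
  have key : (p : ℚ) ^ (2 - (e : ℤ)) * (a * hs (i + 2) ((j - 2) * p + (r - 1))) -
      γ * hs (i + 2) (j - 2) =
      A * ((p : ℚ) ^ (i + 2) * hs (i + 2) ((j - 2) * p + (r - 1)) - hs (i + 2) (j - 2)) +
        (A - γ) * hs (i + 2) (j - 2) := by
    linear_combination hs (i + 2) ((j - 2) * p + (r - 1)) * haA
  rw [key]
  refine nadd ?_ ?_
  · have := nmul hA1 hb
    rwa [one_mul] at this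
  · have := nmul hγ hH
    rwa [mul_one] at this

/-- the contribution of the other poles -/
theorem far_term (hC : C1st p) (hp30 : 30 ≤ p) {r e i k : ℕ} (he : e ≤ 6) (hk : k ∈ sF p)
    (h : ¬ (p : ℤ) ∣ (k : ℤ) - r) :
    padicNorm p ((p : ℚ) ^ (2 - (e : ℤ)) * (cf p r e k i * hs (i + 2) (k - 2 * p - 1))) ≤
      (p : ℚ)⁻¹ := by
  have hk' := Finset.mem_Icc.1 hk
  have h1 := pa_far (p := p) hC r e k i hk h
  have h2 := hs_norm_med (p := p) (i + 2) (k - 2 * p - 1) (by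
    have : k ≤ 10 * p := hk'.2
    have h3 : 30 * p ≤ p ^ 2 := by nlinarith
    omega)
  have h4 := nmul (norm_scale (p := p) e).le (nmul h1 h2)
  refine h4.trans ?_
  rw [← zpow_natCast (p : ℚ) (i + 2), ← zpow_add₀ p_pos'.ne', ← zpow_add₀ p_pos'.ne',
    ← zpow_neg_one]
  apply zpow_le_zpow_right₀ one_le_p
  push_cast
  omega

/-- the small contributions -/
theorem small_term (hC : C1st p) {r e i k : ℕ} (u : ℚ)
    (hu : padicNorm p u ≤ (p : ℚ) ^ (i + 1)) (he : e ≤ 6) (hk : k ∈ sF p) :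
    padicNorm p ((p : ℚ) ^ (2 - (e : ℤ)) * (cf p r e k i * u)) ≤ (p : ℚ)⁻¹ := by
  by_cases h : (p : ℤ) ∣ (k : ℤ) - r
  · have h1 := pa_near (p := p) hC r e k i hk h
    have h3 := nmul (norm_scale (p := p) e).le (nmul h1 hu)
    rw [← zpow_natCast (p : ℚ) (i + 1), ← zpow_add₀ p_pos'.ne', ← zpow_add₀ p_pos'.ne'] at h3
    refine h3.trans ?_
    rw [← zpow_neg_one]
    apply zpow_le_zpow_right₀ one_le_p
    push_cast
    omega
  · have h1 := pa_far (p := p) hC r e k i hk h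
    have h3 := nmul (norm_scale (p := p) e).le (nmul h1 hu)
    rw [← zpow_natCast (p : ℚ) (i + 1), ← zpow_add₀ p_pos'.ne', ← zpow_add₀ p_pos'.ne'] at h3
    refine h3.trans ?_
    rw [← zpow_neg_one]
    apply zpow_le_zpow_right₀ one_le_p
    push_cast
    omega

/-- norm of a natural number -/
theorem norm_nat (m : ℕ) : padicNorm p (m : ℚ) ≤ 1 := padicNorm.of_nat m

end

end Pool.Agent.ZF.H3

namespace Pool.Agent.ZF

open H3

theorem H3_of {p : ℕ} [Fact p.Prime] (hC : C1st p) (hp : 30 ≤ p) (α β : ℚ)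
    (hα : padicNorm p α ≤ 1) (hβ : padicNorm p β ≤ 1)
    (r : ℕ) (hr1 : 1 ≤ r) (hr2 : r ≤ p) (h2s : H2st p r) :
    ∃ w : ℚ, padicNorm p w = 1 ∧ ∀ e : ℕ, e ≤ 6 →
      padicNorm p ((p : ℚ) ^ (2 - (e : ℤ)) * NL p α β ((X + C (r : ℚ)) ^ e * OT p r 8) -
        w * Fm e) ≤ (p : ℚ)⁻¹ := by
  obtain ⟨w, hw1, hw⟩ := h2s
  refine ⟨w, hw1, fun e he => ?_⟩
  obtain ⟨S, hS, hSr, hsum⟩ := sum_split (p := p) (by omega) hr1 hr2
  show padicNorm p ((p : ℚ) ^ (2 - (e : ℤ)) * NL p α β (Qr p r e) - w * Fm e) ≤ _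
  have hN : (p : ℚ) ^ (2 - (e : ℤ)) * NL p α β (Qr p r e) - w * Fm e =
      ((∑ k ∈ sF p, (p : ℚ) ^ (2 - (e : ℤ)) *
          (cf p r e k 2 * (6 * α + β * (6 * hs 3 (k - 2 * p - 1))))) +
        ∑ k ∈ sF p, (p : ℚ) ^ (2 - (e : ℤ)) * (cf p r e k 1 * (β * (3 * hs 2 (k - 2 * p - 1))))) -
      ((∑ j ∈ Finset.Icc 3 9, (6 * ((p : ℚ) ^ (2 - (e : ℤ)) *
          (cf p r e (r + j * p) 2 * hs (2 + 2) (r + j * p - 2 * p - 1)) -
          (w * PowerSeries.coeff 0 (ser j e)) * hs (2 + 2) (j - 2)) +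
        2 * ((p : ℚ) ^ (2 - (e : ℤ)) *
          (cf p r e (r + j * p) 1 * hs (1 + 2) (r + j * p - 2 * p - 1)) -
          (w * PowerSeries.coeff 1 (ser j e)) * hs (1 + 2) (j - 2)))) +
        ∑ k ∈ S, (6 * ((p : ℚ) ^ (2 - (e : ℤ)) * (cf p r e k 2 * hs (2 + 2) (k - 2 * p - 1))) +
          2 * ((p : ℚ) ^ (2 - (e : ℤ)) * (cf p r e k 1 * hs (1 + 2) (k - 2 * p - 1))))) := by
    have h4e : h4 p (PF p * Qr p r e) =
        (∑ j ∈ Finset.Icc 3 9, (6 * cf p r e (r + j * p) 2 * hs 4 (r + j * p - 2 * p - 1) +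
          2 * cf p r e (r + j * p) 1 * hs 3 (r + j * p - 2 * p - 1))) +
        ∑ k ∈ S, (6 * cf p r e k 2 * hs 4 (k - 2 * p - 1) +
          2 * cf p r e k 1 * hs 3 (k - 2 * p - 1)) := hsum _
    have h2 : NL p α β (Qr p r e) = 6 * α * (∑ k ∈ sF p, cf p r e k 2) -
        h4 p (PF p * Qr p r e) +
        β * ∑ k ∈ sF p, (6 * cf p r e k 2 * hs 3 (k - 2 * p - 1) +
          3 * cf p r e k 1 * hs 2 (k - 2 * p - 1)) := by
      rw [NL_apply]
      rfl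
    have t1 : (∑ k ∈ sF p, (p : ℚ) ^ (2 - (e : ℤ)) *
          (cf p r e k 2 * (6 * α + β * (6 * hs 3 (k - 2 * p - 1))))) +
        ∑ k ∈ sF p, (p : ℚ) ^ (2 - (e : ℤ)) * (cf p r e k 1 * (β * (3 * hs 2 (k - 2 * p - 1)))) =
        (p : ℚ) ^ (2 - (e : ℤ)) * (6 * α * (∑ k ∈ sF p, cf p r e k 2)) +
        (p : ℚ) ^ (2 - (e : ℤ)) * (β * ∑ k ∈ sF p, (6 * cf p r e k 2 * hs 3 (k - 2 * p - 1) +
          3 * cf p r e k 1 * hs 2 (k - 2 * p - 1))) := by
      rw [← Finset.sum_add_distrib, Finset.mul_sum, Finset.mul_sum, Finset.mul_sum,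
        Finset.mul_sum, ← Finset.sum_add_distrib]
      refine Finset.sum_congr rfl fun k _ => ?_
      ring
    have t2 : (∑ j ∈ Finset.Icc 3 9, (6 * ((p : ℚ) ^ (2 - (e : ℤ)) *
          (cf p r e (r + j * p) 2 * hs (2 + 2) (r + j * p - 2 * p - 1)) -
          (w * PowerSeries.coeff 0 (ser j e)) * hs (2 + 2) (j - 2)) +
        2 * ((p : ℚ) ^ (2 - (e : ℤ)) *
          (cf p r e (r + j * p) 1 * hs (1 + 2) (r + j * p - 2 * p - 1)) -
          (w * PowerSeries.coeff 1 (ser j e)) * hs (1 + 2) (j - 2)))) =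
        (p : ℚ) ^ (2 - (e : ℤ)) * (∑ j ∈ Finset.Icc 3 9,
          (6 * cf p r e (r + j * p) 2 * hs 4 (r + j * p - 2 * p - 1) +
          2 * cf p r e (r + j * p) 1 * hs 3 (r + j * p - 2 * p - 1))) -
        w * ∑ j ∈ Finset.Icc 3 9, (6 * PowerSeries.coeff 0 (ser j e) * hs 4 (j - 2) +
          2 * PowerSeries.coeff 1 (ser j e) * hs 3 (j - 2)) := by
      rw [Finset.mul_sum, Finset.mul_sum, ← Finset.sum_sub_distrib]
      refine Finset.sum_congr rfl fun j _ => ?_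
      simp only [Nat.reduceAdd]
      ring
    have t3 : (∑ k ∈ S, (6 * ((p : ℚ) ^ (2 - (e : ℤ)) *
          (cf p r e k 2 * hs (2 + 2) (k - 2 * p - 1))) +
          2 * ((p : ℚ) ^ (2 - (e : ℤ)) * (cf p r e k 1 * hs (1 + 2) (k - 2 * p - 1))))) =
        (p : ℚ) ^ (2 - (e : ℤ)) * ∑ k ∈ S, (6 * cf p r e k 2 * hs 4 (k - 2 * p - 1) +
          2 * cf p r e k 1 * hs 3 (k - 2 * p - 1)) := by
      rw [Finset.mul_sum]
      refine Finset.sum_congr rfl fun k _ => ?_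
      simp only [Nat.reduceAdd]
      ring
    rw [t1, t2, t3, h2, h4e]
    unfold Fm
    ring
  rw [hN]
  have c6 : padicNorm p (6 : ℚ) ≤ 1 := by exact_mod_cast norm_nat (p := p) 6
  have c3 : padicNorm p (3 : ℚ) ≤ 1 := by exact_mod_cast norm_nat (p := p) 3
  have c2 : padicNorm p (2 : ℚ) ≤ 1 := by exact_mod_cast norm_nat (p := p) 2
  have hsz : ∀ (i : ℕ) (k : ℕ), k ∈ sF p → padicNorm p (hs i (k - 2 * p - 1)) ≤ (p : ℚ) ^ i := by
    intro i k hk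
    refine hs_norm_med (p := p) i _ ?_
    have : k ≤ 10 * p := (Finset.mem_Icc.1 hk).2
    have h3 : 30 * p ≤ p ^ 2 := by nlinarith
    omega
  have m1 : ∀ {x y : ℚ}, padicNorm p x ≤ 1 → padicNorm p y ≤ (p : ℚ)⁻¹ →
      padicNorm p (x * y) ≤ (p : ℚ)⁻¹ := by
    intro x y hx hy
    have := nmul hx hy
    rwa [one_mul] at this
  refine nsub (nadd ?_ ?_) (nadd ?_ ?_)
  · apply padicNorm.sum_le' _ inv0
    intro k hk
    refine small_term hC _ ?_ he hk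
    refine nadd ?_ ?_
    · have := nmul c6 hα
      rw [one_mul] at this
      exact this.trans (one_le_pow₀ one_le_p)
    · have := nmul hβ (nmul c6 (hsz 3 k hk))
      rw [one_mul, one_mul] at this
      exact this
  · apply padicNorm.sum_le' _ inv0
    intro k hk
    refine small_term hC _ ?_ he hk
    have := nmul hβ (nmul c3 (hsz 2 k hk))
    rw [one_mul, one_mul] at this
    exact this
  · apply padicNorm.sum_le' _ inv0
    intro j hj
    have hj' := Finset.mem_Icc.1 hj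
    refine nadd (m1 c6 ?_) (m1 c2 ?_)
    · exact near_term hC hp hr1 hr2 hj _ (hw e j 2 he hj'.1 hj'.2 (by norm_num) le_rfl)
    · exact near_term hC hp hr1 hr2 hj _ (hw e j 1 he hj'.1 hj'.2 le_rfl (by norm_num))
  · apply padicNorm.sum_le' _ inv0
    intro k hk
    refine nadd (m1 c6 ?_) (m1 c2 ?_)
    · exact far_term hC hp he (hS hk) (rest_class hr1 hr2 (hS hk) (hSr k hk))
    · exact far_term hC hp he (hS hk) (rest_class hr1 hr2 (hS hk) (hSr k hk))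

end Pool.Agent.ZF
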