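import Pool.Agent.H387R3.ZF.Defs
import Pool.Agent.H337R2.LZ.H4

/-! Task H4 (`1, ζ(3), ζ(4)`): the off-diagonal entries (`n = p`), from `C1_pa` (at `n = p`) and `H1_eF`. -/

open Polynomial Pool.Agent.H337R2

namespace Pool.Agent.ZF

noncomputable section

set_option linter.unusedSectionVars false

section off

variable {p : ℕ} [hp : Fact p.Prime]

open Pool.Agent.H574R2.D3 (H4_norm_zpow H4_prod_le H4_prod_le_one)
open Pool.Agent.LZ (H4_a H4_a_nonneg H4_a_le_one H4_node)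

/-- the total bound at the pole `k` -/
def H4_A (p r s l l' k : ℕ) : ℚ :=
  (H4_a p k r ^ l * ∏ r' ∈ (Finset.Icc 1 p).erase r, H4_a p k r' ^ 4) *
    (H4_a p k s ^ l' * ∏ r' ∈ (Finset.Icc 1 p).erase s, H4_a p k r' ^ 4)

lemma H4_A_nonneg (r s l l' k : ℕ) : 0 ≤ H4_A p r s l l' k := by
  unfold H4_A
  have h2 : ∀ r, 0 ≤ H4_a p k r := fun r => H4_a_nonneg k r
  have h3 : ∀ (c : ℕ) (S : Finset ℕ), 0 ≤ ∏ r' ∈ S, H4_a p k r' ^ c := fun c S =>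
    Finset.prod_nonneg fun i _ => pow_nonneg (h2 i) _
  exact mul_nonneg (mul_nonneg (pow_nonneg (h2 _) _) (h3 _ _))
    (mul_nonneg (pow_nonneg (h2 _) _) (h3 _ _))

lemma H4_PB (r s l l' k : ℕ) : PB p (p : ℚ) (H4_A p r s l l' k) (TS (-(k : ℚ))
    (((X + C (r : ℚ)) ^ l * OT p r 4) * ((X + C (s : ℚ)) ^ l' * OT p s 4))) := by
  have hp0 : (0 : ℚ) ≤ p := p_pos'.le
  have h2 : ∀ r, 0 ≤ H4_a p k r := fun r => H4_a_nonneg k r
  have h3 : ∀ (c : ℕ) (S : Finset ℕ), 0 ≤ ∏ r' ∈ S, H4_a p k r' ^ c := fun c S =>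
    Finset.prod_nonneg fun i _ => pow_nonneg (h2 i) _
  unfold H4_A OT
  rw [map_mul, map_mul, map_mul, map_prod, map_prod,
    map_pow (TS (-(k : ℚ))) (X + C (r : ℚ)),
    map_pow (TS (-(k : ℚ))) (X + C (s : ℚ))]
  have hprod : ∀ (c : ℕ) (S : Finset ℕ), PB p (p : ℚ) (∏ r' ∈ S, H4_a p k r' ^ c)
      (∏ r' ∈ S, TS (-(k : ℚ)) ((X + C (r' : ℚ)) ^ c)) := by
    intro c S
    apply PB.prod _ _ _ hp0
    · intro i _; exact pow_nonneg (h2 i) _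
    · intro i _
      rw [map_pow]
      exact PB.pow hp0 (h2 i) (H4_node k i) c
  refine PB.mul hp0 (mul_nonneg (pow_nonneg (h2 _) _) (h3 _ _))
    (mul_nonneg (pow_nonneg (h2 _) _) (h3 _ _)) ?_ ?_
  · exact PB.mul hp0 (pow_nonneg (h2 _) _) (h3 _ _) (PB.pow hp0 (h2 _) (H4_node k r) l) (hprod _ _)
  · exact PB.mul hp0 (pow_nonneg (h2 _) _) (h3 _ _) (PB.pow hp0 (h2 _) (H4_node k s) l') (hprod _ _)

/-- numerical value of the bound -/
lemma H4_A_le (r s l l' : ℕ) (hr1 : 1 ≤ r) (hr2 : r ≤ p) (hs1 : 1 ≤ s)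
    (hs2 : s ≤ p) (hrs : r ≠ s) (hl : l < 4) (hl' : l' < 4) (k : ℕ) :
    (p : ℚ) ^ ((l : ℤ) + l') * H4_A p r s l l' k ≤ (p : ℚ)⁻¹ := by
  have hp1 : (1 : ℚ) ≤ p := p_one'
  have hp0 : (0 : ℚ) < p := p_pos'
  have h2 : ∀ r, 0 ≤ H4_a p k r := fun r => H4_a_nonneg k r
  have h2' : ∀ r, H4_a p k r ≤ 1 := fun r => H4_a_le_one k r
  have h2p : ∀ c r, H4_a p k r ^ c ≤ 1 := fun c r => pow_le_one₀ (h2 r) (h2' r)
  have h2n : ∀ c r, 0 ≤ H4_a p k r ^ c := fun c r => pow_nonneg (h2 r) _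
  have h3 : ∀ (c : ℕ) (S : Finset ℕ), 0 ≤ ∏ r' ∈ S, H4_a p k r' ^ c := fun c S =>
    Finset.prod_nonneg fun i _ => h2n c i
  have h3' : ∀ (c : ℕ) (S : Finset ℕ), ∏ r' ∈ S, H4_a p k r' ^ c ≤ 1 := fun c S =>
    H4_prod_le_one S _ (h2n c) (h2p c)
  have hal : H4_a p k r ^ l ≤ 1 := pow_le_one₀ (h2 r) (h2' r)
  have hal' : H4_a p k s ^ l' ≤ 1 := pow_le_one₀ (h2 s) (h2' s)
  have hal0 : 0 ≤ H4_a p k r ^ l := pow_nonneg (h2 r) _
  have hal0' : 0 ≤ H4_a p k s ^ l' := pow_nonneg (h2 s) _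
  have hrI : r ∈ Finset.Icc 1 p := by rw [Finset.mem_Icc]; omega
  have hsI : s ∈ Finset.Icc 1 p := by rw [Finset.mem_Icc]; omega
  -- reduction to an exponent
  have fin : ∀ m : ℕ, H4_A p r s l l' k ≤ ((p : ℚ)⁻¹) ^ m → (l : ℤ) + l' - m ≤ -1 →
      (p : ℚ) ^ ((l : ℤ) + l') * H4_A p r s l l' k ≤ (p : ℚ)⁻¹ := by
    intro m h4 h5
    calc (p : ℚ) ^ ((l : ℤ) + l') * H4_A p r s l l' k
        ≤ (p : ℚ) ^ ((l : ℤ) + l') * ((p : ℚ)⁻¹) ^ m :=
          mul_le_mul_of_nonneg_left h4 (zpow_nonneg hp0.le _)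
      _ = (p : ℚ) ^ ((l : ℤ) + l' - m) := by
          rw [inv_pow, ← zpow_natCast, ← zpow_neg, ← zpow_add₀ hp0.ne']
          congr 1
      _ ≤ (p : ℚ) ^ (-1 : ℤ) := zpow_le_zpow_right₀ hp1 h5
      _ = (p : ℚ)⁻¹ := zpow_neg_one _
  -- the class of k
  obtain ⟨c, hc1, hc2, hc⟩ : ∃ c : ℕ, 1 ≤ c ∧ c ≤ p ∧ (p : ℤ) ∣ (c : ℤ) - k := by
    have h5 : k % p < p := Nat.mod_lt _ hp.out.pos
    have h7 : p * (k / p) + k % p = k := Nat.div_add_mod k p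
    have h7z : (p : ℤ) * ((k / p : ℕ) : ℤ) + ((k % p : ℕ) : ℤ) = k := by exact_mod_cast h7
    rcases Nat.eq_zero_or_pos (k % p) with h | h
    · refine ⟨p, hp.out.one_lt.le, le_rfl, 1 - ((k / p : ℕ) : ℤ), ?_⟩
      rw [h] at h7z
      push_cast at h7z ⊢
      linarith
    · refine ⟨k % p, h, h5.le, -((k / p : ℕ) : ℤ), ?_⟩
      linarith
  have hac : H4_a p k c = (p : ℚ)⁻¹ := by unfold H4_a; rw [if_pos hc]
  have hcI : c ∈ Finset.Icc 1 p := Finset.mem_Icc.2 ⟨hc1, hc2⟩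
  by_cases hcr : c = r
  · subst hcr
    apply fin (l + 4)
    · unfold H4_A
      have e1 : ∏ r' ∈ (Finset.Icc 1 p).erase s, H4_a p k r' ^ 4 ≤ H4_a p k c ^ 4 :=
        H4_prod_le _ (fun r' => H4_a p k r' ^ 4) (h2n 4) (h2p 4) c (Finset.mem_erase.2 ⟨hrs, hrI⟩)
      rw [pow_add, ← hac]
      calc _ ≤ (H4_a p k c ^ l * 1) * (1 * H4_a p k c ^ 4) := by
            apply mul_le_mul _ _ (mul_nonneg hal0' (h3 _ _)) (by rw [mul_one]; exact hal0)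
            · exact mul_le_mul_of_nonneg_left (h3' _ _) hal0
            · exact mul_le_mul hal' e1 (h3 _ _) zero_le_one
        _ = _ := by ring
    · push_cast; omega
  · by_cases hcs : c = s
    · subst hcs
      apply fin (l' + 4)
      · unfold H4_A
        have e1 : ∏ r' ∈ (Finset.Icc 1 p).erase r, H4_a p k r' ^ 4 ≤ H4_a p k c ^ 4 :=
          H4_prod_le _ (fun r' => H4_a p k r' ^ 4) (h2n 4) (h2p 4) c (Finset.mem_erase.2 ⟨hcr, hsI⟩)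
        rw [pow_add, ← hac]
        calc _ ≤ (1 * H4_a p k c ^ 4) * (H4_a p k c ^ l' * 1) := by
              apply mul_le_mul _ _ (mul_nonneg hal0' (h3 _ _)) (by rw [one_mul]; exact h2n _ _)
              · exact mul_le_mul hal e1 (h3 _ _) zero_le_one
              · exact mul_le_mul_of_nonneg_left (h3' _ _) hal0'
          _ = _ := by ring
      · push_cast; omega
    · apply fin 8
      · unfold H4_A
        have e1 : ∏ r' ∈ (Finset.Icc 1 p).erase r, H4_a p k r' ^ 4 ≤ H4_a p k c ^ 4 :=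
          H4_prod_le _ (fun r' => H4_a p k r' ^ 4) (h2n 4) (h2p 4) c (Finset.mem_erase.2 ⟨hcr, hcI⟩)
        have e2 : ∏ r' ∈ (Finset.Icc 1 p).erase s, H4_a p k r' ^ 4 ≤ H4_a p k c ^ 4 :=
          H4_prod_le _ (fun r' => H4_a p k r' ^ 4) (h2n 4) (h2p 4) c (Finset.mem_erase.2 ⟨hcs, hcI⟩)
        rw [show (8 : ℕ) = 4 + 4 from rfl, pow_add, ← hac]
        calc _ ≤ (1 * H4_a p k c ^ 4) * (1 * H4_a p k c ^ 4) := by
              apply mul_le_mul _ _ (mul_nonneg hal0' (h3 _ _)) (by rw [one_mul]; exact h2n _ _)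
              · exact mul_le_mul hal e1 (h3 _ _) zero_le_one
              · exact mul_le_mul hal' e2 (h3 _ _) zero_le_one
          _ = _ := by ring
      · push_cast; omega

/-- an integer constant times a `p`-adic number -/
lemma H4_natmul (c : ℕ) (x W : ℚ) (h : padicNorm p x ≤ W) : padicNorm p ((c : ℚ) * x) ≤ W := by
  rw [padicNorm.mul]
  refine le_trans ?_ h
  exact mul_le_of_le_one_left (padicNorm.nonneg _) (padicNorm.of_nat _)

/-- `xf` is small if all partial fraction coefficients are -/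
lemma H4_xf_le (α β : ℚ) (hα : padicNorm p α ≤ 1) (hβ : padicNorm p β ≤ 1) (hp100 : 100 ≤ p) (P : ℚ[X])
    (W : ℚ) (hW : 0 ≤ W)
    (h : ∀ k ∈ sF p, ∀ i, padicNorm p (pa (sF p) mF P k i) * (p : ℚ) ^ i ≤ W) :
    padicNorm p (xf p α β P) ≤ (p : ℚ) ^ 2 * W := by
  have hp1 : (1 : ℚ) ≤ p := p_one'
  have hp0 : (0 : ℚ) < p := p_pos'
  have hW2 : 0 ≤ (p : ℚ) ^ 2 * W := mul_nonneg (pow_nonneg hp0.le _) hW
  -- the coefficients times harmonic numbers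
  have hh : ∀ k ∈ sF p, ∀ i e : ℕ, e ≤ i + 2 →
      padicNorm p (pa (sF p) mF P k i * hs e (k - 2 * p - 1)) ≤ (p : ℚ) ^ 2 * W := by
    intro k hk i e he
    rw [padicNorm.mul]
    have h1 : padicNorm p (hs e (k - 2 * p - 1)) ≤ (p : ℚ) ^ (i + 2) := by
      refine (hs_norm_med (p := p) e (k - 2 * p - 1) ?_).trans (pow_le_pow_right₀ hp1 he)
      rw [sF, Finset.mem_Icc] at hk
      have : 10 * p < p * p := Nat.mul_lt_mul_of_pos_right (by omega) hp.out.pos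
      rw [sq]
      omega
    calc _ ≤ padicNorm p (pa (sF p) mF P k i) * (p : ℚ) ^ (i + 2) :=
          mul_le_mul_of_nonneg_left h1 (padicNorm.nonneg _)
      _ = (p : ℚ) ^ 2 * (padicNorm p (pa (sF p) mF P k i) * (p : ℚ) ^ i) := by rw [pow_add]; ring
      _ ≤ _ := mul_le_mul_of_nonneg_left (h k hk i) (pow_nonneg hp0.le _)
  have h0 : ∀ k ∈ sF p, padicNorm p (pa (sF p) mF P k 2) ≤ (p : ℚ) ^ 2 * W := by
    intro k hk
    have h1 := h k hk 2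
    calc padicNorm p (pa (sF p) mF P k 2) ≤ padicNorm p (pa (sF p) mF P k 2) * (p : ℚ) ^ 2 :=
          le_mul_of_one_le_right (padicNorm.nonneg _) (one_le_pow₀ hp1)
      _ ≤ W := h1
      _ ≤ _ := le_mul_of_one_le_left hW (one_le_pow₀ hp1)
  have hrho : padicNorm p (rho p P) ≤ (p : ℚ) ^ 2 * W := by
    unfold rho
    apply padicNorm.sum_le' _ hW2
    intro k hk
    exact h0 k hk
  have h4' : padicNorm p (h4 p P) ≤ (p : ℚ) ^ 2 * W := by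
    unfold h4
    apply padicNorm.sum_le' _ hW2
    intro k hk
    refine padicNorm.nonarchimedean.trans (max_le ?_ ?_)
    · have := H4_natmul (p := p) 6 _ _ (hh k hk 2 4 (by norm_num))
      rw [← mul_assoc] at this
      exact_mod_cast this
    · have := H4_natmul (p := p) 2 _ _ (hh k hk 1 3 (by norm_num))
      rw [← mul_assoc] at this
      exact_mod_cast this
  have h3' : padicNorm p (h3 p P) ≤ (p : ℚ) ^ 2 * W := by
    unfold h3
    apply padicNorm.sum_le' _ hW2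
    intro k hk
    refine padicNorm.nonarchimedean.trans (max_le ?_ ?_)
    · have := H4_natmul (p := p) 6 _ _ (hh k hk 2 3 (by norm_num))
      rw [← mul_assoc] at this
      exact_mod_cast this
    · have := H4_natmul (p := p) 3 _ _ (hh k hk 1 2 (by norm_num))
      rw [← mul_assoc] at this
      exact_mod_cast this
  unfold xf
  refine padicNorm.nonarchimedean.trans (max_le ?_ ?_)
  · refine padicNorm.sub.trans (max_le ?_ h4')
    have h5 : padicNorm p (α * rho p P) ≤ (p : ℚ) ^ 2 * W := by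
      rw [padicNorm.mul]
      exact (mul_le_of_le_one_left (padicNorm.nonneg _) hα).trans hrho
    have := H4_natmul (p := p) 6 _ _ h5
    rw [← mul_assoc] at this
    exact_mod_cast this
  · rw [padicNorm.mul]
    exact (mul_le_of_le_one_left (padicNorm.nonneg _) hβ).trans h3'

/-- `H4_offdiag`, from `C1_pa` at `n = p` and `H1_eF` -/
theorem H4_offdiag_of
    (hC1 : ∀ (E : ℚ[X]) {k : ℕ}, k ∈ sF p → ∀ (A : ℚ), 0 ≤ A → PB p (p : ℚ) A (TS (-(k : ℚ)) E) →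
      ∀ i : ℕ, padicNorm p (pa (sF p) mF (PF p * E) k i) ≤ (p : ℚ) ^ (-eF p p k - i : ℤ) * A)
    (hH1 : ∀ {k : ℕ}, k ∈ sF p → eF p p k = 0)
    (hp100 : 100 ≤ p) (α β : ℚ) (hα : padicNorm p α ≤ 1)
    (hβ : padicNorm p β ≤ 1) (r s l l' : ℕ) (hr1 : 1 ≤ r) (hr2 : r ≤ p) (hs1 : 1 ≤ s) (hs2 : s ≤ p) (hrs : r ≠ s)
    (hl : l < 4) (hl' : l' < 4) :
    padicNorm p ((p : ℚ) ^ (2 - (l : ℤ) - (l' : ℤ)) * NL p α β
      (((X + C (r : ℚ)) ^ l * OT p r 4) * ((X + C (s : ℚ)) ^ l' * OT p s 4))) ≤ (p : ℚ)⁻¹ := by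
  have hp0 : (0 : ℚ) < p := p_pos'
  have hp1 : (1 : ℚ) ≤ p := p_one'
  set Q : ℚ[X] := ((X + C (r : ℚ)) ^ l * OT p r 4) * ((X + C (s : ℚ)) ^ l' * OT p s 4) with hQ
  have hkey : ∀ k ∈ sF p, ∀ i : ℕ,
      padicNorm p (pa (sF p) mF (PF p * Q) k i) ≤
        (p : ℚ) ^ (-(i : ℤ)) * ((p : ℚ) ^ (-(l : ℤ) - (l' : ℤ)) * (p : ℚ)⁻¹) := by
    intro k hk i
    have h1 := hC1 _ hk _ (H4_A_nonneg r s l l' k) (H4_PB r s l l' k) i
    have h2 := H4_A_le r s l l' hr1 hr2 hs1 hs2 hrs hl hl' k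
    refine h1.trans ?_
    have e1 : (p : ℚ) ^ (-eF p p k - i : ℤ) =
        (p : ℚ) ^ (-(i : ℤ)) * ((p : ℚ) ^ (-(l : ℤ) - (l' : ℤ)) * (p : ℚ) ^ ((l : ℤ) + l')) := by
      rw [hH1 hk, ← zpow_add₀ hp0.ne', ← zpow_add₀ hp0.ne']
      congr 1
      ring
    rw [e1, mul_assoc, mul_assoc]
    exact mul_le_mul_of_nonneg_left (mul_le_mul_of_nonneg_left h2 (by positivity)) (by positivity)
  rw [NL_apply, padicNorm.mul, H4_norm_zpow]
  have key := H4_xf_le α β hα hβ hp100 (PF p * Q)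
    ((p : ℚ) ^ (-(l : ℤ) - (l' : ℤ)) * (p : ℚ)⁻¹) (by positivity) (by
      intro k hk i
      calc _ ≤ ((p : ℚ) ^ (-(i : ℤ)) * ((p : ℚ) ^ (-(l : ℤ) - (l' : ℤ)) * (p : ℚ)⁻¹)) * (p : ℚ) ^ i :=
            mul_le_mul_of_nonneg_right (hkey k hk i) (by positivity)
        _ = (p : ℚ) ^ (-(l : ℤ) - (l' : ℤ)) * (p : ℚ)⁻¹ * ((p : ℚ) ^ (-(i : ℤ)) * (p : ℚ) ^ i) := by ring
        _ = _ := by
            rw [zpow_neg, zpow_natCast, inv_mul_cancel₀ (pow_ne_zero _ hp0.ne'), mul_one])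
  calc _ ≤ (p : ℚ) ^ (-(2 - (l : ℤ) - (l' : ℤ))) *
        ((p : ℚ) ^ 2 * ((p : ℚ) ^ (-(l : ℤ) - (l' : ℤ)) * (p : ℚ)⁻¹)) :=
        mul_le_mul_of_nonneg_left key (by positivity)
    _ = (p : ℚ)⁻¹ := by
        rw [← zpow_natCast (p : ℚ) 2, ← mul_assoc, ← mul_assoc, ← zpow_add₀ hp0.ne',
          ← zpow_add₀ hp0.ne',
          show -(2 - (l : ℤ) - (l' : ℤ)) + ((2 : ℕ) : ℤ) + (-(l : ℤ) - (l' : ℤ)) = 0 by push_cast; ring,
          zpow_zero, one_mul]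

end off

end

end Pool.Agent.ZF
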