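import Pool.Agent.H387R3.ZF.C1
import Pool.Agent.H387R3.ZF.H4pre

/-! Task H4 (`1, ζ(3), ζ(4)`): the off-diagonal entries (`n = p`). -/

open Polynomial Pool.Agent.H337R2

namespace Pool.Agent.ZF

noncomputable section

/-- the exponent at `n = p` is `0` (same as `H1_eF`) -/
theorem H4_eF {p : ℕ} (hp : p.Prime) (k : ℕ) : eF p p k = 0 := by
  have hpp : (0 : ℤ) < p := by exact_mod_cast hp.pos
  have hd : ∀ a : ℕ, a * p / p = a := fun a => Nat.mul_div_cancel a hp.pos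
  have hc : ∀ a b : ℕ, a ≤ b → (cnt p (a * p + 1) (b * p) k : ℤ) = b - a := by
    intro a b hab
    rw [cnt_eq p (a * p + 1) (b * p) k hp.pos (by
      have : a * p ≤ b * p := Nat.mul_le_mul_right p hab
      omega)]
    have h1 : (((b * p : ℕ) : ℤ) - k) / p = (-(k : ℤ)) / p + b := by
      rw [show ((b * p : ℕ) : ℤ) - k = -(k : ℤ) + b * p by push_cast; ring,
        Int.add_mul_ediv_right _ _ hpp.ne']
    have h2 : (((a * p + 1 : ℕ) : ℤ) - 1 - k) / p = (-(k : ℤ)) / p + a := by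
      rw [show ((a * p + 1 : ℕ) : ℤ) - 1 - k = -(k : ℤ) + a * p by push_cast; ring,
        Int.add_mul_ediv_right _ _ hpp.ne']
    rw [h1, h2]; ring
  have h0 := hc 0 2 (by norm_num)
  rw [zero_mul, zero_add] at h0
  unfold eF
  rw [hd, hd, h0, hc 3 10 (by norm_num)]
  norm_num

theorem H4_offdiag {p : ℕ} [Fact p.Prime] (hp : 100 ≤ p) (α β : ℚ) (hα : padicNorm p α ≤ 1)
    (hβ : padicNorm p β ≤ 1) (r s l l' : ℕ) (hr1 : 1 ≤ r) (hr2 : r ≤ p) (hs1 : 1 ≤ s) (hs2 : s ≤ p) (hrs : r ≠ s)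
    (hl : l < 4) (hl' : l' < 4) :
    padicNorm p ((p : ℚ) ^ (2 - (l : ℤ) - (l' : ℤ)) * NL p α β
      (((X + C (r : ℚ)) ^ l * OT p r 4) * ((X + C (s : ℚ)) ^ l' * OT p s 4))) ≤ (p : ℚ)⁻¹ := by
  have hP : p.Prime := Fact.out
  refine H4_offdiag_of (p := p) ?_ (fun {k} _ => H4_eF hP k) hp α β hα hβ r s l l' hr1 hr2 hs1 hs2 hrs hl hl'
  intro E k hk A hA hE i
  refine C1_pa (n := p) (by omega) ?_ E hk A hA hE i
  have : 10 * p < p * p := Nat.mul_lt_mul_of_pos_right (by omega) hP.pos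
  rw [sq]
  exact this

end

end Pool.Agent.ZF
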