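import Pool.Agent.H387R3.ZF.Defs
import Pool.Agent.H337R2.LZ.H5

/-!
# The local determinant is nonzero (task H5): computation modulo `11`
-/

set_option autoImplicit false

open Polynomial Pool.Agent.H337R2

namespace Pool.Agent.ZF

namespace H5

open Pool.Agent.LZ.H5 (Rl Rep mulT divT ivN dg co hN rep_iv_pow rep_lin_pow rep_one rl_hs)

attribute [local instance] Pool.Agent.LZ.H5.fact11

/-- the other sites -/
def Lj (j : ℕ) : List ℕ := (List.range' 3 7).filter fun b => decide (b ≠ j)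

/-- division by all the factors -/
def divL (j : ℕ) : List ℕ → ℕ × ℕ × ℕ
  | [] => (1, 0, 0)
  | b :: l => (divT (ivN (b + 10 * j)))^[2] (divL j l)

theorem rep_divL (j : ℕ) : ∀ l : List ℕ,
    (∀ b ∈ l, b ≠ j ∧ (b + 10 * j) * ivN (b + 10 * j) % 11 = 1) →
    Rep (l.map fun b : ℕ => iv ((b : ℚ) - j) ^ 2).prod (divL j l)
  | [], _ => rep_one
  | b :: l, h => by
    have hb := h b (by simp)
    have ih := rep_divL j l fun b hb' => h b (by simp [hb'])
    rw [List.map_cons, List.prod_cons]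
    refine rep_iv_pow ?_ (Rl.sub_nat b j) hb.2 _ ih
    intro h0
    exact hb.1 (by exact_mod_cast sub_eq_zero.1 h0)

theorem Lj_ok : ∀ j ∈ Finset.Icc 3 9, ∀ b ∈ Lj j,
    b ≠ j ∧ (b + 10 * j) * ivN (b + 10 * j) % 11 = 1 := by
  decide +kernel

theorem Lj_nodup : ∀ j ∈ Finset.Icc 3 9, (Lj j).Nodup := by
  decide +kernel

theorem Lj_fin : ∀ j ∈ Finset.Icc 3 9, (Lj j).toFinset = (Finset.Icc 3 9).erase j := by
  decide +kernel

/-- the local series modulo `11` -/
def serN (j e : ℕ) : ℕ × ℕ × ℕ :=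
  (mulT (10 * j))^[e] ((mulT (10 * j))^[3] ((mulT (1 + 10 * j))^[3] (divL j (Lj j))))

theorem rep_ser (j : ℕ) (hj : j ∈ Finset.Icc 3 9) (e : ℕ) : Rep (ser j e) (serN j e) := by
  have h1 := rep_divL j (Lj j) (Lj_ok j hj)
  rw [← List.prod_toFinset _ (Lj_nodup j hj), Lj_fin j hj] at h1
  have h2 := rep_lin_pow (a := 1 - (j : ℚ)) (c := 1 + 10 * j) (by
    have := Rl.sub_nat 1 j
    rwa [Nat.cast_one] at this) 3 h1
  have h3 := rep_lin_pow (a := -(j : ℚ)) (c := 10 * j) (Rl.nat j).neg 3 h2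
  have h4 := rep_lin_pow (Rl.nat j).neg e h3
  have hs : ser j e = (PowerSeries.X + PowerSeries.C (-(j : ℚ))) ^ e *
      ((PowerSeries.X + PowerSeries.C (-(j : ℚ))) ^ 3 *
        ((PowerSeries.X + PowerSeries.C (1 - (j : ℚ))) ^ 3 *
        ∏ b ∈ (Finset.Icc 3 9).erase j, iv ((b : ℚ) - j) ^ 2)) := by
    unfold ser
    ring
  rw [hs]
  exact h4

/-- `Fm e` modulo `11` -/
def FN (e : ℕ) : ℕ := 10 * ∑ j ∈ Finset.Icc 3 9,
  (6 * co (serN j e) 0 * hN 4 (j - 2) + 2 * co (serN j e) 1 * hN 3 (j - 2))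

theorem rl_Fm (e : ℕ) : Rl (Fm e) (FN e) := by
  unfold Fm FN
  refine Rl.neg (Rl.sum _ _ _ fun j hj => ?_)
  have hj' := Finset.mem_Icc.1 hj
  have h0 := (rep_ser j hj e).co 0 (by omega)
  have h1 := (rep_ser j hj e).co 1 (by omega)
  have h6 : Rl 6 6 := by exact_mod_cast Rl.nat 6
  have h2 : Rl 2 2 := by exact_mod_cast Rl.nat 2
  exact Rl.add (Rl.mul (Rl.mul h6 h0) (rl_hs _ _ (by omega)))
    (Rl.mul (Rl.mul h2 h1) (rl_hs _ _ (by omega)))

/-- values of `Fm` -/
def FF : ℕ := 3090510080300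

theorem FN_val : ∀ e < 7, FN e % 11 = dg FF e % 11 := by
  decide +kernel

/-- columns of the inverse matrix modulo `11` -/
def CC : List ℕ := [3060008, 5020000, 5040206, 50503]

/-- the entries of the matrix modulo `11` -/
def EN (l k : ℕ) : ℕ := dg FF (l + k)

theorem inv_chk : ∀ i < 4, ∀ j < 4,
    (∑ k ∈ Finset.range 4, EN i k * dg (CC.getD j 0) k) % 11 = if i = j then 1 else 0 := by
  decide +kernel

theorem det_ne (M : Matrix (Fin 4) (Fin 4) ℚ) (N B : ℕ → ℕ → ℕ)
    (h : ∀ i j : Fin 4, Rl (M i j) (N i j))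
    (hB : ∀ i < 4, ∀ j < 4, (∑ k ∈ Finset.range 4, N i k * B k j) % 11 =
      if i = j then 1 else 0) :
    M.det ≠ 0 := by
  intro h0
  choose Z hZ hZ' using h
  have e1 : (Matrix.of Z).det = 0 := by
    have h1 : (Matrix.of Z).map (PadicInt.Coe.ringHom (p := 11)) = M.map (Rat.castHom ℚ_[11]) := by
      ext i j
      exact hZ i j
    have h2 := RingHom.map_det (PadicInt.Coe.ringHom (p := 11)) (Matrix.of Z)
    have h3 := RingHom.map_det (Rat.castHom ℚ_[11]) M
    rw [h0, map_zero] at h3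
    have h4 : (PadicInt.Coe.ringHom (p := 11)) (Matrix.of Z).det = 0 := by
      rw [h2, RingHom.mapMatrix_apply, h1, h3, RingHom.mapMatrix_apply]
    exact Subtype.ext h4
  have e2 : ((Matrix.of Z).map (PadicInt.toZMod (p := 11))).det = 0 := by
    have h2 := RingHom.map_det (PadicInt.toZMod (p := 11)) (Matrix.of Z)
    rw [e1, map_zero] at h2
    exact h2.symm
  have e3 : (Matrix.of Z).map (PadicInt.toZMod (p := 11)) *
      (Matrix.of fun k j : Fin 4 => ((B k j : ℕ) : ZMod 11)) = 1 := by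
    ext i j
    rw [Matrix.mul_apply]
    have h1 : ∀ k : Fin 4, (Matrix.of Z).map (PadicInt.toZMod (p := 11)) i k *
        (Matrix.of fun k j : Fin 4 => ((B k j : ℕ) : ZMod 11)) k j =
        ((N i k * B k j : ℕ) : ZMod 11) := by
      intro k
      rw [Nat.cast_mul]
      show PadicInt.toZMod (Z i k) * ((B k j : ℕ) : ZMod 11) = _
      rw [hZ' i k]
    rw [Finset.sum_congr rfl fun k _ => h1 k, ← Nat.cast_sum,
      Fin.sum_univ_eq_sum_range (fun k => N i k * B k j) 4, ← ZMod.natCast_mod,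
      hB i i.2 j j.2, Matrix.one_apply]
    by_cases hij : i = j
    · rw [if_pos hij, if_pos (by rw [hij]), Nat.cast_one]
    · rw [if_neg hij, if_neg (fun h => hij (Fin.ext h)), Nat.cast_zero]
  have e4 := congrArg Matrix.det e3
  rw [Matrix.det_mul, e2, zero_mul, Matrix.det_one] at e4
  exact absurd e4 (by decide)

end H5

open H5 in
/-- exact value `106305403544840627907685044474992899534490300647/2667059674571980800000000000000000000`;
`3` modulo `11` -/
theorem H5_local : (Matrix.of fun l l' : Fin 4 => Fm (l.1 + l'.1)).det ≠ 0 := by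
  refine H5.det_ne _ EN (fun k j => Pool.Agent.LZ.H5.dg (CC.getD j 0) k) ?_ inv_chk
  intro i j
  show Pool.Agent.LZ.H5.Rl (Fm (i.1 + j.1)) (EN i.1 j.1)
  unfold EN
  have hi := i.2
  have hj := j.2
  exact (rl_Fm _).congr (FN_val _ (by omega))

end Pool.Agent.ZF
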