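import Pool.Agent.H387R3.ZF.Defs
import Pool.Agent.H574R2.D3.H6pre
import Pool.Agent.H336R2.HD.H6pre
import Pool.Agent.H336R2.HD.A1

/-! Task H6: non-vanishing of the determinant, from H3, H4, H5 (as hypotheses). -/

open Polynomial Pool.Agent.H337R2

namespace Pool.Agent.ZF

noncomputable section

/-- the test polynomials -/
def H6_P (p r l : ℕ) : ℚ[X] := (X + C (r : ℚ)) ^ l * OT p r 4

lemma H6_P_natDegree (p r l : ℕ) (hr1 : 1 ≤ r) (hr2 : r ≤ p) (hl : l < 4) :
    (H6_P p r l).natDegree < 4 * p := by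
  have h0 : ∀ k : ℕ, (X + C (k : ℚ) : ℚ[X]).natDegree ≤ 1 := fun k => (natDegree_X_add_C _).le
  have h1 : ((X + C (r : ℚ) : ℚ[X]) ^ l).natDegree ≤ l := by
    refine natDegree_pow_le.trans ?_
    have := h0 r
    nlinarith
  have h2 : (OT p r 4).natDegree ≤ 4 * (p - 1) := by
    unfold OT
    refine (natDegree_prod_le _ _).trans ?_
    have h3 : ∀ r' ∈ (Finset.Icc 1 p).erase r, ((X + C (r' : ℚ) : ℚ[X]) ^ 4).natDegree ≤ 4 := by
      intro r' _
      refine natDegree_pow_le.trans ?_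
      have := h0 r'
      nlinarith
    refine (Finset.sum_le_sum h3).trans ?_
    rw [Finset.sum_const, Finset.card_erase_of_mem, Nat.card_Icc, smul_eq_mul]
    · rw [mul_comm]
      exact Nat.mul_le_mul_left _ (by omega)
    · rw [Finset.mem_Icc]
      omega
  unfold H6_P
  refine (natDegree_mul_le).trans_lt ?_
  omega

lemma H6_P_mul (p r l l' : ℕ) : H6_P p r l * H6_P p r l' =
    (X + C (r : ℚ)) ^ (l + l') * OT p r 8 := by
  unfold H6_P
  rw [pow_add]
  have h : OT p r 8 = OT p r 4 * OT p r 4 := by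
    unfold OT
    rw [← Finset.prod_mul_distrib]
    refine Finset.prod_congr rfl fun r' _ => ?_
    rw [← pow_add]
  rw [h]
  ring

/-- statement of H3 -/
def H6_H3 : Prop := ∀ {p : ℕ} [Fact p.Prime] (_hp : 100 ≤ p) (α β : ℚ) (_hα : padicNorm p α ≤ 1)
    (_hβ : padicNorm p β ≤ 1) (r : ℕ) (_hr1 : 1 ≤ r) (_hr2 : r ≤ p),
    ∃ w : ℚ, padicNorm p w = 1 ∧ ∀ e : ℕ, e ≤ 6 →
      padicNorm p ((p : ℚ) ^ (2 - (e : ℤ)) * NL p α β ((X + C (r : ℚ)) ^ e * OT p r 8) - w * Fm e) ≤ (p : ℚ)⁻¹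

/-- statement of H4 -/
def H6_H4 : Prop := ∀ {p : ℕ} [Fact p.Prime] (_hp : 100 ≤ p) (α β : ℚ) (_hα : padicNorm p α ≤ 1)
    (_hβ : padicNorm p β ≤ 1) (r s l l' : ℕ) (_hr1 : 1 ≤ r) (_hr2 : r ≤ p) (_hs1 : 1 ≤ s) (_hs2 : s ≤ p)
    (_hrs : r ≠ s) (_hl : l < 4) (_hl' : l' < 4),
    padicNorm p ((p : ℚ) ^ (2 - (l : ℤ) - (l' : ℤ)) * NL p α β
      (((X + C (r : ℚ)) ^ l * OT p r 4) * ((X + C (s : ℚ)) ^ l' * OT p s 4))) ≤ (p : ℚ)⁻¹

/-- statement of H5 -/
def H6_H5 : Prop := (Matrix.of fun l l' : Fin 4 => Fm (l.1 + l'.1)).det ≠ 0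

theorem H6_of (H3_diag : H6_H3) (H4_offdiag : H6_H4) (H5_local : H6_H5) (α β : ℚ) :
    ∃ p0 : ℕ, ∀ p : ℕ, p0 ≤ p → p.Prime → DET p α β (4 * p) ≠ 0 := by
  -- bounds on the constants
  obtain ⟨p1, hp1⟩ := Pool.Agent.H336R2.HD.H6_unit _ H5_local
  obtain ⟨p2, hp2⟩ := Pool.Agent.H574R2.D3.H6_fin_int Fm 7
  obtain ⟨p4, hp4⟩ := Pool.Agent.H336R2.HD.H6_int α
  obtain ⟨p5, hp5⟩ := Pool.Agent.H336R2.HD.H6_int β
  refine ⟨p1 + p2 + p4 + p5 + 100, fun p hp hpp => ?_⟩
  have : Fact p.Prime := ⟨hpp⟩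
  have hp100 : 100 ≤ p := by omega
  have hαp : padicNorm p α ≤ 1 := hp4 p (by omega) hpp
  have hβp : padicNorm p β ≤ 1 := hp5 p (by omega) hpp
  have hp0 : (p : ℚ) ≠ 0 := by exact_mod_cast hpp.ne_zero
  -- choose the units
  have hw : ∀ r : Fin p, ∃ w : ℚ, padicNorm p w = 1 ∧ ∀ e : ℕ, e ≤ 6 →
      padicNorm p ((p : ℚ) ^ (2 - (e : ℤ)) *
        NL p α β ((X + C ((r.1 + 1 : ℕ) : ℚ)) ^ e * OT p (r.1 + 1) 8) - w * Fm e) ≤ (p : ℚ)⁻¹ := by
    intro r
    have hr := r.2
    exact H3_diag hp100 α β hαp hβp (r.1 + 1) (by omega) (by omega)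
  choose w hw1 hw2 using hw
  -- the Gram matrix
  set Q : Fin 4 × Fin p → ℚ[X] := fun a => H6_P p (a.2.1 + 1) a.1.1 with hQ
  set G : Matrix (Fin 4 × Fin p) (Fin 4 × Fin p) ℚ :=
    Matrix.of fun a b => NL p α β (Q a * Q b) with hG
  have key : G.det ≠ 0 := by
    set c : Fin 4 × Fin p → ℚ := fun a => (p : ℚ) ^ (1 - (a.1.1 : ℤ)) with hc
    set M : Matrix (Fin 4 × Fin p) (Fin 4 × Fin p) ℚ :=
      Matrix.of fun a b => c a * c b * G a b with hM
    set Bl : Fin p → Matrix (Fin 4) (Fin 4) ℚ := fun r =>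
      Matrix.of fun l l' => w r * Fm (l.1 + l'.1) with hBl
    have hcc : ∀ a b : Fin 4 × Fin p, c a * c b = (p : ℚ) ^ (2 - (a.1.1 : ℤ) - (b.1.1 : ℤ)) := by
      intro a b
      simp only [hc]
      rw [← zpow_add₀ hp0]
      congr 1
      ring
    have hM0 : M.det ≠ 0 := by
      apply Pool.Agent.H336R2.HD.A6_det_congr p M (Matrix.blockDiagonal Bl)
      · intro a b
        rw [Matrix.blockDiagonal_apply]
        split_ifs with hab
        · simp only [hBl, Matrix.of_apply]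
          have ha := a.1.2
          have hb := b.1.2
          have h1 : padicNorm p (Fm (a.1.1 + b.1.1)) ≤ 1 :=
            hp2 _ (Finset.mem_range.2 (by omega)) p (by omega) hpp
          rw [padicNorm.mul, hw1, one_mul]
          exact h1
        · simp
      · intro a b
        rw [Matrix.blockDiagonal_apply]
        have ha := a.1.2
        have hb := b.1.2
        have ha2 := a.2.2
        have hb2 := b.2.2
        have hMab : M a b = (p : ℚ) ^ (2 - (a.1.1 : ℤ) - (b.1.1 : ℤ)) *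
            NL p α β (H6_P p (a.2.1 + 1) a.1.1 * H6_P p (b.2.1 + 1) b.1.1) := by
          simp only [hM, hG, Matrix.of_apply, hQ]
          rw [hcc]
        split_ifs with hab
        · rw [hMab, ← hab, H6_P_mul]
          have h1 := hw2 a.2 (a.1.1 + b.1.1) (by omega)
          have h2 : (2 - ((a.1.1 + b.1.1 : ℕ) : ℤ)) = 2 - (a.1.1 : ℤ) - (b.1.1 : ℤ) := by
            push_cast
            ring
          rw [h2] at h1
          simp only [hBl, Matrix.of_apply]
          exact h1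
        · rw [hMab, sub_zero]
          refine H4_offdiag hp100 α β hαp hβp (a.2.1 + 1) (b.2.1 + 1) a.1.1 b.1.1 (by omega)
            (by omega) (by omega) (by omega) ?_ ha hb
          intro h1
          apply hab
          ext
          omega
      · rw [Matrix.det_blockDiagonal]
        apply Pool.Agent.H574R2.D3.H6_norm_prod p
        intro r
        have h1 : Bl r = Matrix.of fun l l' => (w r) *
              (Matrix.of fun l l' : Fin 4 => Fm (l.1 + l'.1)) l l' := by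
          ext l l'
          simp only [hBl, Matrix.of_apply]
        rw [h1, Matrix.det_mul_column (fun _ => w r)]
        rw [padicNorm.mul, Pool.Agent.H574R2.D3.H6_norm_prod p _ (fun _ => hw1 r),
          hp1 p (by omega) hpp]
        norm_num
    intro h0
    apply hM0
    rw [hM, Pool.Agent.H336R2.HD.H6_det_scale, h0, mul_zero, mul_zero]
  -- conclusion
  have hcard : Fintype.card (Fin 4 × Fin p) = Fintype.card (Fin (4 * p)) := by
    simp only [Fintype.card_prod, Fintype.card_fin]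
  obtain ⟨e⟩ := Fintype.card_eq.1 hcard
  unfold DET
  apply Pool.Agent.H336R2.HD.A2_gram_ne (NL p α β) (4 * p) e Q
  · intro a
    have ha := a.1.2
    have ha2 := a.2.2
    exact H6_P_natDegree p _ _ (by omega) (by omega) ha
  · exact key

end

end Pool.Agent.ZF
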