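import Pool.Agent.H387R3.ZF.Cells

/-!
# The chain of cells and sums over primes
-/

open Polynomial Pool.Agent.H337R2 Filter Topology

namespace Pool.Agent.ZF

noncomputable section

/-- lower end -/
def PMlo (c : Cell) : ℚ := (c.u0 : ℚ) / c.v0

/-- upper end -/
def PMhi (c : Cell) : ℚ := (c.u1 : ℚ) / c.v1

/-- chain of cells from `u / v` to `10` -/
def PMchk : ℕ → ℕ → List Cell → Bool
  | u, v, [] => decide (0 < v) && decide (u = 10 * v)
  | u, v, c :: l => decide (0 < v) && decide (0 < c.v0) && decide (0 < c.v1) &&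
      decide (c.u0 * v = u * c.v0) && decide (c.u0 * c.v1 ≤ c.u1 * c.v0) && PMchk c.u1 c.v1 l

theorem PMchk_cells : PMchk 1 40 cells = true := by decide +kernel

theorem PM_split (a m b : ℚ) (h1 : a ≤ m) (h2 : m ≤ b) (n : ℕ) (G : ℕ → ℝ) :
    ∑ p ∈ PR a b n, G p = ∑ p ∈ PR a m n, G p + ∑ p ∈ PR m b n, G p := by
  classical
  have hn : (0 : ℚ) ≤ n := by positivity
  have e1 : PR a m n = (PR a b n).filter (fun p : ℕ => (p : ℚ) ≤ m * n) := by
    ext p
    unfold PR Pool.Agent.LZ.PR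
    simp only [Finset.mem_filter, Finset.mem_range]
    constructor
    · rintro ⟨q1, q2, q3, q4⟩
      exact ⟨⟨q1, q2, q3, q4.trans (mul_le_mul_of_nonneg_right h2 hn)⟩, q4⟩
    · rintro ⟨⟨q1, q2, q3, -⟩, q4⟩
      exact ⟨q1, q2, q3, q4⟩
  have e2 : PR m b n = (PR a b n).filter (fun p : ℕ => ¬ (p : ℚ) ≤ m * n) := by
    ext p
    unfold PR Pool.Agent.LZ.PR
    simp only [Finset.mem_filter, Finset.mem_range, not_le]
    constructor
    · rintro ⟨q1, q2, q3, q4⟩
      exact ⟨⟨q1, q2, (mul_le_mul_of_nonneg_right h1 hn).trans_lt q3, q4⟩, q3⟩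
    · rintro ⟨⟨q1, q2, -, q4⟩, q3⟩
      exact ⟨q1, q2, q3, q4⟩
  rw [e1, e2, Finset.sum_filter_add_sum_filter_not]

theorem PM_chain : ∀ (L : List Cell) (u v : ℕ), PMchk u v L = true →
    ((u : ℚ) / v ≤ 10) ∧ ∀ (n : ℕ) (G : ℕ → ℝ),
      ∑ p ∈ PR ((u : ℚ) / v) 10 n, G p = (L.map fun c => ∑ p ∈ PR (PMlo c) (PMhi c) n, G p).sum := by
  intro L
  induction L with
  | nil =>
    intro u v h
    simp only [PMchk, Bool.and_eq_true, decide_eq_true_eq] at h
    obtain ⟨hv, hu⟩ := h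
    have e : (u : ℚ) / v = 10 := by
      rw [div_eq_iff (by positivity)]
      exact_mod_cast hu
    refine ⟨e.le, fun n G => ?_⟩
    rw [e, List.map_nil, List.sum_nil]
    apply Finset.sum_eq_zero
    intro p hp
    unfold PR Pool.Agent.LZ.PR at hp
    simp only [Finset.mem_filter] at hp
    linarith [hp.2.2.1, hp.2.2.2]
  | cons c l ih =>
    intro u v h
    simp only [PMchk, Bool.and_eq_true, decide_eq_true_eq] at h
    obtain ⟨⟨⟨⟨⟨hv, hv0⟩, hv1⟩, he⟩, hle⟩, hl⟩ := h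
    obtain ⟨h1, h2⟩ := ih c.u1 c.v1 hl
    have e : (u : ℚ) / v = PMlo c := by
      unfold PMlo
      rw [div_eq_div_iff (by positivity) (by positivity)]
      exact_mod_cast he.symm
    have hlh : PMlo c ≤ PMhi c := by
      unfold PMlo PMhi
      rw [div_le_div_iff₀ (by positivity) (by positivity)]
      exact_mod_cast hle
    have h1' : PMhi c ≤ 10 := h1
    refine ⟨by rw [e]; exact hlh.trans h1', fun n G => ?_⟩
    rw [e, PM_split _ (PMhi c) 10 hlh h1' n G, List.map_cons, List.sum_cons]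
    congr 1
    exact h2 n G

theorem PM_mem {c : Cell} (hc : c.ok = true) {n p : ℕ} (hp : p ∈ PR (PMlo c) (PMhi c) n) :
    p.Prime ∧ c.u0 * n < p * c.v0 ∧ p * c.v1 ≤ c.u1 * n := by
  have hv : 0 < c.v0 ∧ 0 < c.v1 := by
    unfold Cell.ok at hc
    simp only [Bool.and_eq_true, decide_eq_true_eq] at hc
    tauto
  unfold PR Pool.Agent.LZ.PR at hp
  simp only [Finset.mem_filter] at hp
  obtain ⟨-, h1, h2, h3⟩ := hp
  have hv0 : (0 : ℚ) < c.v0 := by exact_mod_cast hv.1
  have hv1 : (0 : ℚ) < c.v1 := by exact_mod_cast hv.2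
  refine ⟨h1, ?_, ?_⟩
  · unfold PMlo at h2
    rw [div_mul_eq_mul_div, div_lt_iff₀ hv0] at h2
    exact_mod_cast h2
  · unfold PMhi at h3
    rw [div_mul_eq_mul_div, le_div_iff₀ hv1] at h3
    exact_mod_cast h3

theorem PM_bound (L : List Cell) (P : Cell → ℝ → Prop) (hmono : ∀ c K K', K ≤ K' → P c K → P c K')
    (h : ∀ c ∈ L, ∃ K, P c K) : ∃ K : ℝ, 0 ≤ K ∧ ∀ c ∈ L, P c K := by
  induction L with
  | nil => exact ⟨0, le_rfl, fun c hc => absurd hc List.not_mem_nil⟩
  | cons c l ih =>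
    obtain ⟨K1, h1, h2⟩ := ih (fun c hc => h c (List.mem_cons_of_mem _ hc))
    obtain ⟨K2, h3⟩ := h c List.mem_cons_self
    refine ⟨max K1 K2, h1.trans (le_max_left _ _), fun d hd => ?_⟩
    rcases List.mem_cons.1 hd with rfl | hd
    · exact hmono _ _ _ (le_max_right _ _) h3
    · exact hmono _ _ _ (le_max_left _ _) (h2 d hd)

theorem PM_tendsto (L : List Cell) (f : Cell → ℕ → ℝ) (g : Cell → ℝ)
    (h : ∀ c ∈ L, Tendsto (f c) atTop (𝓝 (g c))) :
    Tendsto (fun n => (L.map fun c => f c n).sum) atTop (𝓝 (L.map g).sum) := by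
  induction L with
  | nil => simp
  | cons c l ih =>
    simp only [List.map_cons, List.sum_cons]
    exact (h c List.mem_cons_self).add (ih fun c hc => h c (List.mem_cons_of_mem _ hc))

theorem PM_theta (n : ℕ) (a b : ℚ) : ∑ p ∈ PR a b n, Real.log p ≤ Real.log 4 * (15 * n) := by
  refine le_trans ?_ (Chebyshev.theta_le_log4_mul_x (x := 15 * n) (by positivity))
  unfold Chebyshev.theta
  apply Finset.sum_le_sum_of_subset_of_nonneg
  · intro p hp
    unfold PR Pool.Agent.LZ.PR at hp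
    rw [Finset.mem_filter, Finset.mem_range] at hp
    rw [Finset.mem_filter, Finset.mem_Ioc]
    refine ⟨⟨hp.2.1.pos, ?_⟩, hp.2.1⟩
    rw [Nat.le_floor_iff (by positivity)]
    have : ((p : ℕ) : ℝ) ≤ ((15 * n : ℕ) : ℝ) := by exact_mod_cast hp.1.le
    push_cast at this
    exact this
  · intro p hp _
    rw [Finset.mem_filter] at hp
    exact Real.log_nonneg (by exact_mod_cast hp.2.one_lt.le)

end

end Pool.Agent.ZF
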