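import Pool.Agent.H387R3.ZF.Cells
import Pool.Agent.H337R2.Asym

/-! STUBS of the project `1, ζ(3), ζ(4)` linearly independent over `ℚ` (all parts except the archimedean one).
Never import this file in a finished module. -/

open Polynomial Pool.Agent.H337R2 Filter Topology

namespace Pool.Agent.ZF

noncomputable section

/-! ### A. Linear algebra: finished and general (`H336R2.HD.A1, A3, A5, D1`, `H102R2.Z5.Fek`) -/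

/-! ### B. The linear form and the integral -/

/-- from `linear_form` of `H337R2.Form` with `β = 2` and `β = 1`, `s0 = 2n`; the simple poles have `∑ c_k = 0` -/
theorem B1_hasSum {n : ℕ} (hn : 1 ≤ n) (α β : ℚ) (h : zr 4 = (α : ℝ) + β * zr 3) (Q : ℚ[X])
    (hQ : Q.natDegree ≤ 8 * n - 2) :
    ∃ F2 F1 : ℝ,
      HasSum (fun t : ℕ => ((PowerSeries.coeff 2 (RS (sF n) mF (PF n * Q) (t : ℚ)) : ℚ) : ℝ)) F2 ∧
      HasSum (fun t : ℕ => ((PowerSeries.coeff 1 (RS (sF n) mF (PF n * Q) (t : ℚ)) : ℚ) : ℝ)) F1 ∧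
      ((NL n α β Q : ℚ) : ℝ) = 2 * F2 + 3 * β * F1 := by
  sorry

/-- the case `b = 2` of `F_le_integral` (`H337R2.Cx3`): the degree drop is at least 2, so `|Rc| ≤ C / (1 + y²)` and
the double series converges absolutely -/
theorem B2_kernel2 (s : Finset ℕ) (μ : ℕ → ℕ) (P : ℚ[X]) (hdeg : P.natDegree + 2 ≤ (QQ s μ).natDegree)
    (hs : ∀ k ∈ s, 1 ≤ k) (F : ℝ)
    (hF : HasSum (fun t : ℕ => ((PowerSeries.coeff 1 (RS s μ P (t : ℚ)) : ℚ) : ℝ)) F)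
    (B : ℝ) (hB : ∀ y : ℝ, ‖Rc s μ P y‖ * Real.exp (-(2 * Real.pi * |y|)) ≤ B * (1 + y ^ 2)⁻¹)
    (C : ℝ) (hC : 0 ≤ C) (hCK : ∀ y : ℝ, ‖KK 2 y‖ ≤ C * Real.exp (-(2 * Real.pi * |y|))) : |F| ≤ C * B := by
  sorry

theorem B3_NL_le (β : ℚ) : ∃ C : ℝ, 0 < C ∧ ∀ n : ℕ, 1 ≤ n → ∀ α : ℚ, zr 4 = (α : ℝ) + β * zr 3 →
    ∀ Q : ℚ[X], Q.natDegree ≤ 8 * n - 2 → ∀ B : ℝ,
    (∀ y : ℝ, ‖Rn n y‖ * ‖aeval (zl y) Q‖ * Real.exp (-(2 * Real.pi * |y|)) ≤ B * (1 + y ^ 2)⁻¹) →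
    |((NL n α β Q : ℚ) : ℝ)| ≤ C * B := by
  sorry

/-! ### C. p-adic size of the entries -/

theorem C1_pa {n p : ℕ} [Fact p.Prime] (hn : 1 ≤ n) (hp2 : 10 * n < p ^ 2) (E : ℚ[X]) {k : ℕ}
    (hk : k ∈ sF n) (A : ℚ) (hA : 0 ≤ A) (hE : PB p (p : ℚ) A (TS (-(k : ℚ)) E)) (i : ℕ) :
    padicNorm p (pa (sF n) mF (PF n * E) k i) ≤ (p : ℚ) ^ (-eF n p k - i : ℤ) * A := by
  sorry

theorem C1_pa_int {n p : ℕ} [Fact p.Prime] (hn : 1 ≤ n) (E : ℚ[X]) {k : ℕ}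
    (hk : k ∈ sF n) (A : ℚ) (hA : 0 ≤ A) (hE : PB p 1 A (TS (-(k : ℚ)) E)) (i : ℕ)
    (hno : ∀ k' ∈ sF n, k' ≠ k → ¬ (p : ℤ) ∣ (k' : ℤ) - k) :
    padicNorm p (pa (sF n) mF (PF n * E) k i) ≤ padicNorm p (cF n) * A := by
  sorry

theorem C2_xf {n p : ℕ} [Fact p.Prime] (hn : 1 ≤ n) (hp2 : 10 * n < p ^ 2) (q : ℕ) (α β : ℚ) (hα : QI q α)
    (hβ : QI q β) (E : ℚ[X]) (W : ℚ) (hW : 0 ≤ W) (A : ℕ → ℚ) (hA : ∀ k, 0 ≤ A k)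
    (hE : ∀ k ∈ sF n, PB p (p : ℚ) (A k) (TS (-(k : ℚ)) E))
    (hE1 : ∀ k ∈ sF n, PB p 1 1 (TS (-(k : ℚ)) E))
    (h : ∀ k ∈ sF n, (p : ℚ) ^ (2 - eF n p k) * A k ≤ W ∨
      (padicNorm p (cF n) ≤ W ∧ k < 2 * n + 1 + p ∧ ∀ k' ∈ sF n, k' ≠ k → ¬ (p : ℤ) ∣ (k' : ℤ) - k)) :
    padicNorm p ((q : ℚ) * xf n α β (PF n * E)) ≤ W := by
  sorry

theorem C3_crude {n p : ℕ} [Fact p.Prime] (hn : 1 ≤ n) (q : ℕ) (α β : ℚ) (hα : QI q α) (hβ : QI q β)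
    (E : ℚ[X]) (A : ℚ) (hA : 0 ≤ A)
    (hE : ∀ k ∈ sF n, PB p ((14 * n + 1 : ℕ) : ℚ) A (TS (-(k : ℚ)) E)) :
    padicNorm p ((q : ℚ) * xf n α β (PF n * E)) ≤ ((14 * n + 1 : ℕ) : ℚ) ^ 40 * A := by
  sorry

/-- consecutive zeros (= `Pool.Agent.LZ.C4_PB` of `H337R2/LZ/C4.lean`, finished) -/
theorem C4_PB {n p : ℕ} [Fact p.Prime] (ρ : ℚ) (hρ1 : 1 ≤ ρ)
    (hρ : ∀ l : ℕ, 1 ≤ l → l ≤ 14 * n → (padicNorm p (l : ℚ))⁻¹ ≤ ρ) (i : ℕ) (hi : i ≤ 14 * n) (k : ℕ) :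
    PB p ρ (padicNorm p ((i.factorial : ℕ) : ℚ)) (TS (-(k : ℚ)) (∏ l ∈ Finset.range i, (X + C (l : ℚ)))) := by
  sorry

/-! ### D. p-adic size of the determinant -/

theorem D3_det {n p : ℕ} [Fact p.Prime] (hn : 1 ≤ n) (hp2 : 10 * n < p ^ 2) (q : ℕ) (α β : ℚ)
    (hα : QI q α) (hβ : QI q β) (m : ℕ) (μ : ℤ) (S : Finset ℕ) (hS : S ⊆ Finset.range p)
    (h : ∀ k ∈ sF n, k % p ∈ S ∨
      (padicNorm p (cF n) ≤ (p : ℚ) ^ μ ∧ k < 2 * n + 1 + p ∧ ∀ k' ∈ sF n, k' ≠ k → ¬ (p : ℤ) ∣ (k' : ℤ) - k)) :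
    padicNorm p ((q : ℚ) ^ m * DET n α β m) ≤ (p : ℚ) ^ ((m : ℤ) * μ + ∑ κ ∈ S, TT (2 - eF n p κ - μ)) := by
  sorry

theorem D3_large {n p : ℕ} [Fact p.Prime] (hn : 1 ≤ n) (hp2 : 10 * n < p ^ 2) (hp : 8 * n ≤ p) (q : ℕ) (α β : ℚ)
    (hα : QI q α) (hβ : QI q β) (m : ℕ) :
    padicNorm p ((q : ℚ) ^ m * DET n α β m) ≤ 1 := by
  sorry

/-- the trivial bound of the exponent -/
theorem D4_eF_ge {n p k : ℕ} (hp : 0 < p) : -2 ≤ eF n p k := by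
  sorry

theorem D4_small_med {n p : ℕ} [Fact p.Prime] (hn : 1 ≤ n) (hp2 : 14 * n < p ^ 2) (q : ℕ) (α β : ℚ)
    (hα : QI q α) (hβ : QI q β) :
    padicNorm p ((q : ℚ) ^ (4 * n) * DET n α β (4 * n)) ≤
      ((p : ℚ) ^ 4) ^ (4 * n) * ∏ i ∈ Finset.range (4 * n), padicNorm p ((i.factorial : ℕ) : ℚ) ^ 2 := by
  sorry

theorem D4_small_crude {n p : ℕ} [Fact p.Prime] (hn : 1 ≤ n) (q : ℕ) (α β : ℚ)
    (hα : QI q α) (hβ : QI q β) :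
    padicNorm p ((q : ℚ) ^ (4 * n) * DET n α β (4 * n)) ≤
      (((14 * n + 1 : ℕ) : ℚ) ^ 40) ^ (4 * n) *
        ∏ i ∈ Finset.range (4 * n), padicNorm p ((i.factorial : ℕ) : ℚ) ^ 2 := by
  sorry

/-! ### E. Cells -/

/-- floors in a cell -/
theorem E1_fl {c : Cell} (hc : c.ok = true) {n p : ℕ} (hp : 0 < p) (h0 : c.u0 * n < p * c.v0)
    (h1 : p * c.v1 ≤ c.u1 * n) {a : ℕ} (ha : a ∈ [2, 3, 4, 7, 10]) : a * n / p = c.fl a := by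
  sorry

/-- sum over the classes (the counting lemma `E1_cnt` is finished: `Pool.Agent.LZ.E1_cnt`) -/
theorem E2_sum {c : Cell} (hc : c.ok = true) {n p : ℕ} (hn : 1 ≤ n) (hp : p.Prime) (h0 : c.u0 * n < p * c.v0)
    (h1 : p * c.v1 ≤ c.u1 * n) (f : ℕ → ℤ) (K : ℤ) (hK : 0 ≤ K) (hf0 : f 0 ≤ K)
    (hf : ∀ r, 1 ≤ r → r < p → f r ≤
      c.cost (eF n p r) ((cnt p (2 * n + 1) (10 * n) r : ℕ) : ℤ)) :
    ∑ r ∈ Finset.range p, f r ≤ (c.AB.1 - 4 * c.mu) * n + c.AB.2 * p + K := by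
  sorry

/-- p-adic size of the determinant in a cell -/
theorem E4_cell (c : Cell) (hc : c.ok = true) : ∃ K0 : ℝ, ∀ n : ℕ, 1 ≤ n → ∀ p : ℕ, p.Prime → 10 * n < p ^ 2 →
    c.u0 * n < p * c.v0 → p * c.v1 ≤ c.u1 * n → ∀ (q : ℕ) (α β : ℚ), QI q α → QI q β →
    ((padicNorm p ((q : ℚ) ^ (4 * n) * DET n α β (4 * n)) : ℚ) : ℝ) ≤
      (p : ℝ) ^ ((c.AB.1 : ℝ) * n + c.AB.2 * p + K0) := by
  sorry

theorem E5_ok : cells.all Cell.ok = true := by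
  sorry

/-! ### F. Prime number theorem sums (`F1_lin` is finished: `Pool.Agent.LZ.F1_lin`) -/

/-- true value `52.96246` -/
theorem F3_total : (cells.map Cell.lim).sum ≤ 5297 / 100 := by
  sorry

/-- the factorial part in a cell -/
theorem F4_sf {c : Cell} (hc : c.ok = true) {n p : ℕ} (hn : 1 ≤ n) (hp : 0 < p) (h0 : c.u0 * n < p * c.v0)
    (h1 : p * c.v1 ≤ c.u1 * n) :
    ((2 * ∑ i ∈ Finset.range (4 * n), (i / p) : ℕ) : ℤ) = c.sf.1 * n + c.sf.2 * p := by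
  sorry

/-- factorials: the small prime part -/
theorem F5_fact : ∀ᶠ n : ℕ in atTop,
    ∑ p ∈ (Finset.range (n + 1)).filter (fun p : ℕ => p.Prime ∧ 40 * p ≤ n),
      2 * ∑ i ∈ Finset.range (4 * n), Real.log ((padicNorm p ((i.factorial : ℕ) : ℚ) : ℚ) : ℝ) ≤
    - (2 * ∑ i ∈ Finset.range (4 * n), Real.log (i.factorial : ℝ)) +
      ∑ p ∈ PR (1 / 40) 10 n, ((2 * ∑ i ∈ Finset.range (4 * n), (i / p) : ℕ) : ℝ) * Real.log p := by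
  sorry

/-- `16 log 4 - 24 = -1.8193` -/
theorem F6_superfac : ∀ ε : ℝ, 0 < ε → ∀ᶠ n : ℕ in atTop,
    16 * (n : ℝ) ^ 2 * Real.log n - (182 / 100 + ε) * (n : ℝ) ^ 2 ≤
      2 * ∑ i ∈ Finset.range (4 * n), Real.log (i.factorial : ℝ) := by
  sorry

/-- small primes: trivial exponents -/
theorem F7_small : ∀ ε : ℝ, 0 < ε → ∀ᶠ n : ℕ in atTop,
    4 * (n : ℝ) * ∑ p ∈ (Finset.range (n + 1)).filter (fun p : ℕ => p.Prime ∧ p ^ 2 ≤ 14 * n),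
        40 * Real.log (14 * n + 1) +
    16 * (n : ℝ) * ∑ p ∈ (Finset.range (n + 1)).filter (fun p : ℕ => p.Prime ∧ 40 * p ≤ n), Real.log p ≤
    (16 / 40 + ε) * (n : ℝ) ^ 2 := by
  sorry

/-- **the p-adic part**: `1.82 + 52.97 + 0.4 = 55.19` -/
theorem P_main : ∀ ε : ℝ, 0 < ε → ∀ (q : ℕ) (α β : ℚ), QI q α → QI q β → ∀ᶠ n : ℕ in atTop,
    DET n α β (4 * n) ≠ 0 →
    ∑ p ∈ (Finset.range (10 * n + 1)).filter Nat.Prime,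
      Real.log ((padicNorm p ((q : ℚ) ^ (4 * n) * DET n α β (4 * n)) : ℚ) : ℝ) ≤
    -(16 * (n : ℝ) ^ 2 * Real.log n) + (552 / 10 + ε) * (n : ℝ) ^ 2 := by
  sorry

theorem P_large : ∀ (q : ℕ) (α β : ℚ), QI q α → QI q β → ∀ n : ℕ, 1 ≤ n → ∀ p : ℕ, p.Prime → 10 * n < p →
    padicNorm p ((q : ℚ) ^ (4 * n) * DET n α β (4 * n)) ≤ 1 := by
  sorry

/-! ### H. Non-vanishing (`n = p`) -/

/-- the exponent at `n = p` is `0` -/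
theorem H1_eF {p : ℕ} (hp : p.Prime) (hp2 : 10 < p) {k : ℕ} (hk : k ∈ sF p) : eF p p k = 0 := by
  sorry

theorem H2_pa {p : ℕ} [Fact p.Prime] (hp : 100 ≤ p) (r : ℕ) (hr1 : 1 ≤ r) (hr2 : r ≤ p) :
    ∃ w : ℚ, padicNorm p w = 1 ∧ ∀ e j i : ℕ, e ≤ 6 → 3 ≤ j → j ≤ 9 → 1 ≤ i → i ≤ 2 →
      padicNorm p (pa (sF p) mF (PF p * ((X + C (r : ℚ)) ^ e * OT p r 8)) (r + j * p) i
        / (p : ℚ) ^ (i + e) -
        w * PowerSeries.coeff (2 - i) (ser j e)) ≤ (p : ℚ)⁻¹ := by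
  sorry

theorem H3_diag {p : ℕ} [Fact p.Prime] (hp : 100 ≤ p) (α β : ℚ) (hα : padicNorm p α ≤ 1)
    (hβ : padicNorm p β ≤ 1) (r : ℕ) (hr1 : 1 ≤ r) (hr2 : r ≤ p) :
    ∃ w : ℚ, padicNorm p w = 1 ∧ ∀ e : ℕ, e ≤ 6 →
      padicNorm p ((p : ℚ) ^ (2 - (e : ℤ)) * NL p α β ((X + C (r : ℚ)) ^ e * OT p r 8) - w * Fm e) ≤ (p : ℚ)⁻¹ := by
  sorry

theorem H4_offdiag {p : ℕ} [Fact p.Prime] (hp : 100 ≤ p) (α β : ℚ) (hα : padicNorm p α ≤ 1)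
    (hβ : padicNorm p β ≤ 1) (r s l l' : ℕ) (hr1 : 1 ≤ r) (hr2 : r ≤ p) (hs1 : 1 ≤ s) (hs2 : s ≤ p) (hrs : r ≠ s)
    (hl : l < 4) (hl' : l' < 4) :
    padicNorm p ((p : ℚ) ^ (2 - (l : ℤ) - (l' : ℤ)) * NL p α β
      (((X + C (r : ℚ)) ^ l * OT p r 4) * ((X + C (s : ℚ)) ^ l' * OT p s 4))) ≤ (p : ℚ)⁻¹ := by
  sorry

/-- exact value `106305403544840627907685044474992899534490300647/2667059674571980800000000000000000000`;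
`3` modulo `11` -/
theorem H5_local : (Matrix.of fun l l' : Fin 4 => Fm (l.1 + l'.1)).det ≠ 0 := by
  sorry

theorem H6_nonvanish (α β : ℚ) : ∃ p0 : ℕ, ∀ p : ℕ, p0 ≤ p → p.Prime → DET p α β (4 * p) ≠ 0 := by
  sorry

/-! ### Z. Conclusion (the archimedean part `A_main` is in the stubs of helper383) -/

/-- `AM` is the archimedean part: `S` is a modulus such that the bound holds for `n ≡ 1 mod S` -/
theorem Z1_of (α β : ℚ) (h : zr 4 = (α : ℝ) + β * zr 3) (S : ℕ) (hS : 1 ≤ S)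
    (AM : ∀ᶠ N : ℕ in atTop, ∀ n : ℕ, n = S * N + 1 → DET n α β (4 * n) ≠ 0 →
      Real.log |((DET n α β (4 * n) : ℚ) : ℝ)| ≤ 16 * (n : ℝ) ^ 2 * Real.log n - 56 * (n : ℝ) ^ 2) : False := by
  sorry

/-- from `Z1` (for all `α β`) and the irrationality of `ζ(3)` -/
theorem Z3_of (h1 : ∀ α β : ℚ, zr 4 ≠ (α : ℝ) + β * zr 3) (h2 : Irrational (zr 3)) :
    LinearIndependent ℚ ![(1 : ℝ), zr 3, zr 4] := by
  sorry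

end

end Pool.Agent.ZF
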