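import Pool.Agent.H447R2.MZ.Tup

set_option autoImplicit false

/-! # Multiple zeta values of weight four are rational multiples of `ζ(4)` -/

open Filter Topology Finset
open scoped ENNReal

namespace Pool.Agent.ZF.W4a

open Pool.Agent.H447R2.MZ

/-! ### admissible indices -/

theorem adm_cons (a : ℕ) (t : List ℕ) (ha : 2 ≤ a) (ht : ∀ c ∈ t, 1 ≤ c) : Adm (a :: t) := by
  refine ⟨?_, ?_⟩
  · intro c hc
    rcases List.mem_cons.1 hc with rfl | hc
    · omega
    · exact ht c hc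
  · intro b s h
    simp only [List.cons.injEq] at h
    omega

theorem hasSum_cons (a : ℕ) (t : List ℕ) (h : Adm (a :: t)) :
    HasSum (fun n : ℕ => (((n + 1 : ℕ) : ℝ) ^ a)⁻¹ * H t n) (val (a :: t)) := by
  rw [hasSum_iff_tendsto_nat_of_nonneg (fun n => mul_nonneg (by positivity) (H_nonneg _ _))]
  refine (tendsto_H (a :: t) h).congr fun N => ?_
  rw [H_cons]

theorem val_nonneg (a : ℕ) (t : List ℕ) (h : Adm (a :: t)) : 0 ≤ val (a :: t) :=
  (hasSum_cons a t h).nonneg fun n => mul_nonneg (by positivity) (H_nonneg _ _)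

theorem tsum_cons (a : ℕ) (t : List ℕ) (h : Adm (a :: t)) :
    ENNReal.ofReal (val (a :: t)) =
      ∑' n : ℕ, ENNReal.ofReal ((((n + 1 : ℕ) : ℝ) ^ a)⁻¹) * ENNReal.ofReal (H t n) := by
  rw [← (hasSum_cons a t h).tsum_eq, ENNReal.ofReal_tsum_of_nonneg
    (fun n => mul_nonneg (by positivity) (H_nonneg _ _)) (hasSum_cons a t h).summable]
  refine tsum_congr fun n => ?_
  rw [ENNReal.ofReal_mul (by positivity)]

theorem ofReal_H_cons (a : ℕ) (t : List ℕ) (N : ℕ) : ENNReal.ofReal (H (a :: t) N) =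
    ∑ i ∈ range N, ENNReal.ofReal ((((i + 1 : ℕ) : ℝ) ^ a)⁻¹) * ENNReal.ofReal (H t i) := by
  rw [H_cons, ENNReal.ofReal_sum_of_nonneg (fun i _ => mul_nonneg (by positivity) (H_nonneg _ _))]
  refine Finset.sum_congr rfl fun i _ => ?_
  rw [ENNReal.ofReal_mul (by positivity)]

/-- exchange of summations over `i < N` -/
theorem exch (u : ℕ → ℕ → ℝ≥0∞) :
    ∑' N : ℕ, ∑ i ∈ range N, u N i = ∑' i : ℕ, ∑' n : ℕ, u (i + n + 1) i := by
  have h1 : ∀ N : ℕ, ∑ i ∈ range N, u N i = ∑' i : ℕ, if i < N then u N i else 0 := by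
    intro N
    rw [tsum_eq_sum (s := Finset.range N)]
    · refine Finset.sum_congr rfl fun i hi => ?_
      rw [if_pos (Finset.mem_range.1 hi)]
    · intro m hm
      rw [if_neg (fun h => hm (Finset.mem_range.2 h))]
  simp only [h1]
  rw [ENNReal.tsum_comm]
  refine tsum_congr fun m => ?_
  have h2 := Summable.sum_add_tsum_nat_add' (f := fun N : ℕ => if m < N then u N m else 0)
    (k := m + 1) ENNReal.summable
  rw [← h2, Finset.sum_eq_zero, zero_add]
  · refine tsum_congr fun n => ?_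
    rw [if_pos (by omega)]
    congr 1
    omega
  · intro i hi
    rw [if_neg]
    have := Finset.mem_range.1 hi
    omega

/-- double sums of depth two -/
theorem tsum_two (a b : ℕ) (ha : 2 ≤ a) (hb : 1 ≤ b) : ENNReal.ofReal (val [a, b]) =
    ∑' i : ℕ, ∑' n : ℕ, ENNReal.ofReal ((((i : ℝ) + n + 2) ^ a)⁻¹) *
      ENNReal.ofReal ((((i : ℝ) + 1) ^ b)⁻¹) := by
  rw [tsum_cons a [b] (adm_cons a [b] ha (by simpa using hb))]
  simp only [ofReal_H_cons, H_nil, ENNReal.ofReal_one, mul_one, Finset.mul_sum]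
  rw [exch]
  refine tsum_congr fun i => tsum_congr fun n => ?_
  push_cast
  congr 4
  ring

/-! ### `ζ(2,2)` and `ζ(3,1)` -/

theorem val_22 : val [2] * val [2] = 2 * val [2, 2] + val [4] := by
  have h : Adm [2] := adm_cons 2 [] le_rfl (by simp)
  rw [val_mul [2] [2] h h]
  simp only [st, List.map_cons, List.map_nil, List.sum_cons, List.sum_nil,
    List.cons_append, List.nil_append]
  ring

theorem pf (m n : ℕ) : ((((m : ℝ) + 1) ^ 2)⁻¹ * (((n : ℝ) + 1) ^ 2)⁻¹) =
    ((((m : ℝ) + n + 2) ^ 2)⁻¹ * (((m : ℝ) + 1) ^ 2)⁻¹ +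
      2 * ((((m : ℝ) + n + 2) ^ 3)⁻¹ * (((m : ℝ) + 1) ^ 1)⁻¹)) +
    ((((n : ℝ) + m + 2) ^ 2)⁻¹ * (((n : ℝ) + 1) ^ 2)⁻¹ +
      2 * ((((n : ℝ) + m + 2) ^ 3)⁻¹ * (((n : ℝ) + 1) ^ 1)⁻¹)) := by
  have h1 : (m : ℝ) + 1 ≠ 0 := by positivity
  have h2 : (n : ℝ) + 1 ≠ 0 := by positivity
  have h3 : (m : ℝ) + n + 2 ≠ 0 := by positivity
  have h4 : (n : ℝ) + m + 2 ≠ 0 := by positivity
  have e : (n : ℝ) + m + 2 = (m : ℝ) + n + 2 := by ring
  rw [e]
  field_simp
  ring

theorem val_31 : val [2] * val [2] = 2 * val [2, 2] + 4 * val [3, 1] := by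
  have h2 : Adm [2] := adm_cons 2 [] le_rfl (by simp)
  have n2 : 0 ≤ val [2] := val_nonneg 2 [] h2
  have n22 : 0 ≤ val [2, 2] := val_nonneg 2 [2] (adm_cons 2 [2] le_rfl (by simp))
  have n31 : 0 ≤ val [3, 1] := val_nonneg 3 [1] (adm_cons 3 [1] (by norm_num) (by simp))
  have e1 : ENNReal.ofReal (val [2]) * ENNReal.ofReal (val [2]) =
      ∑' m : ℕ, ∑' n : ℕ, ENNReal.ofReal ((((m : ℝ) + 1) ^ 2)⁻¹ * (((n : ℝ) + 1) ^ 2)⁻¹) := by
    have e0 : ENNReal.ofReal (val [2]) = ∑' n : ℕ, ENNReal.ofReal ((((n : ℝ) + 1) ^ 2)⁻¹) := by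
      rw [tsum_cons 2 [] h2]
      refine tsum_congr fun n => ?_
      rw [H_nil, ENNReal.ofReal_one, mul_one]
      push_cast
      rfl
    rw [e0, ← ENNReal.tsum_mul_right]
    refine tsum_congr fun m => ?_
    rw [← ENNReal.tsum_mul_left]
    refine tsum_congr fun n => ?_
    rw [ENNReal.ofReal_mul (by positivity)]
  have e2 : ∑' m : ℕ, ∑' n : ℕ, ENNReal.ofReal ((((m : ℝ) + 1) ^ 2)⁻¹ * (((n : ℝ) + 1) ^ 2)⁻¹) =
      (ENNReal.ofReal (val [2, 2]) + 2 * ENNReal.ofReal (val [3, 1])) +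
      (ENNReal.ofReal (val [2, 2]) + 2 * ENNReal.ofReal (val [3, 1])) := by
    have hg : ∑' m : ℕ, ∑' n : ℕ, (ENNReal.ofReal ((((m : ℝ) + n + 2) ^ 2)⁻¹ *
        (((m : ℝ) + 1) ^ 2)⁻¹ + 2 * ((((m : ℝ) + n + 2) ^ 3)⁻¹ * (((m : ℝ) + 1) ^ 1)⁻¹))) =
        ENNReal.ofReal (val [2, 2]) + 2 * ENNReal.ofReal (val [3, 1]) := by
      rw [tsum_two 2 2 le_rfl (by norm_num), tsum_two 3 1 (by norm_num) le_rfl,
        ← ENNReal.tsum_mul_left, ← ENNReal.tsum_add]
      refine tsum_congr fun m => ?_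
      rw [← ENNReal.tsum_mul_left, ← ENNReal.tsum_add]
      refine tsum_congr fun n => ?_
      rw [ENNReal.ofReal_add (by positivity) (by positivity), ENNReal.ofReal_mul (by positivity),
        ENNReal.ofReal_mul (by norm_num), ENNReal.ofReal_mul (by positivity)]
      norm_num
    conv_lhs => enter [1, m, 1, n]; rw [pf m n, ENNReal.ofReal_add (by positivity) (by positivity)]
    simp only [ENNReal.tsum_add]
    rw [hg]
    congr 1
    rw [ENNReal.tsum_comm]
    exact hg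
  rw [e2, ← ENNReal.ofReal_mul n2] at e1
  have e3 : (ENNReal.ofReal (val [2, 2]) + 2 * ENNReal.ofReal (val [3, 1])) +
      (ENNReal.ofReal (val [2, 2]) + 2 * ENNReal.ofReal (val [3, 1])) =
      ENNReal.ofReal ((val [2, 2] + 2 * val [3, 1]) + (val [2, 2] + 2 * val [3, 1])) := by
    rw [ENNReal.ofReal_add (by positivity) (by positivity),
      ENNReal.ofReal_add (by positivity) (by positivity), ENNReal.ofReal_mul (by norm_num)]
    norm_num
  rw [e3, ENNReal.ofReal_eq_ofReal_iff (by positivity) (by positivity)] at e1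
  linarith

/-! ### `ζ(2,1,1)` (connected sums) -/

/-- the connector `m! b! / (m+b)!` -/
noncomputable def cn (m b : ℕ) : ℝ := (m.factorial * b.factorial : ℝ) / ((m + b).factorial : ℝ)

theorem cn_symm (m b : ℕ) : cn m b = cn b m := by
  unfold cn
  rw [mul_comm, add_comm]

theorem cn_zero (m : ℕ) : cn m 0 = 1 := by
  unfold cn
  simp only [Nat.factorial_zero, Nat.cast_one, mul_one, add_zero]
  exact div_self (by exact_mod_cast m.factorial_ne_zero)

theorem cn_nonneg (m b : ℕ) : 0 ≤ cn m b := by unfold cn; positivity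

theorem cn_succ (m b : ℕ) : cn m (b + 1) * ((m : ℝ) + b + 1) = cn m b * ((b : ℝ) + 1) := by
  unfold cn
  rw [← add_assoc, Nat.factorial_succ (m + b), Nat.factorial_succ b]
  push_cast
  have h1 : ((m + b).factorial : ℝ) ≠ 0 := by exact_mod_cast (m + b).factorial_ne_zero
  have h2 : (m : ℝ) + b + 1 ≠ 0 := by positivity
  field_simp

theorem cn_le (m b : ℕ) (hm : 1 ≤ m) : cn m b ≤ ((b : ℝ) + 1)⁻¹ := by
  have hm' : (1 : ℝ) ≤ m := by exact_mod_cast hm
  induction b with
  | zero => rw [cn_zero]; simp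
  | succ b ih =>
    have h1 := cn_succ m b
    have h2 : (0 : ℝ) < (b : ℝ) + 1 := by positivity
    have h3 : cn m b * ((b : ℝ) + 1) ≤ 1 := by
      calc cn m b * ((b : ℝ) + 1) ≤ ((b : ℝ) + 1)⁻¹ * ((b : ℝ) + 1) := by gcongr
        _ = 1 := inv_mul_cancel₀ h2.ne'
    have h4 : cn m (b + 1) * ((b : ℝ) + 1 + 1) ≤ 1 := by
      calc cn m (b + 1) * ((b : ℝ) + 1 + 1) ≤ cn m (b + 1) * ((m : ℝ) + b + 1) := by
            apply mul_le_mul_of_nonneg_left _ (cn_nonneg _ _)
            linarith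
        _ ≤ 1 := by rw [h1]; exact h3
    push_cast
    rw [← one_div, le_div_iff₀ (by positivity)]
    exact h4

/-- telescoping -/
theorem cn_tele (m b : ℕ) (hm : 1 ≤ m) :
    HasSum (fun n : ℕ => ((b : ℝ) + n + 1)⁻¹ * cn m (b + n + 1)) ((m : ℝ)⁻¹ * cn m b) := by
  have hm' : (0 : ℝ) < m := by exact_mod_cast hm
  rw [hasSum_iff_tendsto_nat_of_nonneg (fun n => mul_nonneg (by positivity) (cn_nonneg _ _))]
  have h1 : ∀ M : ℕ, ∑ n ∈ range M, ((b : ℝ) + n + 1)⁻¹ * cn m (b + n + 1) =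
      (m : ℝ)⁻¹ * cn m b - (m : ℝ)⁻¹ * cn m (b + M) := by
    intro M
    induction M with
    | zero => simp
    | succ M ih =>
      rw [Finset.sum_range_succ, ih]
      have h2 := cn_succ m (b + M)
      push_cast at h2
      have h3 : ((b : ℝ) + M + 1) ≠ 0 := by positivity
      rw [← add_assoc]
      have h4 : (m : ℝ)⁻¹ * cn m (b + M) = (m : ℝ)⁻¹ * cn m (b + M + 1) +
          ((b : ℝ) + M + 1)⁻¹ * cn m (b + M + 1) := by
        have h5 : cn m (b + M) = cn m (b + M + 1) * ((m : ℝ) + (b + M) + 1) / ((b : ℝ) + M + 1) := by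
          rw [eq_div_iff h3, h2]
        rw [h5]
        field_simp
        ring
      rw [h4]
      ring
  simp only [h1]
  have h2 : Tendsto (fun M : ℕ => cn m (b + M)) atTop (𝓝 0) := by
    refine squeeze_zero (fun M => cn_nonneg _ _) (fun M => cn_le m (b + M) hm) ?_
    have h3 : Tendsto (fun M : ℕ => ((b : ℝ) + M + 1)) atTop atTop := by
      have := tendsto_natCast_atTop_atTop (R := ℝ)
      exact tendsto_atTop_add_const_right _ _ (tendsto_atTop_add_const_left _ _ this)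
    refine (h3.inv_tendsto_atTop).congr fun M => ?_
    simp only [Pi.inv_apply]
    push_cast
    rfl
  simpa using (tendsto_const_nhds (x := (m : ℝ)⁻¹ * cn m b)).sub (h2.const_mul ((m : ℝ)⁻¹))

theorem cn_teleE (m b : ℕ) (hm : 1 ≤ m) :
    ∑' n : ℕ, ENNReal.ofReal (((b : ℝ) + n + 1)⁻¹ * cn m (b + n + 1)) =
      ENNReal.ofReal ((m : ℝ)⁻¹ * cn m b) := by
  rw [← (cn_tele m b hm).tsum_eq, ENNReal.ofReal_tsum_of_nonneg
    (fun n => mul_nonneg (by positivity) (cn_nonneg _ _)) (cn_tele m b hm).summable]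

/-- connected sum -/
noncomputable def DD (m : ℕ) (s : List ℕ) : ℝ≥0∞ :=
  ∑' N : ℕ, ENNReal.ofReal (((N : ℝ) + 1)⁻¹ * cn m (N + 1)) * ENNReal.ofReal (H s N)

theorem DD_nil (m : ℕ) (hm : 1 ≤ m) : DD m [] = ENNReal.ofReal ((m : ℝ)⁻¹) := by
  unfold DD
  have h := cn_teleE m 0 hm
  rw [cn_zero, mul_one] at h
  rw [← h]
  refine tsum_congr fun N => ?_
  rw [H_nil, ENNReal.ofReal_one, mul_one]
  simp

theorem DD_cons (m : ℕ) (hm : 1 ≤ m) (s : List ℕ) :
    DD m (1 :: s) = ENNReal.ofReal ((m : ℝ)⁻¹) * DD m s := by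
  unfold DD
  simp only [ofReal_H_cons, Finset.mul_sum]
  rw [exch, ← ENNReal.tsum_mul_left]
  refine tsum_congr fun i => ?_
  have h := cn_teleE m (i + 1) hm
  have e : ∀ n : ℕ, ENNReal.ofReal ((((i + n + 1 : ℕ) : ℝ) + 1)⁻¹ * cn m (i + n + 1 + 1)) *
      (ENNReal.ofReal ((((i + 1 : ℕ) : ℝ) ^ 1)⁻¹) * ENNReal.ofReal (H s i)) =
      ENNReal.ofReal ((((i + 1 : ℕ) : ℝ) + n + 1)⁻¹ * cn m (i + 1 + n + 1)) *
      (ENNReal.ofReal ((((i + 1 : ℕ) : ℝ) ^ 1)⁻¹) * ENNReal.ofReal (H s i)) := by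
    intro n
    have e1 : (((i + n + 1 : ℕ) : ℝ) + 1) = (((i + 1 : ℕ) : ℝ) + n + 1) := by push_cast; ring
    have e2 : i + n + 1 + 1 = i + 1 + n + 1 := by ring
    rw [e1, e2]
  simp only [e]
  rw [ENNReal.tsum_mul_right, h, ENNReal.ofReal_mul (by positivity),
    ENNReal.ofReal_mul (by positivity)]
  push_cast
  rw [pow_one]
  ring

theorem val_211 : val [2, 1, 1] = val [4] := by
  have a211 : Adm [2, 1, 1] := adm_cons 2 [1, 1] le_rfl (by simp)
  have a4 : Adm [4] := adm_cons 4 [] (by norm_num) (by simp)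
  have e1 : ∑' k : ℕ, ENNReal.ofReal (((k : ℝ) + 1)⁻¹) * DD (k + 1) [1, 1] =
      ENNReal.ofReal (val [4]) := by
    rw [tsum_cons 4 [] a4]
    refine tsum_congr fun k => ?_
    rw [DD_cons (k + 1) (by omega), DD_cons (k + 1) (by omega), DD_nil (k + 1) (by omega), H_nil,
      ENNReal.ofReal_one, mul_one, ← ENNReal.ofReal_mul (by positivity),
      ← ENNReal.ofReal_mul (by positivity), ← ENNReal.ofReal_mul (by positivity)]
    congr 1
    push_cast
    rw [← inv_pow]
    ring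
  have e2 : ∑' k : ℕ, ENNReal.ofReal (((k : ℝ) + 1)⁻¹) * DD (k + 1) [1, 1] =
      ENNReal.ofReal (val [2, 1, 1]) := by
    unfold DD
    simp only [← ENNReal.tsum_mul_left]
    rw [ENNReal.tsum_comm, tsum_cons 2 [1, 1] a211]
    refine tsum_congr fun N => ?_
    have h := cn_teleE (N + 1) 0 (by omega)
    rw [cn_zero, mul_one] at h
    have e : ∀ k : ℕ, ENNReal.ofReal (((k : ℝ) + 1)⁻¹) *
        (ENNReal.ofReal (((N : ℝ) + 1)⁻¹ * cn (k + 1) (N + 1)) * ENNReal.ofReal (H [1, 1] N)) =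
        ENNReal.ofReal (((((0 : ℕ) : ℝ)) + k + 1)⁻¹ * cn (N + 1) (0 + k + 1)) *
          (ENNReal.ofReal (((N : ℝ) + 1)⁻¹) * ENNReal.ofReal (H [1, 1] N)) := by
      intro k
      rw [ENNReal.ofReal_mul (by positivity), ENNReal.ofReal_mul (by positivity),
        cn_symm (k + 1) (N + 1), Nat.cast_zero, zero_add, zero_add]
      ring
    simp only [e]
    rw [ENNReal.tsum_mul_right, h, ← mul_assoc, ← ENNReal.ofReal_mul (by positivity)]
    congr 2
    push_cast
    rw [pow_two, mul_inv]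
  rw [e2, ENNReal.ofReal_eq_ofReal_iff (val_nonneg 2 [1, 1] a211) (val_nonneg 4 [] a4)] at e1
  exact e1

theorem val_21 : val [2, 1] = val [3] := by
  have a21 : Adm [2, 1] := adm_cons 2 [1] le_rfl (by simp)
  have a3 : Adm [3] := adm_cons 3 [] (by norm_num) (by simp)
  have e1 : ∑' k : ℕ, ENNReal.ofReal (((k : ℝ) + 1)⁻¹) * DD (k + 1) [1] =
      ENNReal.ofReal (val [3]) := by
    rw [tsum_cons 3 [] a3]
    refine tsum_congr fun k => ?_
    rw [DD_cons (k + 1) (by omega), DD_nil (k + 1) (by omega), H_nil,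
      ENNReal.ofReal_one, mul_one, ← ENNReal.ofReal_mul (by positivity),
      ← ENNReal.ofReal_mul (by positivity)]
    congr 1
    push_cast
    rw [← inv_pow]
    ring
  have e2 : ∑' k : ℕ, ENNReal.ofReal (((k : ℝ) + 1)⁻¹) * DD (k + 1) [1] =
      ENNReal.ofReal (val [2, 1]) := by
    unfold DD
    simp only [← ENNReal.tsum_mul_left]
    rw [ENNReal.tsum_comm, tsum_cons 2 [1] a21]
    refine tsum_congr fun N => ?_
    have h := cn_teleE (N + 1) 0 (by omega)
    rw [cn_zero, mul_one] at h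
    have e : ∀ k : ℕ, ENNReal.ofReal (((k : ℝ) + 1)⁻¹) *
        (ENNReal.ofReal (((N : ℝ) + 1)⁻¹ * cn (k + 1) (N + 1)) * ENNReal.ofReal (H [1] N)) =
        ENNReal.ofReal (((((0 : ℕ) : ℝ)) + k + 1)⁻¹ * cn (N + 1) (0 + k + 1)) *
          (ENNReal.ofReal (((N : ℝ) + 1)⁻¹) * ENNReal.ofReal (H [1] N)) := by
      intro k
      rw [ENNReal.ofReal_mul (by positivity), ENNReal.ofReal_mul (by positivity),
        cn_symm (k + 1) (N + 1), Nat.cast_zero, zero_add, zero_add]
      ring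
    simp only [e]
    rw [ENNReal.tsum_mul_right, h, ← mul_assoc, ← ENNReal.ofReal_mul (by positivity)]
    congr 2
    push_cast
    rw [pow_two, mul_inv]
  rw [e2, ENNReal.ofReal_eq_ofReal_iff (val_nonneg 2 [1] a21) (val_nonneg 3 [] a3)] at e1
  exact e1

theorem Zs_three {x : ℝ} (hx : x ∈ Zs 3) : ∃ q : ℚ, x = q * val [3] := by
  rw [Zs_eq] at hx
  induction hx using Submodule.span_induction with
  | mem x hx =>
    obtain ⟨s, hs, h0, rfl⟩ := hx
    have hs2 : s = [3] ∨ s = [2, 1] := by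
      rcases s with _ | ⟨a, s⟩
      · simp at h0
      · have h1 := hs.2 a s rfl
        simp only [List.sum_cons] at h0
        rcases s with _ | ⟨b, s⟩
        · left
          simp only [List.sum_nil, add_zero] at h0
          rw [h0]
        · right
          have hb := hs.1 b (by simp)
          simp only [List.sum_cons] at h0
          rcases s with _ | ⟨c, s⟩
          · simp only [List.sum_nil, add_zero] at h0
            have ha : a = 2 := by omega
            have hb1 : b = 1 := by omega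
            rw [ha, hb1]
          · have := hs.1 c (by simp)
            simp only [List.sum_cons] at h0
            omega
    rcases hs2 with rfl | rfl
    · exact ⟨1, by simp⟩
    · exact ⟨1, by rw [val_21]; simp⟩
  | zero => exact ⟨0, by simp⟩
  | add x y _ _ hx hy =>
    obtain ⟨p, rfl⟩ := hx
    obtain ⟨q, rfl⟩ := hy
    exact ⟨p + q, by push_cast; ring⟩
  | smul a x _ hx =>
    obtain ⟨q, rfl⟩ := hx
    exact ⟨a * q, by rw [Rat.smul_def]; push_cast; ring⟩

theorem val_2_val_4 : val [2] * val [2] = 5 / 2 * val [4] := by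
  have h2 : val [2] = Real.pi ^ 2 / 6 := by rw [← (val_single 2 le_rfl).tsum_eq, zeta_two]
  have h4 : val [4] = Real.pi ^ 4 / 90 := by
    rw [← (val_single 4 (by norm_num)).tsum_eq]
    have h := hasSum_zeta_four
    have h2 := (hasSum_nat_add_iff' (f := fun n : ℕ => (1 : ℝ) / (n : ℝ) ^ 4) 1).2 h
    simp only [Finset.range_one, Finset.sum_singleton, Nat.cast_zero] at h2
    have h3 := h2.tsum_eq
    push_cast at h3
    rw [h3]
    norm_num
  rw [h2, h4]
  ring

theorem Zs_four {x : ℝ} (hx : x ∈ Zs 4) : ∃ q : ℚ, x = q * val [4] := by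
  have h1 := val_2_val_4
  have h2 := val_22
  have h3 := val_31
  rw [Zs_eq] at hx
  induction hx using Submodule.span_induction with
  | mem x hx =>
    obtain ⟨s, hs, h0, rfl⟩ := hx
    have hs2 : s = [4] ∨ s = [3, 1] ∨ s = [2, 2] ∨ s = [2, 1, 1] := by
      rcases s with _ | ⟨a, s⟩
      · simp at h0
      · have ha2 := hs.2 a s rfl
        simp only [List.sum_cons] at h0
        rcases s with _ | ⟨b, s⟩
        · left
          simp only [List.sum_nil, add_zero] at h0
          rw [h0]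
        · right
          have hb := hs.1 b (by simp)
          simp only [List.sum_cons] at h0
          rcases s with _ | ⟨c, s⟩
          · simp only [List.sum_nil, add_zero] at h0
            have : (a = 3 ∧ b = 1) ∨ (a = 2 ∧ b = 2) := by omega
            rcases this with ⟨rfl, rfl⟩ | ⟨rfl, rfl⟩
            · left; rfl
            · right; left; rfl
          · right; right
            have hc := hs.1 c (by simp)
            simp only [List.sum_cons] at h0
            rcases s with _ | ⟨d, s⟩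
            · simp only [List.sum_nil, add_zero] at h0
              have : a = 2 ∧ b = 1 ∧ c = 1 := by omega
              obtain ⟨rfl, rfl, rfl⟩ := this
              rfl
            · have := hs.1 d (by simp)
              simp only [List.sum_cons] at h0
              omega
    rcases hs2 with rfl | rfl | rfl | rfl
    · exact ⟨1, by simp⟩
    · exact ⟨1 / 4, by push_cast; linarith⟩
    · exact ⟨3 / 4, by push_cast; linarith⟩
    · exact ⟨1, by rw [val_211]; simp⟩
  | zero => exact ⟨0, by simp⟩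
  | add x y _ _ hx hy =>
    obtain ⟨p, rfl⟩ := hx
    obtain ⟨q, rfl⟩ := hy
    exact ⟨p + q, by push_cast; ring⟩
  | smul a x _ hx =>
    obtain ⟨q, rfl⟩ := hx
    exact ⟨a * q, by rw [Rat.smul_def]; push_cast; ring⟩

end Pool.Agent.ZF.W4a
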