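import Pool.Agent.H337R2.Form
import Pool.Agent.H447R2.MZ.Dich
import Pool.Agent.H387R3.ZF.W4a

set_option autoImplicit false

/-! # Directness of `Z_0 + Z_1 + Z_3 + Z_4` (weight two omitted) from the linear independence of
`1, ζ(3), ζ(4)`. -/

namespace Pool.Agent.ZF

open Pool.Agent.H337R2 (zr)
open Pool.Agent.H447R2.MZ

/-- `Z_0 + Z_1 + Z_3 + Z_4` is direct if `1, ζ(3), ζ(4)` are linearly independent -/
theorem W4_case (h : LinearIndependent ℚ ![(1 : ℝ), zr 3, zr 4]) : ∀ z : ℕ → ℝ,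
    (∀ j ≤ 4, z j ∈ Submodule.span ℚ
        {x : ℝ | ∃ t : ℕ, ∃ k : Fin t → ℕ,
          (∀ i, 1 ≤ k i) ∧ (∀ h : 0 < t, 2 ≤ k ⟨0, h⟩) ∧ (∑ i, k i) = j ∧
          x = ∑' n : {n : Fin t → ℕ // StrictAnti n ∧ ∀ i, 1 ≤ n i},
                ∏ i, (((n.1 i : ℕ) : ℝ) ^ (k i))⁻¹}) →
    z 2 = 0 → (∑ j ∈ Finset.range 5, z j) = 0 → ∀ j ≤ 4, z j = 0 := by
  intro z hz h2 hs
  have hz' : ∀ j ≤ 4, z j ∈ Zs j := hz
  obtain ⟨q0, h0⟩ := Zs_zero (hz' 0 (by norm_num))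
  have h1 := Zs_one (hz' 1 (by norm_num))
  obtain ⟨q3, h3⟩ := W4a.Zs_three (hz' 3 (by norm_num))
  obtain ⟨q4, h4⟩ := W4a.Zs_four (hz' 4 (by norm_num))
  have e3 : val [3] = zr 3 := (val_single 3 (by norm_num)).tsum_eq.symm
  have e4 : val [4] = zr 4 := (val_single 4 (by norm_num)).tsum_eq.symm
  rw [e3] at h3
  rw [e4] at h4
  rw [Fintype.linearIndependent_iff] at h
  have hsum : q0 • (1 : ℝ) + q3 • zr 3 + q4 • zr 4 = 0 := by
    simp only [Finset.sum_range_succ, Finset.sum_range_zero, h0, h1, h2, h3, h4] at hs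
    rw [Rat.smul_def, Rat.smul_def, Rat.smul_def]
    linarith
  have h5 := h ![q0, q3, q4] (by
    simp only [Fin.sum_univ_three, Matrix.cons_val_zero, Matrix.cons_val_one,
      Matrix.cons_val_two, Matrix.cons_val]
    exact hsum)
  have g0 : q0 = 0 := by simpa using h5 0
  have g3 : q3 = 0 := by simpa using h5 1
  have g4 : q4 = 0 := by simpa using h5 2
  intro j hj
  interval_cases j
  · rw [h0, g0, Rat.cast_zero]
  · exact h1
  · exact h2
  · rw [h3, g3, Rat.cast_zero, zero_mul]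
  · rw [h4, g4, Rat.cast_zero, zero_mul]

end Pool.Agent.ZF
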