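import Pool.Agent.H387R3.ZF.Defs
import Pool.Agent.H337R2.LZ.PM
import Pool.Agent.H336R2.HD.A5

/-!
# `1, ζ(3), ζ(4)`: the contradiction (`Z1_of`), with `P_main`, `P_large`, `H6_nonvanish` as hypotheses
-/

open Polynomial Pool.Agent.H337R2 Filter Topology

namespace Pool.Agent.ZF

noncomputable section

theorem Z1_of_pre
    (HP : ∀ ε : ℝ, 0 < ε → ∀ (q : ℕ) (α β : ℚ), QI q α → QI q β → ∀ᶠ n : ℕ in atTop,
      DET n α β (4 * n) ≠ 0 →
      ∑ p ∈ (Finset.range (10 * n + 1)).filter Nat.Prime,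
        Real.log ((padicNorm p ((q : ℚ) ^ (4 * n) * DET n α β (4 * n)) : ℚ) : ℝ) ≤
      -(16 * (n : ℝ) ^ 2 * Real.log n) + (552 / 10 + ε) * (n : ℝ) ^ 2)
    (HL : ∀ (q : ℕ) (α β : ℚ), QI q α → QI q β → ∀ n : ℕ, 1 ≤ n → ∀ p : ℕ, p.Prime → 10 * n < p →
      padicNorm p ((q : ℚ) ^ (4 * n) * DET n α β (4 * n)) ≤ 1)
    (H6 : ∀ α β : ℚ, ∃ p0 : ℕ, ∀ p : ℕ, p0 ≤ p → p.Prime → DET p α β (4 * p) ≠ 0)
    (α β : ℚ) (_h : zr 4 = (α : ℝ) + β * zr 3) (S : ℕ) (hS : 1 ≤ S)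
    (AM : ∀ᶠ N : ℕ in atTop, ∀ n : ℕ, n = S * N + 1 → DET n α β (4 * n) ≠ 0 →
      Real.log |((DET n α β (4 * n) : ℚ) : ℝ)| ≤ 16 * (n : ℝ) ^ 2 * Real.log n - 56 * (n : ℝ) ^ 2) : False := by
  -- common denominator
  obtain ⟨q, hq, hα, hβ⟩ : ∃ q : ℕ, 1 ≤ q ∧ QI q α ∧ QI q β := by
    have h0 : 0 < α.den * β.den := Nat.mul_pos α.pos β.pos
    refine ⟨α.den * β.den, h0, ⟨h0, β.den * α.num, ?_⟩, ⟨h0, α.den * β.num, ?_⟩⟩
    · have := Rat.den_mul_eq_num α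
      push_cast
      rw [mul_comm (α.den : ℚ) (β.den : ℚ), mul_assoc, this]
    · have := Rat.den_mul_eq_num β
      push_cast
      rw [mul_assoc, this]
  obtain ⟨p0, hp0⟩ := H6 α β
  have hP := HP (1 / 10) (by norm_num) q α β hα hβ
  have hq0 : (0 : ℝ) < q := by exact_mod_cast hq
  -- the power of q
  have hQ : ∀ᶠ n : ℕ in atTop, 10 * (4 * (n : ℝ) * Real.log q) < (n : ℝ) ^ 2 := by
    have h1 : ∀ᶠ n : ℕ in atTop, 10 * (4 * Real.log q) < (n : ℝ) :=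
      (tendsto_natCast_atTop_atTop (R := ℝ)).eventually_gt_atTop _
    filter_upwards [h1, eventually_ge_atTop 1] with n h2 h3
    have h4 : (1 : ℝ) ≤ n := by exact_mod_cast h3
    nlinarith
  obtain ⟨N1, hN1⟩ := eventually_atTop.1 AM
  obtain ⟨N, hN⟩ := eventually_atTop.1 (hP.and (hQ.and (eventually_ge_atTop 1)))
  obtain ⟨n, hnp, hn, hmod⟩ := Nat.exists_prime_gt_modEq_one (k := S) (max (max N p0) (S * N1 + 1))
    (Nat.one_le_iff_ne_zero.1 hS)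
  have hnN : N ≤ n := ((le_max_left _ _).trans (le_max_left _ _)).trans hn.le
  have hnp0 : p0 ≤ n := ((le_max_right _ _).trans (le_max_left _ _)).trans hn.le
  have hnN1 : S * N1 + 1 < n := lt_of_le_of_lt (le_max_right _ _) hn
  obtain ⟨M, hM⟩ : ∃ M : ℕ, n = S * M + 1 := by
    have hdvd : S ∣ n - 1 := (Nat.modEq_iff_dvd' hnp.one_lt.le).1 hmod.symm
    obtain ⟨M, hM⟩ := hdvd
    exact ⟨M, by have := hnp.one_lt; omega⟩
  have hMN1 : N1 ≤ M := by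
    rw [hM] at hnN1
    have h5 : S * N1 < S * M := by omega
    exact (Nat.lt_of_mul_lt_mul_left h5).le
  obtain ⟨h1, h3, h4⟩ := hN n hnN
  have hne := hp0 n hnp0 hnp
  have h1' := h1 hne
  have h2' := hN1 M hMN1 n hM hne
  set z : ℚ := (q : ℚ) ^ (4 * n) * DET n α β (4 * n) with hz
  have hqq : (q : ℚ) ≠ 0 := by exact_mod_cast (Nat.one_le_iff_ne_zero.1 hq)
  have hz0 : z ≠ 0 := mul_ne_zero (pow_ne_zero _ hqq) hne
  have hSp : ∀ p ∈ (Finset.range (10 * n + 1)).filter Nat.Prime, p.Prime := fun p hp =>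
    (Finset.mem_filter.1 hp).2
  have hprod := Pool.Agent.H336R2.HD.A5_prod_formula z hz0 ((Finset.range (10 * n + 1)).filter Nat.Prime) hSp
    (fun p => ((padicNorm p z : ℚ) : ℝ)) (fun p _ => le_rfl) (fun p hp hpS => by
      apply HL q α β hα hβ n h4 p hp
      by_contra hlt
      apply hpS
      rw [Finset.mem_filter, Finset.mem_range]
      exact ⟨by omega, hp⟩)
  have hpos : ∀ p ∈ (Finset.range (10 * n + 1)).filter Nat.Prime, ((padicNorm p z : ℚ) : ℝ) ≠ 0 :=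
    fun p hp => (Pool.Agent.LZ.PM_z_pos p (hSp p hp) z hz0).ne'
  have hDpos : 0 < |((DET n α β (4 * n) : ℚ) : ℝ)| := abs_pos.2 (by exact_mod_cast hne)
  have habs : |(z : ℝ)| = (q : ℝ) ^ (4 * n) * |((DET n α β (4 * n) : ℚ) : ℝ)| := by
    rw [hz]
    push_cast
    rw [abs_mul, abs_of_pos (pow_pos hq0 _)]
  have hlog := Real.log_nonneg hprod
  rw [habs, Real.log_mul (mul_pos (pow_pos hq0 _) hDpos).ne' (Finset.prod_ne_zero_iff.2 hpos),
    Real.log_mul (pow_pos hq0 _).ne' hDpos.ne', Real.log_pow, Real.log_prod (fun p hp => hpos p hp)] at hlog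
  push_cast at hlog
  have hn1 : (1 : ℝ) ≤ n := by exact_mod_cast h4
  have hn2 : (1 : ℝ) ≤ (n : ℝ) ^ 2 := by nlinarith
  nlinarith [hlog, h1', h2', h3, hn2]

end

end Pool.Agent.ZF
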