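import Pool.Agent.H387R3.ZF.Defs

/-!
# linear independence from the main statement (task Z3)
-/

open Pool.Agent.H337R2

namespace Pool.Agent.ZF

/-- from `Z1` (for all `α β`) and the irrationality of `ζ(3)` -/
theorem Z3_of (h1 : ∀ α β : ℚ, zr 4 ≠ (α : ℝ) + β * zr 3) (h2 : Irrational (zr 3)) :
    LinearIndependent ℚ ![(1 : ℝ), zr 3, zr 4] := by
  rw [Fintype.linearIndependent_iff]
  intro g hg
  rw [Fin.sum_univ_three] at hg
  simp only [Matrix.cons_val_zero, Matrix.cons_val_one, Matrix.cons_val, Rat.smul_def] at hg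
  have hg2 : g 2 = 0 := by
    by_contra h3
    have h2' : ((g 2 : ℚ) : ℝ) ≠ 0 := by exact_mod_cast h3
    apply h1 (-(g 0 / g 2)) (-(g 1 / g 2))
    push_cast
    field_simp
    linarith
  have hg1 : g 1 = 0 := by
    by_contra h3
    have h1' : ((g 1 : ℚ) : ℝ) ≠ 0 := by exact_mod_cast h3
    apply h2
    refine ⟨-(g 0 / g 1), ?_⟩
    rw [hg2] at hg
    push_cast
    field_simp
    push_cast at hg
    linarith
  have hg0 : g 0 = 0 := by
    rw [hg1, hg2] at hg
    push_cast at hg
    have h3 : ((g 0 : ℚ) : ℝ) = 0 := by linarith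
    exact_mod_cast h3
  intro i
  fin_cases i
  · exact hg0
  · exact hg1
  · exact hg2

end Pool.Agent.ZF
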