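import Pool.Agent.H383.Z34.AM
import Pool.Agent.H387R3.ZF.C1
import Pool.Agent.H387R3.ZF.C2
import Pool.Agent.H387R3.ZF.C3
import Pool.Agent.H387R3.ZF.D3pre
import Pool.Agent.H387R3.ZF.D4pre
import Pool.Agent.H387R3.ZF.E1
import Pool.Agent.H387R3.ZF.E2
import Pool.Agent.H387R3.ZF.E4pre
import Pool.Agent.H387R3.ZF.E5
import Pool.Agent.H337R2.LZ.F1
import Pool.Agent.H387R3.ZF.F3
import Pool.Agent.H387R3.ZF.F4
import Pool.Agent.H387R3.ZF.F5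
import Pool.Agent.H387R3.ZF.F6
import Pool.Agent.H387R3.ZF.F7
import Pool.Agent.H387R3.ZF.PMpre
import Pool.Agent.H387R3.ZF.H1
import Pool.Agent.H387R3.ZF.H3pre
import Pool.Agent.H387R3.ZF.H4
import Pool.Agent.H387R3.ZF.H5
import Pool.Agent.H387R3.ZF.H6pre
import Pool.Agent.H387R3.ZF.Z1pre
import Pool.Agent.H387R3.ZF.Z3
import Pool.Agent.H337R2.LZ.Z

/-!
# `1, ζ(3), ζ(4)` are linearly independent over `ℚ`: assembly
-/

open Polynomial Pool.Agent.H337R2 Filter Topology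

namespace Pool.Agent.ZF

noncomputable section

/-! ### D. determinant, p-adic -/

theorem D3_det {n p : ℕ} [Fact p.Prime] (hn : 1 ≤ n) (hp2 : 10 * n < p ^ 2) (q : ℕ) (α β : ℚ)
    (hα : QI q α) (hβ : QI q β) (m : ℕ) (μ : ℤ) (S : Finset ℕ) (_hS : S ⊆ Finset.range p)
    (h : ∀ k ∈ sF n, k % p ∈ S ∨
      (padicNorm p (cF n) ≤ (p : ℚ) ^ μ ∧ k < 2 * n + 1 + p ∧ ∀ k' ∈ sF n, k' ≠ k → ¬ (p : ℤ) ∣ (k' : ℤ) - k)) :
    padicNorm p ((q : ℚ) ^ m * DET n α β m) ≤ (p : ℚ) ^ ((m : ℤ) * μ + ∑ κ ∈ S, TT (2 - eF n p κ - μ)) :=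
  D3_det_of (fun hn hp2 q α β hα hβ E W hW A hA hE hE1 h => C2_xf hn hp2 q α β hα hβ E W hW A hA hE hE1 h)
    hn hp2 q α β hα hβ m μ S h

theorem D3_large {n p : ℕ} [Fact p.Prime] (hn : 1 ≤ n) (hp2 : 10 * n < p ^ 2) (hp : 8 * n ≤ p) (q : ℕ) (α β : ℚ)
    (hα : QI q α) (hβ : QI q β) (m : ℕ) :
    padicNorm p ((q : ℚ) ^ m * DET n α β m) ≤ 1 :=
  D3_large_of (fun hn hp2 q α β hα hβ E W hW A hA hE hE1 h => C2_xf hn hp2 q α β hα hβ E W hW A hA hE hE1 h)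
    hn hp2 hp q α β hα hβ m

theorem D4_small_med {n p : ℕ} [Fact p.Prime] (hn : 1 ≤ n) (hp2 : 14 * n < p ^ 2) (q : ℕ) (α β : ℚ)
    (hα : QI q α) (hβ : QI q β) :
    padicNorm p ((q : ℚ) ^ (4 * n) * DET n α β (4 * n)) ≤
      ((p : ℚ) ^ 4) ^ (4 * n) * ∏ i ∈ Finset.range (4 * n), padicNorm p ((i.factorial : ℕ) : ℚ) ^ 2 :=
  D4_small_med_St (fun hn hp2 q α β hα hβ E W hW A hA hE hE1 h => C2_xf hn hp2 q α β hα hβ E W hW A hA hE hE1 h)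
    hn hp2 q α β hα hβ

theorem D4_small_crude {n p : ℕ} [Fact p.Prime] (hn : 1 ≤ n) (q : ℕ) (α β : ℚ)
    (hα : QI q α) (hβ : QI q β) :
    padicNorm p ((q : ℚ) ^ (4 * n) * DET n α β (4 * n)) ≤
      (((14 * n + 1 : ℕ) : ℚ) ^ 40) ^ (4 * n) *
        ∏ i ∈ Finset.range (4 * n), padicNorm p ((i.factorial : ℕ) : ℚ) ^ 2 :=
  D4_small_crude_St (fun hn q α β hα hβ E A hA hE => C3_crude hn q α β hα hβ E A hA hE) hn q α β hα hβ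

theorem E4_cell (c : Cell) (hc : c.ok = true) : ∃ K0 : ℝ, ∀ n : ℕ, 1 ≤ n → ∀ p : ℕ, p.Prime → 10 * n < p ^ 2 →
    c.u0 * n < p * c.v0 → p * c.v1 ≤ c.u1 * n → ∀ (q : ℕ) (α β : ℚ), QI q α → QI q β →
    ((padicNorm p ((q : ℚ) ^ (4 * n) * DET n α β (4 * n)) : ℚ) : ℝ) ≤
      (p : ℝ) ^ ((c.AB.1 : ℝ) * n + c.AB.2 * p + K0) :=
  E4_cell' (fun hn hp2 q α β hα hβ m μ S hS h => D3_det hn hp2 q α β hα hβ m μ S hS h)
    (@E1_fl) (@E2_sum) c hc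

/-- **the p-adic part** -/
theorem P_main : ∀ ε : ℝ, 0 < ε → ∀ (q : ℕ) (α β : ℚ), QI q α → QI q β → ∀ᶠ n : ℕ in atTop,
    DET n α β (4 * n) ≠ 0 →
    ∑ p ∈ (Finset.range (10 * n + 1)).filter Nat.Prime,
      Real.log ((padicNorm p ((q : ℚ) ^ (4 * n) * DET n α β (4 * n)) : ℚ) : ℝ) ≤
    -(16 * (n : ℝ) ^ 2 * Real.log n) + (552 / 10 + ε) * (n : ℝ) ^ 2 :=
  P_main_of (fun hn hp2 q α β hα hβ => D4_small_med hn hp2 q α β hα hβ)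
    (fun hn q α β hα hβ => D4_small_crude hn q α β hα hβ)
    (fun c hc => E4_cell c (List.all_eq_true.1 E5_ok c hc)) E5_ok
    (fun lo hi h0 h1 h2 A B => Pool.Agent.LZ.F1_lin lo hi h0 h1 h2 A B) F3_total
    (fun hc _ _ hn hp h0 h1 => F4_sf hc hn hp h0 h1) F5_fact F6_superfac F7_small

theorem P_large : ∀ (q : ℕ) (α β : ℚ), QI q α → QI q β → ∀ n : ℕ, 1 ≤ n → ∀ p : ℕ, p.Prime → 10 * n < p →
    padicNorm p ((q : ℚ) ^ (4 * n) * DET n α β (4 * n)) ≤ 1 :=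
  P_large_of (fun hn hp2 hp q α β hα hβ m => D3_large hn hp2 hp q α β hα hβ m)

/-! ### H. Non-vanishing -/

theorem H3_diag {p : ℕ} [Fact p.Prime] (hp : 100 ≤ p) (α β : ℚ) (hα : padicNorm p α ≤ 1)
    (hβ : padicNorm p β ≤ 1) (r : ℕ) (hr1 : 1 ≤ r) (hr2 : r ≤ p) :
    ∃ w : ℚ, padicNorm p w = 1 ∧ ∀ e : ℕ, e ≤ 6 →
      padicNorm p ((p : ℚ) ^ (2 - (e : ℤ)) * NL p α β ((X + C (r : ℚ)) ^ e * OT p r 8) - w * Fm e) ≤ (p : ℚ)⁻¹ := by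
  refine H3_of (p := p) ?_ (by omega) α β hα hβ r hr1 hr2 (H2_pa hp r hr1 hr2)
  intro E k hk A hA hE i
  refine C1_pa (n := p) (by omega) ?_ E hk A hA hE i
  have : 10 * p < p * p := Nat.mul_lt_mul_of_pos_right (by omega) (by omega)
  rw [sq]
  exact this

theorem H6_nonvanish (α β : ℚ) : ∃ p0 : ℕ, ∀ p : ℕ, p0 ≤ p → p.Prime → DET p α β (4 * p) ≠ 0 :=
  H6_of (fun hp α β hα hβ r hr1 hr2 => H3_diag hp α β hα hβ r hr1 hr2)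
    (fun hp α β hα hβ r s l l' hr1 hr2 hs1 hs2 hrs hl hl' =>
      H4_offdiag hp α β hα hβ r s l l' hr1 hr2 hs1 hs2 hrs hl hl')
    H5_local α β

/-! ### Z. Conclusion -/

theorem Z1_main (α β : ℚ) : zr 4 ≠ (α : ℝ) + β * zr 3 := fun h =>
  Z1_of_pre P_main P_large H6_nonvanish α β h 24 (by norm_num) (AM_main α β h)

/-- Apery's theorem, from the linear independence of `1, ζ(2), ζ(3)` -/
theorem Z2_zeta3 : Irrational (zr 3) := by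
  intro ⟨q, hq⟩
  have h := Pool.Agent.LZ.Z3_linind
  rw [Fintype.linearIndependent_iff] at h
  have h1 := h ![q, 0, -1] (by
    rw [Fin.sum_univ_three]
    simp only [Matrix.cons_val_zero, Matrix.cons_val_one, Matrix.cons_val, Rat.smul_def]
    push_cast
    rw [hq]
    ring) 2
  simp at h1

theorem Z3_linind : LinearIndependent ℚ ![(1 : ℝ), zr 3, zr 4] := Z3_of Z1_main Z2_zeta3

end

end Pool.Agent.ZF
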